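import Pool.Agent.Y671.GL.Spec
import Pool.Agent.TH43.LK.KlGcd
import Pool.Agent.H510R2.Div

set_option autoImplicit false

/-!
# Task ARC of project GD2 (owner helper671): cusps `a / q` and Kloosterman sums
-/

namespace Pool.Agent.Y412.GL

open Complex Finset MeasureTheory
open scoped ComplexConjugate
open Pool.Agent.Y671.GL
open Pool.Agent.H442R2.KF.TaskB (Kl)

variable {k N : ℕ} {ps lam : ℕ → ℂ}

theorem int_exp (m : ℤ) : ∫ x in (0 : ℝ)..1, cexp (2 * Real.pi * I * m * x) = if m = 0 then 1 else 0 := by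
  split_ifs with h
  · subst h; simp
  · have hc : (2 * Real.pi * I * m : ℂ) ≠ 0 := by
      have : (m : ℂ) ≠ 0 := by exact_mod_cast h
      have hpi : (Real.pi : ℂ) ≠ 0 := by exact_mod_cast Real.pi_ne_zero
      simp [this, hpi]
    rw [integral_exp_mul_complex hc]
    have h1 : cexp (2 * Real.pi * I * m * (1 : ℝ)) = 1 := by
      rw [Complex.ofReal_one, mul_one]
      rw [show (2 * Real.pi * I * m : ℂ) = m * (2 * Real.pi * I) by ring]
      exact Complex.exp_int_mul_two_pi_mul_I m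
    rw [h1]
    simp

/-- Bessel's inequality for an absolutely convergent trigonometric series -/
theorem bessel (c : ℕ → ℂ) (hc : Summable (fun n => ‖c n‖)) (f : ℝ → ℂ)
    (hf : ∀ x, f x = ∑' n : ℕ, c n * cexp (-(2 * Real.pi * I * n * x))) (B : ℝ)
    (hB : ∀ x, ‖f x‖ ≤ B) (s : Finset ℕ) : ∑ n ∈ s, ‖c n‖ ^ 2 ≤ B ^ 2 := by
  have hB0 : 0 ≤ B := (norm_nonneg _).trans (hB 0)
  have hterm : ∀ (n : ℕ) (x : ℝ), ‖cexp (-(2 * Real.pi * I * n * x))‖ = 1 := by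
    intro n x
    rw [show (-(2 * Real.pi * I * n * x) : ℂ) = ((-(2 * Real.pi * n * x) : ℝ) : ℂ) * I by
      push_cast; ring]
    exact Complex.norm_exp_ofReal_mul_I _
  have hcont : Continuous f := by
    have : f = fun x : ℝ => ∑' n : ℕ, c n * cexp (-(2 * Real.pi * I * n * x)) := funext hf
    rw [this]
    refine continuous_tsum (fun n => by fun_prop) hc fun n x => ?_
    rw [norm_mul, hterm, mul_one]
  -- the coefficients
  have hcoef : ∀ n : ℕ, fourierCoeffOn (zero_lt_one' ℝ) f (-(n : ℤ)) = c n := by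
    intro n
    rw [fourierCoeffOn_eq_integral]
    have e1 : ∀ x : ℝ, (fourier (-(-(n : ℤ))) (x : AddCircle ((1 : ℝ) - 0)) : ℂ) • f x =
        ∑' m : ℕ, c m * cexp (2 * Real.pi * I * ((n - m : ℤ) : ℂ) * x) := by
      intro x
      rw [fourier_coe_apply, hf x, smul_eq_mul, ← tsum_mul_left]
      refine tsum_congr fun m => ?_
      rw [mul_left_comm, ← Complex.exp_add]
      congr 2
      push_cast
      ring
    simp_rw [e1]
    have hnorm : ∀ (m : ℕ) (x : ℝ), ‖c m * cexp (2 * Real.pi * I * ((n - m : ℤ) : ℂ) * x)‖ = ‖c m‖ := by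
      intro m x
      rw [norm_mul]
      rw [show (2 * Real.pi * I * ((n - m : ℤ) : ℂ) * x : ℂ) =
        ((2 * Real.pi * ((n - m : ℤ) : ℝ) * x : ℝ) : ℂ) * I by push_cast; ring,
        Complex.norm_exp_ofReal_mul_I, mul_one]
    have hS := hasSum_integral_of_summable_integral_norm (μ := volume.restrict (Set.Ioc (0 : ℝ) 1))
      (F := fun (m : ℕ) (x : ℝ) => c m * cexp (2 * Real.pi * I * ((n - m : ℤ) : ℂ) * x))
      (fun m => by
        apply Continuous.integrableOn_Ioc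
        fun_prop)
      (by
        simp_rw [hnorm]
        simpa using hc)
    rw [intervalIntegral.integral_of_le zero_le_one, ← hS.tsum_eq]
    have e2 : ∀ m : ℕ, ∫ x in Set.Ioc (0 : ℝ) 1, c m * cexp (2 * Real.pi * I * ((n - m : ℤ) : ℂ) * x) =
        if m = n then c n else 0 := by
      intro m
      rw [← intervalIntegral.integral_of_le zero_le_one, intervalIntegral.integral_const_mul, int_exp]
      by_cases hmn : m = n
      · subst hmn; simp
      · have : (n : ℤ) - m ≠ 0 := by omega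
        rw [if_neg this, if_neg hmn, mul_zero]
    simp_rw [e2]
    rw [tsum_ite_eq]
    simp
  have hL2 : MemLp f 2 (volume.restrict (Set.Ioc (0 : ℝ) 1)) := by
    refine MemLp.of_bound hcont.aestronglyMeasurable B (Filter.Eventually.of_forall hB)
  have hP := hasSum_sq_fourierCoeffOn (zero_lt_one' ℝ) hL2
  have hle : ((1 : ℝ) - 0)⁻¹ • ∫ x in (0 : ℝ)..1, ‖f x‖ ^ 2 ≤ B ^ 2 := by
    rw [sub_zero, inv_one, one_smul]
    calc ∫ x in (0 : ℝ)..1, ‖f x‖ ^ 2 ≤ ∫ x in (0 : ℝ)..1, B ^ 2 := by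
          apply intervalIntegral.integral_mono_on zero_le_one
          · exact (hcont.norm.pow 2).intervalIntegrable _ _
          · exact intervalIntegrable_const
          · intro x _
            exact pow_le_pow_left₀ (norm_nonneg _) (hB x) 2
      _ = B ^ 2 := by simp
  refine le_trans ?_ hle
  have hinj : Function.Injective (fun n : ℕ => -(n : ℤ)) := by
    intro a b hab
    simpa using hab
  calc ∑ n ∈ s, ‖c n‖ ^ 2 = ∑ i ∈ s.map ⟨_, hinj⟩, ‖fourierCoeffOn (zero_lt_one' ℝ) f i‖ ^ 2 := by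
        rw [Finset.sum_map]
        refine Finset.sum_congr rfl fun n _ => ?_
        simp only [Function.Embedding.coeFn_mk]
        rw [hcoef]
    _ ≤ _ := sum_le_hasSum _ (fun i _ => by positivity) hP

theorem conj_lam_le (hF : Frm k N ps lam) : ∃ C s : ℝ, 0 < C ∧
    ((k : ℝ) - 1) / 2 + 1 / 8 ≤ s ∧ ∀ n : ℕ, ‖aa k lam n‖ ≤ C * (n : ℝ) ^ s := by
  obtain ⟨th, C, h0, _, hC⟩ := hF.ram
  refine ⟨|C| + 1, ((k : ℝ) - 1) / 2 + max th (1 / 8), by positivity,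
    by linarith [le_max_right th (1 / 8 : ℝ)], fun n => ?_⟩
  rcases Nat.eq_zero_or_pos n with rfl | hn
  · unfold aa
    rw [hF.zero, zero_mul, norm_zero]
    positivity
  · have hn' : (0 : ℝ) < n := by exact_mod_cast hn
    have hn1 : (1 : ℝ) ≤ n := by exact_mod_cast hn
    unfold aa
    rw [norm_mul, Complex.norm_real, Real.norm_of_nonneg (by positivity), Real.rpow_add hn']
    have h1 : ‖lam n‖ ≤ (|C| + 1) * (n : ℝ) ^ (max th (1 / 8)) := by
      refine (hC n hn).trans ?_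
      have h2 : (n : ℝ) ^ th ≤ (n : ℝ) ^ (max th (1 / 8)) :=
        Real.rpow_le_rpow_of_exponent_le hn1 (le_max_left _ _)
      have h3 : C ≤ |C| + 1 := by linarith [le_abs_self C]
      calc C * (n : ℝ) ^ th ≤ (|C| + 1) * (n : ℝ) ^ th :=
            mul_le_mul_of_nonneg_right h3 (by positivity)
        _ ≤ _ := mul_le_mul_of_nonneg_left h2 (by positivity)
    have h2 : (0 : ℝ) ≤ (n : ℝ) ^ (((k : ℝ) - 1) / 2) := by positivity
    nlinarith [mul_le_mul_of_nonneg_right h1 h2]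

/-- `x^s e^{-x/2}` is bounded -/
theorem pow_exp_bd (s : ℝ) (hs : 0 ≤ s) : ∃ C : ℝ, 0 < C ∧ ∀ x : ℝ, 0 ≤ x →
    x ^ s * Real.exp (-(x / 2)) ≤ C := by
  obtain ⟨m, hm⟩ := exists_nat_ge s
  refine ⟨1 + 2 ^ m * (m.factorial : ℝ), by positivity, fun x hx => ?_⟩
  rcases le_total x 1 with h1 | h1
  · have h2 : x ^ s ≤ 1 := Real.rpow_le_one hx h1 hs
    have h3 : Real.exp (-(x / 2)) ≤ 1 := by
      rw [Real.exp_le_one_iff]; linarith
    have h4 : x ^ s * Real.exp (-(x / 2)) ≤ 1 * 1 :=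
      mul_le_mul h2 h3 (Real.exp_pos _).le (by norm_num)
    have h5 : (0 : ℝ) ≤ 2 ^ m * (m.factorial : ℝ) := by positivity
    linarith
  · have h2 : x ^ s ≤ x ^ m := by
      rw [← Real.rpow_natCast]
      exact Real.rpow_le_rpow_of_exponent_le h1 hm
    have h3 : (x / 2) ^ m / m.factorial ≤ Real.exp (x / 2) :=
      Real.pow_div_factorial_le_exp (x / 2) (by linarith) m
    have hf : (0 : ℝ) < m.factorial := by exact_mod_cast m.factorial_pos
    have h4 : x ^ m ≤ 2 ^ m * m.factorial * Real.exp (x / 2) := by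
      rw [div_le_iff₀ hf, div_pow] at h3
      have h2m : (0 : ℝ) < 2 ^ m := by positivity
      rw [div_le_iff₀ h2m] at h3
      nlinarith
    rw [Real.exp_neg]
    have he : (0 : ℝ) < Real.exp (x / 2) := Real.exp_pos _
    rw [← div_eq_mul_inv, div_le_iff₀ he]
    nlinarith

theorem exp_sum (y : ℝ) (hy : 0 < y) :
    HasSum (fun n : ℕ => if n = 0 then (0 : ℝ) else Real.exp (-y) ^ n)
      (Real.exp (-y) / (1 - Real.exp (-y))) ∧ Real.exp (-y) / (1 - Real.exp (-y)) ≤ 1 / y := by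
  set ρ : ℝ := Real.exp (-y) with hρ
  have hρ0 : 0 < ρ := Real.exp_pos _
  have hρ1 : ρ < 1 := by rw [hρ, Real.exp_lt_one_iff]; linarith
  have hsum : HasSum (fun n : ℕ => ρ ^ (n + 1)) (ρ / (1 - ρ)) := by
    have := (hasSum_geometric_of_lt_one hρ0.le hρ1).mul_left ρ
    simpa [pow_succ, mul_comm, div_eq_mul_inv] using this
  constructor
  · rw [← hasSum_nat_add_iff' 1]
    simp only [Finset.range_one, Finset.sum_singleton, if_true, sub_zero, Nat.add_eq_zero_iff,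
      one_ne_zero, and_false, if_false]
    exact hsum
  · have h1ρ : 0 < 1 - ρ := by linarith
    rw [div_le_div_iff₀ h1ρ hy]
    have h5 : y + 1 ≤ Real.exp y := Real.add_one_le_exp _
    have h6 : ρ * Real.exp y = 1 := by
      rw [hρ, ← Real.exp_add]; simp
    nlinarith

theorem sum_aa_large (hF : Frm k N ps lam) : ∃ C s : ℝ, 0 < C ∧ ((k : ℝ) - 1) / 2 + 1 / 8 ≤ s ∧
    ∀ y : ℝ, 0 < y →
    Summable (fun n : ℕ => ‖aa k lam n‖ * Real.exp (-(n * y))) ∧
    ∑' n : ℕ, ‖aa k lam n‖ * Real.exp (-(n * y)) ≤ C * y ^ (-s - 1) := by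
  obtain ⟨C0, s, hC0, hs, h0⟩ := conj_lam_le hF
  have hk : (1 : ℝ) ≤ k := by exact_mod_cast hF.k_pos
  have hs0 : 0 < s := by linarith
  obtain ⟨C1, hC1, h1⟩ := pow_exp_bd s hs0.le
  refine ⟨C0 * C1 * 2, s, by positivity, hs, fun y hy => ?_⟩
  have hz : aa k lam 0 = 0 := by unfold aa; rw [hF.zero, zero_mul]
  -- pointwise
  have hpt : ∀ n : ℕ, ‖aa k lam n‖ * Real.exp (-(n * y)) ≤
      C0 * C1 * y ^ (-s) * (if n = 0 then 0 else Real.exp (-(y / 2)) ^ n) := by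
    intro n
    rcases Nat.eq_zero_or_pos n with rfl | hn
    · simp [hz]
    · rw [if_neg hn.ne']
      have hn' : (0 : ℝ) < n := by exact_mod_cast hn
      have e1 : Real.exp (-(n * y)) = Real.exp (-(n * y / 2)) * Real.exp (-(y / 2)) ^ n := by
        rw [← Real.exp_nat_mul, ← Real.exp_add]
        congr 1
        ring
      have e2 : (n : ℝ) ^ s * Real.exp (-(n * y / 2)) ≤ C1 * y ^ (-s) := by
        have := h1 (n * y) (by positivity)
        rw [Real.mul_rpow hn'.le hy.le] at this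
        rw [Real.rpow_neg hy.le, ← div_eq_mul_inv, le_div_iff₀ (by positivity)]
        calc _ = (n : ℝ) ^ s * y ^ s * Real.exp (-(n * y / 2)) := by ring
          _ ≤ C1 := this
      rw [e1]
      have e3 : (0 : ℝ) ≤ Real.exp (-(y / 2)) ^ n := by positivity
      calc ‖aa k lam n‖ * (Real.exp (-(n * y / 2)) * Real.exp (-(y / 2)) ^ n)
          ≤ (C0 * (n : ℝ) ^ s) * (Real.exp (-(n * y / 2)) * Real.exp (-(y / 2)) ^ n) :=
            mul_le_mul_of_nonneg_right (h0 n) (by positivity)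
        _ = C0 * ((n : ℝ) ^ s * Real.exp (-(n * y / 2))) * Real.exp (-(y / 2)) ^ n := by ring
        _ ≤ C0 * (C1 * y ^ (-s)) * Real.exp (-(y / 2)) ^ n :=
            mul_le_mul_of_nonneg_right (mul_le_mul_of_nonneg_left e2 hC0.le) e3
        _ = _ := by ring
  obtain ⟨hg1, hg2⟩ := exp_sum (y / 2) (by positivity)
  have hsum2 := hg1.mul_left (C0 * C1 * y ^ (-s))
  have hnn : ∀ n : ℕ, 0 ≤ ‖aa k lam n‖ * Real.exp (-(n * y)) := fun n => by positivity
  have hS : Summable (fun n : ℕ => ‖aa k lam n‖ * Real.exp (-(n * y))) :=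
    Summable.of_nonneg_of_le hnn hpt hsum2.summable
  refine ⟨hS, ?_⟩
  have h3 : ∑' n : ℕ, ‖aa k lam n‖ * Real.exp (-(n * y)) ≤
      C0 * C1 * y ^ (-s) * (Real.exp (-(y / 2)) / (1 - Real.exp (-(y / 2)))) := by
    rw [← hsum2.tsum_eq]
    exact hS.tsum_le_tsum hpt hsum2.summable
  refine h3.trans ?_
  have h5 : y ^ (-s - 1) = y ^ (-s) / y := Real.rpow_sub_one hy.ne' _
  rw [h5]
  calc C0 * C1 * y ^ (-s) * (Real.exp (-(y / 2)) / (1 - Real.exp (-(y / 2))))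
      ≤ C0 * C1 * y ^ (-s) * (1 / (y / 2)) :=
        mul_le_mul_of_nonneg_left hg2 (by positivity)
    _ = _ := by field_simp

/-- mean square on a horizontal line -/
theorem sq_sum (hF : Frm k N ps lam) : ∃ C : ℝ, 0 < C ∧ ∀ y : ℝ, 0 < y → ∀ s : Finset ℕ,
    ∑ n ∈ s, (‖aa k lam n‖ * Real.exp (-(n * y))) ^ 2 ≤ C ^ 2 * y ^ (-(k : ℝ)) := by
  obtain ⟨C, hC⟩ := hF.bd
  obtain ⟨_, _, _, _, hS⟩ := sum_aa_large hF
  refine ⟨|C| + 1, by positivity, fun y hy s => ?_⟩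
  have hn : ∀ n : ℕ, ‖aa k lam n * cexp (-(n * y))‖ = ‖aa k lam n‖ * Real.exp (-(n * y)) := by
    intro n
    rw [norm_mul, Complex.norm_exp]
    congr 2
    rw [neg_re, ← Complex.ofReal_natCast n, Complex.re_ofReal_mul, Complex.ofReal_re]
  have hb := bessel (fun n => aa k lam n * cexp (-(n * y)))
    ((hS y hy).1.congr fun n => (hn n).symm)
    (fun x => Ph k lam (y + 2 * Real.pi * I * x)) (by
      intro x
      unfold Ph
      refine tsum_congr fun n => ?_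
      rw [mul_assoc (aa k lam n), ← Complex.exp_add]
      congr 2
      ring) ((|C| + 1) * y ^ (-((k : ℝ) / 2))) (by
      intro x
      have hre : (y + 2 * Real.pi * I * x : ℂ).re = y := by simp
      have := hC (y + 2 * Real.pi * I * x) (by rw [hre]; exact hy)
      rw [hre] at this
      refine this.trans (mul_le_mul_of_nonneg_right ?_ (by positivity))
      linarith [le_abs_self C]) s
  simp_rw [hn] at hb
  refine hb.trans (le_of_eq ?_)
  rw [mul_pow, ← Real.rpow_natCast (y ^ _) 2, ← Real.rpow_mul hy.le]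
  congr 2
  push_cast
  ring

theorem sum_aa_small (hF : Frm k N ps lam) : ∃ C : ℝ, 0 < C ∧ ∀ y : ℝ, 0 < y →
    ∑' n : ℕ, ‖aa k lam n‖ * Real.exp (-(n * y)) ≤ C * y ^ (-(((k : ℝ) + 1) / 2)) := by
  obtain ⟨C, hC, hQ⟩ := sq_sum hF
  have hz : aa k lam 0 = 0 := by unfold aa; rw [hF.zero, zero_mul]
  refine ⟨C * 2 ^ k, by positivity, fun y hy => ?_⟩
  have hnn : ∀ n : ℕ, 0 ≤ ‖aa k lam n‖ * Real.exp (-(n * y)) := fun n => by positivity
  refine Real.tsum_le_of_sum_le hnn fun s => ?_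
  obtain ⟨hg1, hg2⟩ := exp_sum y hy
  have h1 : ∑ n ∈ s, ‖aa k lam n‖ * Real.exp (-(n * y)) =
      ∑ n ∈ s, (‖aa k lam n‖ * Real.exp (-(n * (y / 2)))) *
        (if n = 0 then 0 else Real.exp (-(y / 2)) ^ n) := by
    refine Finset.sum_congr rfl fun n _ => ?_
    rcases Nat.eq_zero_or_pos n with rfl | hn
    · simp [hz]
    · rw [if_neg hn.ne', mul_assoc]
      congr 1
      rw [← Real.exp_nat_mul, ← Real.exp_add]
      congr 1
      ring
  have h2 := Finset.sum_mul_sq_le_sq_mul_sq s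
    (fun n : ℕ => ‖aa k lam n‖ * Real.exp (-(n * (y / 2))))
    (fun n : ℕ => if n = 0 then 0 else Real.exp (-(y / 2)) ^ n)
  have h3 := hQ (y / 2) (by positivity) s
  have h4 : ∑ n ∈ s, (if n = 0 then (0 : ℝ) else Real.exp (-(y / 2)) ^ n) ^ 2 ≤ 1 / y := by
    refine le_trans ?_ hg2
    calc ∑ n ∈ s, (if n = 0 then (0 : ℝ) else Real.exp (-(y / 2)) ^ n) ^ 2 =
          ∑ n ∈ s, (if n = 0 then (0 : ℝ) else Real.exp (-y) ^ n) := by
          refine Finset.sum_congr rfl fun n _ => ?_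
          split_ifs
          · simp
          · rw [← pow_mul, mul_comm, pow_mul]
            congr 1
            rw [← Real.exp_nat_mul]
            congr 1
            push_cast
            ring
      _ ≤ _ := sum_le_hasSum _ (fun n _ => by split_ifs <;> positivity) hg1
  have hk : (1 : ℝ) ≤ k := by exact_mod_cast hF.k_pos
  have h5 : (∑ n ∈ s, ‖aa k lam n‖ * Real.exp (-(n * y))) ^ 2 ≤
      (C ^ 2 * (y / 2) ^ (-(k : ℝ))) * (1 / y) := by
    rw [h1]
    refine h2.trans (mul_le_mul h3 h4 (Finset.sum_nonneg fun n _ => by positivity) (by positivity))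
  have h6 : (C ^ 2 * (y / 2) ^ (-(k : ℝ))) * (1 / y) ≤
      (C * 2 ^ k * y ^ (-(((k : ℝ) + 1) / 2))) ^ 2 := by
    rw [mul_pow, ← Real.rpow_natCast (y ^ _) 2, ← Real.rpow_mul hy.le, Real.div_rpow hy.le (by norm_num)]
    have e1 : y ^ (-(((k : ℝ) + 1) / 2) * ((2 : ℕ) : ℝ)) = y ^ (-(k : ℝ)) * (1 / y) := by
      rw [show (-(((k : ℝ) + 1) / 2) * ((2 : ℕ) : ℝ)) = -(k : ℝ) - 1 by push_cast; ring,
        Real.rpow_sub_one hy.ne']
      ring
    have e2 : (2 : ℝ) ^ (-(k : ℝ)) = ((2 : ℝ) ^ k)⁻¹ := by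
      rw [Real.rpow_neg (by norm_num), Real.rpow_natCast]
    rw [e1, e2, div_inv_eq_mul]
    have e3 : (1 : ℝ) ≤ 2 ^ k := one_le_pow₀ (by norm_num)
    have e4 : (0 : ℝ) ≤ C ^ 2 * y ^ (-(k : ℝ)) * (1 / y) := by positivity
    calc C ^ 2 * (y ^ (-(k : ℝ)) * 2 ^ k) * (1 / y) =
          (C ^ 2 * y ^ (-(k : ℝ)) * (1 / y)) * 2 ^ k := by ring
      _ ≤ (C ^ 2 * y ^ (-(k : ℝ)) * (1 / y)) * (2 ^ k * 2 ^ k) := by
          apply mul_le_mul_of_nonneg_left _ e4
          nlinarith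
      _ = _ := by ring
  exact abs_le_of_sq_le_sq' (h5.trans h6) (by positivity) |>.2

theorem sum_aa (hF : Frm k N ps lam) : ∃ C : ℝ, 0 < C ∧ ∀ y : ℝ, 0 < y →
    Summable (fun n : ℕ => ‖aa k lam n‖ * Real.exp (-(n * y))) ∧
    ∑' n : ℕ, ‖aa k lam n‖ * Real.exp (-(n * y)) ≤ C * y ^ (-(((k : ℝ) + 1) / 2 + 1 / 8)) := by
  obtain ⟨C1, s, hC1, hs, h1⟩ := sum_aa_large hF
  obtain ⟨C2, hC2, h2⟩ := sum_aa_small hF
  refine ⟨C1 + C2, by positivity, fun y hy => ⟨(h1 y hy).1, ?_⟩⟩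
  have hp : 0 < y ^ (-(((k : ℝ) + 1) / 2 + 1 / 8)) := by positivity
  rcases le_total y 1 with hy1 | hy1
  · have h3 : y ^ (-(((k : ℝ) + 1) / 2)) ≤ y ^ (-(((k : ℝ) + 1) / 2 + 1 / 8)) :=
      Real.rpow_le_rpow_of_exponent_ge hy hy1 (by linarith)
    calc _ ≤ C2 * y ^ (-(((k : ℝ) + 1) / 2)) := h2 y hy
      _ ≤ C2 * y ^ (-(((k : ℝ) + 1) / 2 + 1 / 8)) := mul_le_mul_of_nonneg_left h3 hC2.le
      _ ≤ _ := by nlinarith
  · have h3 : y ^ (-s - 1) ≤ y ^ (-(((k : ℝ) + 1) / 2 + 1 / 8)) :=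
      Real.rpow_le_rpow_of_exponent_le hy1 (by linarith)
    calc _ ≤ C1 * y ^ (-s - 1) := (h1 y hy).2
      _ ≤ C1 * y ^ (-(((k : ℝ) + 1) / 2 + 1 / 8)) := mul_le_mul_of_nonneg_left h3 hC1.le
      _ ≤ _ := by nlinarith

/-- sums over reduced residues as sums over units -/
theorem sum_units (q : ℕ) [NeZero q] (f : ℕ → ℂ) :
    ∑ a ∈ (Finset.range q).filter (fun a => a.Coprime q), f a =
      ∑ u : (ZMod q)ˣ, f (u : ZMod q).val := by
  symm
  refine Finset.sum_bij (fun (u : (ZMod q)ˣ) _ => (u : ZMod q).val) ?_ ?_ ?_ ?_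
  · intro u _
    rw [Finset.mem_filter, Finset.mem_range]
    exact ⟨ZMod.val_lt _, ZMod.val_coe_unit_coprime u⟩
  · intro u _ w _ huw
    exact Units.ext (ZMod.val_injective q huw)
  · intro a ha
    rw [Finset.mem_filter, Finset.mem_range] at ha
    refine ⟨ZMod.unitOfCoprime a ha.2, Finset.mem_univ _, ?_⟩
    rw [ZMod.coe_unitOfCoprime, ZMod.val_natCast, Nat.mod_eq_of_lt ha.1]
  · intro u _
    rfl

theorem two_pow_card_primeFactors_le (q : ℕ) (hq : q ≠ 0) :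
    (2 : ℝ) ^ q.primeFactors.card ≤ q.divisors.card := by
  rw [Nat.card_divisors hq, ← Finset.prod_const]
  push_cast
  apply Finset.prod_le_prod
  · intro p _; norm_num
  · intro p hp
    have h1 : 1 ≤ q.factorization p :=
      (Nat.prime_of_mem_primeFactors hp).factorization_pos_of_dvd hq
        (Nat.dvd_of_mem_primeFactors hp)
    have h2 : (1 : ℝ) ≤ q.factorization p := by exact_mod_cast h1
    linarith

theorem Kl_bd : ∃ K : ℝ, 0 < K ∧ ∀ (q : ℕ) [NeZero q] (r s : ℤ), r ≠ 0 →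
    ‖Kl q (r : ZMod q) (s : ZMod q)‖ ≤ K * (q : ℝ) ^ (5 / 8 : ℝ) * ((|r| : ℤ) : ℝ) ^ (1 / 2 : ℝ) := by
  obtain ⟨K, hK1, hK⟩ := Pool.Agent.TH43.LK.Kl_gcd
  obtain ⟨C, hC, hD⟩ := Pool.Agent.H510R2.divisor_bound (1 / 8) (by norm_num)
  refine ⟨K * C, by positivity, fun q _ r s hr => ?_⟩
  have hq : q ≠ 0 := NeZero.ne q
  have hq' : (0 : ℝ) < q := by exact_mod_cast Nat.pos_of_ne_zero hq
  have h1 := hK q r s
  have h2 : (2 : ℝ) ^ q.primeFactors.card ≤ C * (q : ℝ) ^ (1 / 8 : ℝ) :=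
    (two_pow_card_primeFactors_le q hq).trans (hD q (Nat.pos_of_ne_zero hq))
  have h3 : (Pool.Agent.TH43.LK.G q r s : ℝ) ≤ ((|r| : ℤ) : ℝ) := by
    have h4 : Pool.Agent.TH43.LK.G q r s ∣ r.natAbs := by
      unfold Pool.Agent.TH43.LK.G
      exact (Nat.gcd_dvd_right _ _).trans (Int.natAbs_dvd_natAbs.2 (Int.gcd_dvd_left r s) |>.trans (dvd_refl _))
    have h5 := Nat.le_of_dvd (Int.natAbs_pos.2 hr) h4
    have h6 : ((|r| : ℤ) : ℝ) = (r.natAbs : ℝ) := by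
      rw [Int.abs_eq_natAbs]; simp
    rw [h6]
    exact_mod_cast h5
  have h7 : Real.sqrt (Pool.Agent.TH43.LK.G q r s : ℝ) ≤ ((|r| : ℤ) : ℝ) ^ (1 / 2 : ℝ) := by
    rw [Real.sqrt_eq_rpow]
    exact Real.rpow_le_rpow (by positivity) h3 (by norm_num)
  refine h1.trans ?_
  have h8 : (q : ℝ) ^ (5 / 8 : ℝ) = (q : ℝ) ^ (1 / 8 : ℝ) * Real.sqrt q := by
    rw [Real.sqrt_eq_rpow, ← Real.rpow_add hq']; norm_num
  rw [h8]
  calc K * 2 ^ q.primeFactors.card * Real.sqrt q * Real.sqrt (Pool.Agent.TH43.LK.G q r s : ℝ)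
      ≤ K * (C * (q : ℝ) ^ (1 / 8 : ℝ)) * Real.sqrt q * ((|r| : ℤ) : ℝ) ^ (1 / 2 : ℝ) := by
        gcongr
    _ = _ := by ring

/-- one factor at the cusp -/
theorem Ph_trans (ch : ℤ → ℂ)
    (hc : ∀ (q : ℕ) (a b : ℤ), 1 ≤ q → N ∣ q → (q : ℤ) ∣ a * b - 1 → (∀ z : ℂ, 0 < z.re →
      Ph k lam (z + 2 * Real.pi * I * a / q) =
        ch a * (2 * Real.pi / (I * q * z)) ^ k *
          Ph k lam (4 * Real.pi ^ 2 / (q ^ 2 * z) - 2 * Real.pi * I * b / q)))
    (q qh h : ℕ) (hq : q = h * qh) (hh : 1 ≤ h) (hqh : 1 ≤ qh) (hN : N ∣ qh)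
    (a : ℕ) (b : ℤ) (hab : (q : ℤ) ∣ a * b - 1) (v β : ℝ) (hv : 0 < v) :
    Ph k lam (h * (v + 2 * Real.pi * I * ((a / q + β : ℝ) : ℂ))) =
      ch a * (2 * Real.pi / (I * q * (v + 2 * Real.pi * I * β))) ^ k *
        Ph k lam (h * (4 * Real.pi ^ 2 / (q ^ 2 * (v + 2 * Real.pi * I * β))) -
          2 * Real.pi * I * (h * b) / q) := by
  have hh' : (h : ℂ) ≠ 0 := by exact_mod_cast (by omega : h ≠ 0)
  have hqh' : (qh : ℂ) ≠ 0 := by exact_mod_cast (by omega : qh ≠ 0)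
  have hζre : 0 < (v + 2 * Real.pi * I * β : ℂ).re := by
    simp only [add_re, ofReal_re, mul_re, ofReal_im, I_re, I_im, mul_zero, zero_mul, sub_zero,
      mul_one, sub_self, re_ofNat, im_ofNat, add_zero, mul_im]
    simpa using hv
  have hζ : (v + 2 * Real.pi * I * β : ℂ) ≠ 0 := by
    intro h0
    rw [h0] at hζre
    simp at hζre
  have hdvd : (qh : ℤ) ∣ a * b - 1 := by
    refine dvd_trans ?_ hab
    rw [hq]; push_cast
    exact dvd_mul_left _ _
  have hzre : 0 < ((h : ℂ) * (v + 2 * Real.pi * I * β)).re := by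
    rw [← Complex.ofReal_natCast, Complex.re_ofReal_mul]
    have : (0 : ℝ) < h := by exact_mod_cast hh
    positivity
  have key := hc qh a b hqh hN hdvd _ hzre
  have e1 : (h : ℂ) * (v + 2 * Real.pi * I * ((a / q + β : ℝ) : ℂ)) =
      (h : ℂ) * (v + 2 * Real.pi * I * β) + 2 * Real.pi * I * ((a : ℤ) : ℂ) / qh := by
    rw [hq]; push_cast
    field_simp
    ring
  have e2 : (2 * Real.pi / (I * q * (v + 2 * Real.pi * I * β)) : ℂ) =
      2 * Real.pi / (I * qh * (h * (v + 2 * Real.pi * I * β))) := by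
    rw [hq]; push_cast
    congr 1
    ring
  have e3 : ((h : ℂ) * (4 * Real.pi ^ 2 / (q ^ 2 * (v + 2 * Real.pi * I * β))) -
          2 * Real.pi * I * (h * b) / q) =
      4 * Real.pi ^ 2 / (qh ^ 2 * (h * (v + 2 * Real.pi * I * β))) - 2 * Real.pi * I * b / qh := by
    rw [hq]; push_cast
    field_simp
  rw [e1, e2, e3]
  exact key

/-- expansion of the transformed factor -/
theorem Ph_exp (q h : ℕ) (b : ℤ) (w : ℂ) :
    Ph k lam (h * w - 2 * Real.pi * I * (h * b) / q) =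
      ∑' n : ℕ, (aa k lam n * cexp (-(n * (h * w)))) * cexp (2 * Real.pi * I * (n * h * b) / q) := by
  unfold Ph
  refine tsum_congr fun n => ?_
  rw [mul_assoc (aa k lam n), ← Complex.exp_add]
  congr 2
  ring

theorem norm_term (n h : ℕ) (w : ℂ) :
    ‖aa k lam n * cexp (-(n * (h * w)))‖ = ‖aa k lam n‖ * Real.exp (-(n * (h * w.re))) := by
  rw [norm_mul, Complex.norm_exp]
  congr 2
  rw [neg_re, ← Complex.ofReal_natCast n, ← Complex.ofReal_natCast h, Complex.re_ofReal_mul,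
    Complex.re_ofReal_mul]

theorem norm_phase (x : ℝ) : ‖cexp (2 * Real.pi * I * x)‖ = 1 := by
  rw [show (2 * Real.pi * I * x : ℂ) = ((2 * Real.pi * x : ℝ) : ℂ) * I by push_cast; ring]
  exact Complex.norm_exp_ofReal_mul_I _

/-- the general term of the double series -/
noncomputable def EE (k : ℕ) (lam : ℕ → ℂ) (h l : ℕ) (w : ℂ) (x : ℕ × ℕ) : ℂ :=
  (aa k lam x.1 * cexp (-(x.1 * (h * w)))) * conj (aa k lam x.2 * cexp (-(x.2 * (l * w))))

theorem norm_EE (h l : ℕ) (w : ℂ) (x : ℕ × ℕ) : ‖EE k lam h l w x‖ =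
    (‖aa k lam x.1‖ * Real.exp (-(x.1 * (h * w.re)))) *
      (‖aa k lam x.2‖ * Real.exp (-(x.2 * (l * w.re)))) := by
  unfold EE
  rw [norm_mul, norm_term, RCLike.norm_conj, norm_term]

theorem prod_exp (q h l : ℕ) (b : ℤ) (w : ℂ)
    (hS1 : Summable (fun n : ℕ => ‖aa k lam n‖ * Real.exp (-(n * (h * w.re)))))
    (hS2 : Summable (fun n : ℕ => ‖aa k lam n‖ * Real.exp (-(n * (l * w.re))))) :
    Ph k lam (h * w - 2 * Real.pi * I * (h * b) / q) *
      conj (Ph k lam (l * w - 2 * Real.pi * I * (l * b) / q)) =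
    ∑' x : ℕ × ℕ, EE k lam h l w x *
      cexp (2 * Real.pi * I * (((x.1 * h - x.2 * l) * b : ℤ) : ℂ) / q) := by
  rw [Ph_exp, Ph_exp, Complex.conj_tsum]
  have hph : ∀ (n h : ℕ), ‖cexp (2 * Real.pi * I * (n * h * b) / q)‖ = 1 := by
    intro n h
    have := norm_phase ((n : ℝ) * h * b / q)
    rw [← this]
    congr 2
    push_cast
    ring
  rw [tsum_mul_tsum_of_summable_norm]
  · refine tsum_congr fun x => ?_
    unfold EE
    rw [map_mul (starRingEnd ℂ) (aa k lam x.2 * cexp (-(x.2 * (l * w)))) _]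
    have e : cexp (2 * Real.pi * I * (x.1 * h * b) / q) *
        conj (cexp (2 * Real.pi * I * (x.2 * l * b) / q)) =
        cexp (2 * Real.pi * I * (((x.1 * h - x.2 * l) * b : ℤ) : ℂ) / q) := by
      rw [← Complex.exp_conj, ← Complex.exp_add]
      congr 1
      simp only [map_mul, map_div₀, Complex.conj_ofReal, Complex.conj_I, map_natCast, map_intCast,
        map_ofNat]
      push_cast
      ring
    rw [← e]
    ring
  · refine hS1.congr fun n => ?_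
    rw [norm_mul, hph, mul_one, norm_term]
  · refine hS2.congr fun n => ?_
    rw [RCLike.norm_conj, norm_mul, hph, mul_one, norm_term]

/-- the product at one point of the circle -/
theorem gg_point (ch : ℤ → ℂ)
    (hch : ∀ a : ℤ, IsCoprime a (N : ℤ) → ‖ch a‖ = 1)
    (hc : ∀ (q : ℕ) (a b : ℤ), 1 ≤ q → N ∣ q → (q : ℤ) ∣ a * b - 1 → (∀ z : ℂ, 0 < z.re →
      Ph k lam (z + 2 * Real.pi * I * a / q) =
        ch a * (2 * Real.pi / (I * q * z)) ^ k *
          Ph k lam (4 * Real.pi ^ 2 / (q ^ 2 * z) - 2 * Real.pi * I * b / q)))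
    (hN : 1 ≤ N) (h l p : ℕ) (hh : 1 ≤ h) (hl : 1 ≤ l) (hp : 1 ≤ p) (q : ℕ) (hq : q = N * h * l * p)
    (a : ℕ) (b : ℤ) (hab : (q : ℤ) ∣ a * b - 1) (r : ℤ) (v β : ℝ) (hv : 0 < v) (w : ℂ)
    (hw : w = 4 * Real.pi ^ 2 / (q ^ 2 * (v + 2 * Real.pi * I * β)))
    (hS1 : Summable (fun n : ℕ => ‖aa k lam n‖ * Real.exp (-(n * (h * w.re)))))
    (hS2 : Summable (fun n : ℕ => ‖aa k lam n‖ * Real.exp (-(n * (l * w.re))))) :
    gg k lam h l r v (a / q + β) =
      ((‖(2 * Real.pi / (I * q * (v + 2 * Real.pi * I * β)) : ℂ)‖ ^ (2 * k) : ℝ) : ℂ) *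
        cexp (2 * Real.pi * I * r * β) *
      ∑' x : ℕ × ℕ, EE k lam h l w x *
        cexp (2 * Real.pi * I * ((r * a + (x.1 * h - x.2 * l) * b : ℤ) : ℂ) / q) := by
  have hq0 : q ≠ 0 := by rw [hq]; positivity
  have hq' : (q : ℂ) ≠ 0 := by exact_mod_cast hq0
  have h1 := Ph_trans ch hc q (N * l * p) h (by rw [hq]; ring) hh
    (Nat.one_le_iff_ne_zero.2 (by positivity)) ⟨l * p, by ring⟩ a b hab v β hv
  have h2 := Ph_trans ch hc q (N * h * p) l (by rw [hq]; ring) hl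
    (Nat.one_le_iff_ne_zero.2 (by positivity)) ⟨h * p, by ring⟩ a b hab v β hv
  have hcop : IsCoprime (a : ℤ) (N : ℤ) := by
    have hNq : (N : ℤ) ∣ a * b - 1 := by
      refine dvd_trans ?_ hab
      rw [hq]; push_cast
      exact ⟨h * l * p, by ring⟩
    obtain ⟨c, hc⟩ := hNq
    exact ⟨b, -c, by linear_combination hc⟩
  have hca := hch a hcop
  unfold gg
  rw [h1, h2, ← hw]
  have e0 : ch a * conj (ch a) = 1 := by
    rw [Complex.mul_conj', hca]; norm_num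
  set D : ℂ := 2 * Real.pi / (I * q * (v + 2 * Real.pi * I * β)) with hD
  have e1 : D ^ k * conj (D ^ k) = ((‖D‖ ^ (2 * k) : ℝ) : ℂ) := by
    rw [Complex.mul_conj', norm_pow]
    push_cast
    ring
  have e2 : cexp (2 * Real.pi * I * r * ((a / q + β : ℝ) : ℂ)) =
      cexp (2 * Real.pi * I * r * β) * cexp (2 * Real.pi * I * (r * a) / q) := by
    rw [← Complex.exp_add]
    congr 1
    push_cast
    field_simp
    ring
  have e3 := prod_exp (k := k) (lam := lam) q h l b w hS1 hS2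
  calc ch a * D ^ k * Ph k lam (h * w - 2 * Real.pi * I * (h * b) / q) *
        conj (ch a * D ^ k * Ph k lam (l * w - 2 * Real.pi * I * (l * b) / q)) *
        cexp (2 * Real.pi * I * r * ((a / q + β : ℝ) : ℂ))
      = (ch a * conj (ch a)) * (D ^ k * conj (D ^ k)) *
        (Ph k lam (h * w - 2 * Real.pi * I * (h * b) / q) *
          conj (Ph k lam (l * w - 2 * Real.pi * I * (l * b) / q))) *
        cexp (2 * Real.pi * I * r * ((a / q + β : ℝ) : ℂ)) := by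
        rw [map_mul, map_mul]; ring
    _ = ((‖D‖ ^ (2 * k) : ℝ) : ℂ) * cexp (2 * Real.pi * I * r * β) *
        ((∑' x : ℕ × ℕ, EE k lam h l w x *
          cexp (2 * Real.pi * I * (((x.1 * h - x.2 * l) * b : ℤ) : ℂ) / q)) *
          cexp (2 * Real.pi * I * (r * a) / q)) := by
        rw [e0, e1, e2, e3]; ring
    _ = _ := by
        rw [← tsum_mul_right]
        congr 1
        refine tsum_congr fun x => ?_
        rw [mul_assoc, ← Complex.exp_add]
        congr 2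
        push_cast
        ring

/-- summability of the general term -/
theorem summ_EE (h l : ℕ) (w : ℂ)
    (hS1 : Summable (fun n : ℕ => ‖aa k lam n‖ * Real.exp (-(n * (h * w.re)))))
    (hS2 : Summable (fun n : ℕ => ‖aa k lam n‖ * Real.exp (-(n * (l * w.re))))) :
    Summable (fun x : ℕ × ℕ => ‖EE k lam h l w x‖) ∧
    ∑' x : ℕ × ℕ, ‖EE k lam h l w x‖ =
      (∑' n : ℕ, ‖aa k lam n‖ * Real.exp (-(n * (h * w.re)))) *
        ∑' n : ℕ, ‖aa k lam n‖ * Real.exp (-(n * (l * w.re))) := by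
  have e : (fun x : ℕ × ℕ => ‖EE k lam h l w x‖) = fun x : ℕ × ℕ =>
      (‖aa k lam x.1‖ * Real.exp (-(x.1 * (h * w.re)))) *
      (‖aa k lam x.2‖ * Real.exp (-(x.2 * (l * w.re)))) := by
    funext x; exact norm_EE h l w x
  have hn1 : ∀ n : ℕ, 0 ≤ ‖aa k lam n‖ * Real.exp (-(n * (h * w.re))) := fun n => by positivity
  have hn2 : ∀ n : ℕ, 0 ≤ ‖aa k lam n‖ * Real.exp (-(n * (l * w.re))) := fun n => by positivity
  constructor
  · rw [e]
    exact hS1.mul_of_nonneg hS2 hn1 hn2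
  · rw [e]
    rw [tsum_mul_tsum_of_summable_norm]
    · refine hS1.congr fun n => ?_
      rw [Real.norm_of_nonneg (hn1 n)]
    · refine hS2.congr fun n => ?_
      rw [Real.norm_of_nonneg (hn2 n)]

/-- the sum over the reduced residues -/
theorem sum_gg (ch : ℤ → ℂ)
    (hch : ∀ a : ℤ, IsCoprime a (N : ℤ) → ‖ch a‖ = 1)
    (hc : ∀ (q : ℕ) (a b : ℤ), 1 ≤ q → N ∣ q → (q : ℤ) ∣ a * b - 1 → (∀ z : ℂ, 0 < z.re →
      Ph k lam (z + 2 * Real.pi * I * a / q) =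
        ch a * (2 * Real.pi / (I * q * z)) ^ k *
          Ph k lam (4 * Real.pi ^ 2 / (q ^ 2 * z) - 2 * Real.pi * I * b / q)))
    (hN : 1 ≤ N) (h l p : ℕ) (hh : 1 ≤ h) (hl : 1 ≤ l) (hp : 1 ≤ p) (q : ℕ) [NeZero q]
    (hq : q = N * h * l * p)
    (r : ℤ) (v β : ℝ) (hv : 0 < v) (w : ℂ)
    (hw : w = 4 * Real.pi ^ 2 / (q ^ 2 * (v + 2 * Real.pi * I * β)))
    (hS1 : Summable (fun n : ℕ => ‖aa k lam n‖ * Real.exp (-(n * (h * w.re)))))
    (hS2 : Summable (fun n : ℕ => ‖aa k lam n‖ * Real.exp (-(n * (l * w.re))))) :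
    ∑ a ∈ (Finset.range q).filter (fun a => a.Coprime q), gg k lam h l r v (a / q + β) =
      ((‖(2 * Real.pi / (I * q * (v + 2 * Real.pi * I * β)) : ℂ)‖ ^ (2 * k) : ℝ) : ℂ) *
        cexp (2 * Real.pi * I * r * β) *
      ∑' x : ℕ × ℕ, EE k lam h l w x *
        Kl q (r : ZMod q) (((x.1 * h - x.2 * l : ℤ)) : ZMod q) := by
  rw [sum_units q (fun a => gg k lam h l r v (a / q + β))]
  have hb : ∀ u : (ZMod q)ˣ, (q : ℤ) ∣ ((u : ZMod q).val : ℤ) *
      (((u⁻¹ : (ZMod q)ˣ) : ZMod q).val : ℤ) - 1 := by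
    intro u
    rw [← ZMod.intCast_zmod_eq_zero_iff_dvd]
    push_cast
    rw [ZMod.natCast_zmod_val, ZMod.natCast_zmod_val]
    rw [← Units.val_mul, mul_inv_cancel, Units.val_one, sub_self]
  have h1 : ∀ u : (ZMod q)ˣ, gg k lam h l r v (((u : ZMod q).val : ℝ) / q + β) =
      ((‖(2 * Real.pi / (I * q * (v + 2 * Real.pi * I * β)) : ℂ)‖ ^ (2 * k) : ℝ) : ℂ) *
        cexp (2 * Real.pi * I * r * β) *
      ∑' x : ℕ × ℕ, EE k lam h l w x *
        ZMod.stdAddChar ((r : ZMod q) * (u : ZMod q) +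
          (((x.1 * h - x.2 * l : ℤ)) : ZMod q) * ((u⁻¹ : (ZMod q)ˣ) : ZMod q)) := by
    intro u
    rw [gg_point ch hch hc hN h l p hh hl hp q hq _ _ (hb u) r v β hv w hw hS1 hS2]
    congr 1
    refine tsum_congr fun x => ?_
    congr 1
    rw [show ((r : ZMod q) * (u : ZMod q) +
          (((x.1 * h - x.2 * l : ℤ)) : ZMod q) * ((u⁻¹ : (ZMod q)ˣ) : ZMod q)) =
        ((r * ((u : ZMod q).val : ℤ) + (x.1 * h - x.2 * l) *
          (((u⁻¹ : (ZMod q)ˣ) : ZMod q).val : ℤ) : ℤ) : ZMod q) by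
      push_cast
      rw [ZMod.natCast_zmod_val, ZMod.natCast_zmod_val]]
    rw [ZMod.stdAddChar_coe]
  rw [Finset.sum_congr rfl fun u _ => h1 u, ← Finset.mul_sum]
  congr 1
  have hsum : ∀ u : (ZMod q)ˣ, Summable (fun x : ℕ × ℕ => EE k lam h l w x *
        ZMod.stdAddChar ((r : ZMod q) * (u : ZMod q) +
          (((x.1 * h - x.2 * l : ℤ)) : ZMod q) * ((u⁻¹ : (ZMod q)ˣ) : ZMod q))) := by
    intro u
    refine Summable.of_norm_bounded (summ_EE h l w hS1 hS2).1 fun x => ?_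
    rw [norm_mul, AddChar.norm_apply, mul_one]
  rw [← Summable.tsum_finsetSum (fun u _ => hsum u)]
  refine tsum_congr fun x => ?_
  rw [← Finset.mul_sum]
  rfl

theorem arc : S_ARC := by
  intro k N ps lam hF
  obtain ⟨ch, hch, hc⟩ := hF.cusp
  obtain ⟨C1, hC1, hS⟩ := sum_aa hF
  obtain ⟨K, hK, hKl⟩ := Kl_bd
  have hN : 1 ≤ N := hF.N_pos
  have hN' : (1 : ℝ) ≤ N := by exact_mod_cast hN
  refine ⟨C1 ^ 2 * K * (N : ℝ) ^ (25 / 8 : ℝ), 25 / 8, by positivity, by norm_num, ?_⟩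
  intro h l p r v β hh hl hp hr hv hv1 hβ
  set q : ℕ := N * h * l * p with hq
  have hq0 : q ≠ 0 := by rw [hq]; positivity
  have : NeZero q := ⟨hq0⟩
  have hh' : (1 : ℝ) ≤ h := by exact_mod_cast hh
  have hl' : (1 : ℝ) ≤ l := by exact_mod_cast hl
  have hp' : (1 : ℝ) ≤ p := by exact_mod_cast hp
  have hq' : (0 : ℝ) < q := by exact_mod_cast Nat.pos_of_ne_zero hq0
  have hr' : (1 : ℝ) ≤ ((|r| : ℤ) : ℝ) := by
    exact_mod_cast Int.one_le_abs hr
  set ζ : ℂ := v + 2 * Real.pi * I * β with hζ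
  have hζre : ζ.re = v := by
    rw [hζ]
    simp
  have hζ0 : ζ ≠ 0 := by
    intro h0
    rw [h0] at hζre
    simp at hζre
    linarith
  have hζn : 0 < ‖ζ‖ := norm_pos_iff.2 hζ0
  set w : ℂ := 4 * Real.pi ^ 2 / (q ^ 2 * ζ) with hw
  set U : ℝ := q * ‖ζ‖ / (2 * Real.pi) with hU
  have hπ : 0 < Real.pi := Real.pi_pos
  have hU0 : 0 < U := by positivity
  have hwre : w.re = v / U ^ 2 := by
    have e1 : w = ((4 * Real.pi ^ 2 / q ^ 2 : ℝ) : ℂ) * ζ⁻¹ := by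
      rw [hw]; push_cast
      have : (q : ℂ) ≠ 0 := by exact_mod_cast hq0
      field_simp
    rw [e1, Complex.re_ofReal_mul, Complex.inv_re, hζre, Complex.normSq_eq_norm_sq, hU]
    field_simp
    ring
  have hwre0 : 0 < w.re := by rw [hwre]; positivity
  have hS1 := hS (h * w.re) (by positivity)
  have hS2 := hS (l * w.re) (by positivity)
  rw [sum_gg ch hch hc hN h l p hh hl hp q hq r v β hv w hw hS1.1 hS2.1]
  rw [norm_mul, norm_mul, Complex.norm_real, Real.norm_of_nonneg (by positivity)]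
  have hnb : ‖cexp (2 * Real.pi * I * r * β)‖ = 1 := by
    rw [← norm_phase (r * β)]
    congr 2
    push_cast; ring
  rw [hnb, mul_one]
  -- the norm of D
  have hD : ‖(2 * Real.pi / (I * q * ζ) : ℂ)‖ = 1 / U := by
    rw [norm_div, norm_mul, norm_mul, norm_mul, Complex.norm_I, Complex.norm_natCast,
      Complex.norm_real, Real.norm_of_nonneg hπ.le, hU]
    simp
  rw [hD]
  -- the series
  obtain ⟨hE1, hE2⟩ := summ_EE (k := k) (lam := lam) h l w hS1.1 hS2.1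
  set B : ℝ := K * (q : ℝ) ^ (5 / 8 : ℝ) * ((|r| : ℤ) : ℝ) ^ (1 / 2 : ℝ) with hB
  have hB0 : 0 ≤ B := by positivity
  have hT : ‖∑' x : ℕ × ℕ, EE k lam h l w x *
        Kl q (r : ZMod q) (((x.1 * h - x.2 * l : ℤ)) : ZMod q)‖ ≤
      (∑' x : ℕ × ℕ, ‖EE k lam h l w x‖) * B := by
    have hsB : Summable (fun x : ℕ × ℕ => ‖EE k lam h l w x‖ * B) := hE1.mul_right B
    refine (tsum_of_norm_bounded hsB.hasSum fun x => ?_).trans (le_of_eq ?_)
    · rw [norm_mul]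
      exact mul_le_mul_of_nonneg_left (hKl q r _ hr) (norm_nonneg _)
    · rw [tsum_mul_right]
  set s1 : ℝ := ((k : ℝ) + 1) / 2 + 1 / 8 with hs1
  have hs1p : 0 < s1 := by rw [hs1]; positivity
  have hmono : ∀ m : ℝ, 1 ≤ m → (m * w.re) ^ (-s1) ≤ w.re ^ (-s1) := by
    intro m hm
    apply Real.rpow_le_rpow_of_nonpos hwre0 _ (by linarith)
    nlinarith
  have hEb : ∑' x : ℕ × ℕ, ‖EE k lam h l w x‖ ≤ C1 ^ 2 * (w.re ^ (-s1) * w.re ^ (-s1)) := by
    rw [hE2]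
    have a1 := hS1.2.trans (mul_le_mul_of_nonneg_left (hmono h hh') hC1.le)
    have a2 := hS2.2.trans (mul_le_mul_of_nonneg_left (hmono l hl') hC1.le)
    calc _ ≤ (C1 * w.re ^ (-s1)) * (C1 * w.re ^ (-s1)) := by
          apply mul_le_mul a1 a2 _ (by positivity)
          exact tsum_nonneg fun n => by positivity
      _ = _ := by ring
  have hw2 : w.re ^ (-s1) * w.re ^ (-s1) = v ^ (-((k : ℝ) + 5 / 4)) * U ^ (2 * (k : ℝ) + 5 / 2) := by
    rw [← Real.rpow_add hwre0, hwre, Real.div_rpow hv.le (by positivity),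
      ← Real.rpow_natCast U 2, ← Real.rpow_mul hU0.le]
    rw [div_eq_mul_inv, ← Real.rpow_neg hU0.le]
    congr 2
    · rw [hs1]; ring
    · rw [hs1]; push_cast; ring
  have hUk : (1 / U) ^ (2 * k) * U ^ (2 * (k : ℝ) + 5 / 2) = U ^ (5 / 2 : ℝ) := by
    rw [Real.rpow_add hU0, one_div, inv_pow]
    have : U ^ (2 * (k : ℝ)) = U ^ (2 * k) := by
      rw [← Real.rpow_natCast]; push_cast; rfl
    rw [this]
    field_simp
  have hζle : ‖ζ‖ ≤ 2 * Real.pi * (v + |β|) := by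
    have e1 : ‖ζ‖ ≤ ‖(v : ℂ)‖ + ‖(2 * Real.pi * I * β : ℂ)‖ := norm_add_le _ _
    have e2 : ‖(v : ℂ)‖ = v := by rw [Complex.norm_real, Real.norm_of_nonneg hv.le]
    have e3 : ‖(2 * Real.pi * I * β : ℂ)‖ = 2 * Real.pi * |β| := by
      rw [norm_mul, norm_mul, norm_mul, Complex.norm_I, Complex.norm_real, Complex.norm_real,
        Real.norm_of_nonneg hπ.le, Real.norm_eq_abs]
      simp
    rw [e2, e3] at e1
    have : (3 : ℝ) < Real.pi := Real.pi_gt_three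
    nlinarith
  have hUle : U ≤ (N * h * l) * (p * (v + |β|)) := by
    rw [hU, div_le_iff₀ (by positivity)]
    have : (q : ℝ) = N * h * l * p := by rw [hq]; push_cast; ring
    calc (q : ℝ) * ‖ζ‖ ≤ q * (2 * Real.pi * (v + |β|)) := mul_le_mul_of_nonneg_left hζle hq'.le
      _ = _ := by rw [this]; ring
  have hvβ : 0 < v + |β| := by positivity
  have hU52 : U ^ (5 / 2 : ℝ) ≤ (N * h * l : ℝ) ^ (5 / 2 : ℝ) * (p * (v + |β|)) ^ (5 / 2 : ℝ) := by
    rw [← Real.mul_rpow (by positivity) (by positivity)]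
    exact Real.rpow_le_rpow hU0.le hUle (by norm_num)
  have hq58 : (q : ℝ) ^ (5 / 8 : ℝ) = (N * h * l : ℝ) ^ (5 / 8 : ℝ) * (p : ℝ) ^ (5 / 8 : ℝ) := by
    rw [← Real.mul_rpow (by positivity) (by positivity)]
    congr 1
    rw [hq]; push_cast; ring
  have hNhl : (N * h * l : ℝ) ^ (5 / 2 : ℝ) * (N * h * l : ℝ) ^ (5 / 8 : ℝ) =
      (N : ℝ) ^ (25 / 8 : ℝ) * (h * l : ℝ) ^ (25 / 8 : ℝ) := by
    rw [← Real.rpow_add (by positivity), ← Real.mul_rpow (by positivity) (by positivity)]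
    norm_num
    ring_nf
  have hr12 : (h * l : ℝ) ^ (25 / 8 : ℝ) * ((|r| : ℤ) : ℝ) ^ (1 / 2 : ℝ) ≤
      (h * l * ((|r| : ℤ) : ℝ)) ^ (25 / 8 : ℝ) := by
    rw [Real.mul_rpow (x := (h * l : ℝ)) (by positivity) (by positivity)]
    exact mul_le_mul_of_nonneg_left (Real.rpow_le_rpow_of_exponent_le hr' (by norm_num))
      (by positivity)
  have hstep : (1 / U) ^ (2 * k) * ‖∑' x : ℕ × ℕ, EE k lam h l w x *
        Kl q (r : ZMod q) (((x.1 * h - x.2 * l : ℤ)) : ZMod q)‖ ≤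
      C1 ^ 2 * v ^ (-((k : ℝ) + 5 / 4)) * U ^ (5 / 2 : ℝ) * B := by
    calc _ ≤ (1 / U) ^ (2 * k) * ((C1 ^ 2 * (w.re ^ (-s1) * w.re ^ (-s1))) * B) := by
          apply mul_le_mul_of_nonneg_left _ (by positivity)
          exact hT.trans (mul_le_mul_of_nonneg_right hEb hB0)
      _ = C1 ^ 2 * v ^ (-((k : ℝ) + 5 / 4)) *
          ((1 / U) ^ (2 * k) * U ^ (2 * (k : ℝ) + 5 / 2)) * B := by
          rw [hw2]; ring
      _ = _ := by rw [hUk]
  refine hstep.trans ?_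
  calc C1 ^ 2 * v ^ (-((k : ℝ) + 5 / 4)) * U ^ (5 / 2 : ℝ) * B
      ≤ C1 ^ 2 * v ^ (-((k : ℝ) + 5 / 4)) *
        ((N * h * l : ℝ) ^ (5 / 2 : ℝ) * (p * (v + |β|)) ^ (5 / 2 : ℝ)) * B := by
        apply mul_le_mul_of_nonneg_right _ hB0
        exact mul_le_mul_of_nonneg_left hU52 (by positivity)
    _ = C1 ^ 2 * K * v ^ (-((k : ℝ) + 5 / 4)) * (p * (v + |β|)) ^ (5 / 2 : ℝ) *
        (p : ℝ) ^ (5 / 8 : ℝ) * ((N * h * l : ℝ) ^ (5 / 2 : ℝ) * (N * h * l : ℝ) ^ (5 / 8 : ℝ)) *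
        ((|r| : ℤ) : ℝ) ^ (1 / 2 : ℝ) := by
        rw [hB, hq58]; ring
    _ = C1 ^ 2 * K * v ^ (-((k : ℝ) + 5 / 4)) * (p * (v + |β|)) ^ (5 / 2 : ℝ) *
        (p : ℝ) ^ (5 / 8 : ℝ) * (N : ℝ) ^ (25 / 8 : ℝ) * ((h * l : ℝ) ^ (25 / 8 : ℝ) *
        ((|r| : ℤ) : ℝ) ^ (1 / 2 : ℝ)) := by
        rw [hNhl]; ring
    _ ≤ C1 ^ 2 * K * v ^ (-((k : ℝ) + 5 / 4)) * (p * (v + |β|)) ^ (5 / 2 : ℝ) *
        (p : ℝ) ^ (5 / 8 : ℝ) * (N : ℝ) ^ (25 / 8 : ℝ) *
        (h * l * ((|r| : ℤ) : ℝ)) ^ (25 / 8 : ℝ) :=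
        mul_le_mul_of_nonneg_left hr12 (by positivity)
    _ = _ := by ring

end Pool.Agent.Y412.GL
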