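import Pool.Agent.Y671.GL.Spec

set_option autoImplicit false

/-!
# Project GD2 (owner helper671): general facts on the series `Ph`
-/

namespace Pool.Agent.Y412.GLB

open Complex Finset MeasureTheory
open scoped ComplexConjugate
open Pool.Agent.Y671.GL

variable {k N : ℕ} {ps lam : ℕ → ℂ}

theorem int_exp (m : ℤ) : ∫ x in (0 : ℝ)..1, cexp (2 * Real.pi * I * m * x) = if m = 0 then 1 else 0 := by
  split_ifs with h
  · subst h; simp
  · have hc : (2 * Real.pi * I * m : ℂ) ≠ 0 := by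
      have : (m : ℂ) ≠ 0 := by exact_mod_cast h
      have hpi : (Real.pi : ℂ) ≠ 0 := by exact_mod_cast Real.pi_ne_zero
      simp [this, hpi]
    rw [integral_exp_mul_complex hc]
    have h1 : cexp (2 * Real.pi * I * m * (1 : ℝ)) = 1 := by
      rw [Complex.ofReal_one, mul_one]
      rw [show (2 * Real.pi * I * m : ℂ) = m * (2 * Real.pi * I) by ring]
      exact Complex.exp_int_mul_two_pi_mul_I m
    rw [h1]
    simp

/-- Parseval's identity for an absolutely convergent trigonometric series -/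
theorem parseval (c : ℕ → ℂ) (hc : Summable (fun n => ‖c n‖)) (f : ℝ → ℂ)
    (hf : ∀ x, f x = ∑' n : ℕ, c n * cexp (-(2 * Real.pi * I * n * x))) :
    Continuous f ∧ HasSum (fun n => ‖c n‖ ^ 2) (∫ x in (0 : ℝ)..1, ‖f x‖ ^ 2) := by
  have hterm : ∀ (n : ℕ) (x : ℝ), ‖cexp (-(2 * Real.pi * I * n * x))‖ = 1 := by
    intro n x
    rw [show (-(2 * Real.pi * I * n * x) : ℂ) = ((-(2 * Real.pi * n * x) : ℝ) : ℂ) * I by
      push_cast; ring]
    exact Complex.norm_exp_ofReal_mul_I _
  have hcont : Continuous f := by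
    have : f = fun x : ℝ => ∑' n : ℕ, c n * cexp (-(2 * Real.pi * I * n * x)) := funext hf
    rw [this]
    refine continuous_tsum (fun n => by fun_prop) hc fun n x => ?_
    rw [norm_mul, hterm, mul_one]
  refine ⟨hcont, ?_⟩
  have hB : ∀ x, ‖f x‖ ≤ ∑' n, ‖c n‖ := by
    intro x
    rw [hf x]
    refine tsum_of_norm_bounded hc.hasSum fun n => ?_
    rw [norm_mul, hterm, mul_one]
  -- the coefficients
  have hcoef : ∀ i : ℤ, fourierCoeffOn (zero_lt_one' ℝ) f i =
      ∑' m : ℕ, c m * (if -i - m = 0 then 1 else 0) := by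
    intro i
    rw [fourierCoeffOn_eq_integral]
    have e1 : ∀ x : ℝ, (fourier (-i) (x : AddCircle ((1 : ℝ) - 0)) : ℂ) • f x =
        ∑' m : ℕ, c m * cexp (2 * Real.pi * I * ((-i - m : ℤ) : ℂ) * x) := by
      intro x
      rw [fourier_coe_apply, hf x, smul_eq_mul, ← tsum_mul_left]
      refine tsum_congr fun m => ?_
      rw [mul_left_comm, ← Complex.exp_add]
      congr 2
      push_cast
      ring
    simp_rw [e1]
    have hnorm : ∀ (m : ℕ) (x : ℝ), ‖c m * cexp (2 * Real.pi * I * ((-i - m : ℤ) : ℂ) * x)‖ = ‖c m‖ := by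
      intro m x
      rw [norm_mul]
      rw [show (2 * Real.pi * I * ((-i - m : ℤ) : ℂ) * x : ℂ) =
        ((2 * Real.pi * ((-i - m : ℤ) : ℝ) * x : ℝ) : ℂ) * I by push_cast; ring,
        Complex.norm_exp_ofReal_mul_I, mul_one]
    have hS := hasSum_integral_of_summable_integral_norm (μ := volume.restrict (Set.Ioc (0 : ℝ) 1))
      (F := fun (m : ℕ) (x : ℝ) => c m * cexp (2 * Real.pi * I * ((-i - m : ℤ) : ℂ) * x))
      (fun m => by
        apply Continuous.integrableOn_Ioc
        fun_prop)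
      (by
        simp_rw [hnorm]
        simpa using hc)
    rw [intervalIntegral.integral_of_le zero_le_one, ← hS.tsum_eq, sub_zero, div_one, one_smul]
    refine tsum_congr fun m => ?_
    rw [← intervalIntegral.integral_of_le zero_le_one, intervalIntegral.integral_const_mul, int_exp]
  have hL2 : MemLp f 2 (volume.restrict (Set.Ioc (0 : ℝ) 1)) :=
    MemLp.of_bound hcont.aestronglyMeasurable _ (Filter.Eventually.of_forall hB)
  have hP := hasSum_sq_fourierCoeffOn (zero_lt_one' ℝ) hL2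
  rw [sub_zero, inv_one, one_smul] at hP
  have hinj : Function.Injective (fun n : ℕ => -(n : ℤ)) := by
    intro a b hab
    simpa using hab
  rw [← hinj.hasSum_iff] at hP
  · convert hP using 2 with n
    simp only [Function.comp_apply]
    rw [hcoef]
    have : ∀ m : ℕ, c m * (if -(-(n : ℤ)) - m = 0 then 1 else 0) = if m = n then c n else 0 := by
      intro m
      by_cases hmn : m = n
      · subst hmn; simp
      · have : -(-(n : ℤ)) - m ≠ 0 := by omega
        rw [if_neg this, if_neg hmn, mul_zero]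
    simp_rw [this]
    rw [tsum_ite_eq]
  · intro i hi
    have hi0 : 0 < i := by
      by_contra h
      exact hi ⟨(-i).toNat, by simp; omega⟩
    rw [hcoef]
    have : ∀ m : ℕ, c m * (if -i - m = 0 then 1 else 0) = 0 := by
      intro m
      have : -i - (m : ℤ) ≠ 0 := by omega
      rw [if_neg this, mul_zero]
    simp_rw [this]
    simp

/-- scaling to the period `2π` -/
theorem int_two_pi {E : Type*} [NormedAddCommGroup E] [NormedSpace ℝ E] (F : ℝ → E) :
    ∫ u in (0 : ℝ)..(2 * Real.pi), F u = (2 * Real.pi) • ∫ x in (0 : ℝ)..1, F (2 * Real.pi * x) := by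
  have h := intervalIntegral.smul_integral_comp_mul_left (a := 0) (b := 1) F (2 * Real.pi)
  rw [h]
  simp

/-- coefficients of polynomial growth: the series over `Re z > 0` -/
structure PG (a : ℕ → ℂ) : Prop where
  ex : ∃ C s : ℝ, 0 ≤ C ∧ 0 ≤ s ∧ ∀ n : ℕ, 1 ≤ n → ‖a n‖ ≤ C * (n : ℝ) ^ s

theorem PG.summable {a : ℕ → ℂ} (h : PG a) {v : ℝ} (hv : 0 < v) :
    Summable (fun n : ℕ => ‖a n‖ * Real.exp (-(n * v))) := by
  obtain ⟨C, s, hC, hs, hb⟩ := h.ex
  obtain ⟨m, hm⟩ := exists_nat_ge s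
  have h1 : Summable (fun n : ℕ => ((n : ℝ) ^ m * Real.exp (-(v * n)) : ℝ)) := by
    simpa using Real.summable_pow_mul_exp_neg_nat_mul m hv
  have h2 : Summable (fun n : ℕ => C * ((n : ℝ) ^ m * Real.exp (-(v * n)))) := h1.mul_left C
  have h3 : Summable (fun n : ℕ => if n = 0 then ‖a 0‖ else (0 : ℝ)) :=
    summable_of_ne_finset_zero (s := {0}) (fun n hn => by
      rw [Finset.mem_singleton] at hn
      rw [if_neg hn])
  refine Summable.of_nonneg_of_le (fun n => by positivity) (fun n => ?_) (h3.add h2)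
  rcases Nat.eq_zero_or_pos n with rfl | hn
  · simp
    positivity
  · rw [if_neg hn.ne', zero_add]
    have hn' : (1 : ℝ) ≤ (n : ℝ) := by exact_mod_cast hn
    have h2 := hb n hn
    have h3 : (n : ℝ) ^ s ≤ (n : ℝ) ^ m := by
      rw [← Real.rpow_natCast]
      exact Real.rpow_le_rpow_of_exponent_le hn' hm
    calc ‖a n‖ * Real.exp (-((n : ℝ) * v))
        ≤ (C * (n : ℝ) ^ m) * Real.exp (-((n : ℝ) * v)) :=
          mul_le_mul_of_nonneg_right (h2.trans (mul_le_mul_of_nonneg_left h3 hC)) (Real.exp_pos _).le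
      _ = _ := by rw [mul_comm v]; ring

theorem norm_cexp_nat (n : ℕ) (z : ℂ) : ‖cexp (-(n * z))‖ = Real.exp (-(n * z.re)) := by
  rw [Complex.norm_exp, neg_re, ← Complex.ofReal_natCast n, Complex.re_ofReal_mul]

theorem PG.summable_c {a : ℕ → ℂ} (h : PG a) {z : ℂ} (hz : 0 < z.re) :
    Summable (fun n : ℕ => a n * cexp (-(n * z))) := by
  refine Summable.of_norm ?_
  refine (h.summable hz).congr fun n => ?_
  rw [norm_mul, norm_cexp_nat]

theorem PG.diff {a : ℕ → ℂ} (h : PG a) {z : ℂ} (hz : 0 < z.re) :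
    DifferentiableAt ℂ (fun z => ∑' n : ℕ, a n * cexp (-(n * z))) z := by
  have hU : IsOpen {w : ℂ | z.re / 2 < w.re} := isOpen_lt continuous_const Complex.continuous_re
  have hz' : z ∈ {w : ℂ | z.re / 2 < w.re} := by
    show z.re / 2 < z.re; linarith
  have := differentiableOn_tsum_of_summable_norm (F := fun (n : ℕ) (z : ℂ) => a n * cexp (-(n * z)))
    (h.summable (half_pos hz)) (fun n => by
      apply Differentiable.differentiableOn
      fun_prop) hU (fun n w hw => by
      rw [norm_mul, norm_cexp_nat]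
      have hw' : z.re / 2 < w.re := hw
      apply mul_le_mul_of_nonneg_left _ (norm_nonneg _)
      apply Real.exp_le_exp.2
      have : (0 : ℝ) ≤ n := Nat.cast_nonneg n
      nlinarith)
  exact this.differentiableAt (hU.mem_nhds hz')

theorem PG.add {a b : ℕ → ℂ} (ha : PG a) (hb : PG b) : PG (fun n => a n + b n) := by
  obtain ⟨C, s, hC, hs, h1⟩ := ha.ex
  obtain ⟨C', s', hC', hs', h2⟩ := hb.ex
  refine ⟨C + C', max s s', by positivity, le_max_of_le_left hs, fun n hn => ?_⟩
  have hn' : (1 : ℝ) ≤ n := by exact_mod_cast hn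
  have e1 : (n : ℝ) ^ s ≤ (n : ℝ) ^ (max s s') :=
    Real.rpow_le_rpow_of_exponent_le hn' (le_max_left _ _)
  have e2 : (n : ℝ) ^ s' ≤ (n : ℝ) ^ (max s s') :=
    Real.rpow_le_rpow_of_exponent_le hn' (le_max_right _ _)
  calc ‖a n + b n‖ ≤ ‖a n‖ + ‖b n‖ := norm_add_le _ _
    _ ≤ C * (n : ℝ) ^ s + C' * (n : ℝ) ^ s' := add_le_add (h1 n hn) (h2 n hn)
    _ ≤ C * (n : ℝ) ^ (max s s') + C' * (n : ℝ) ^ (max s s') :=
        add_le_add (mul_le_mul_of_nonneg_left e1 hC) (mul_le_mul_of_nonneg_left e2 hC')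
    _ = _ := by ring

theorem PG.zero : PG (fun _ => 0) := ⟨0, 0, le_refl _, le_refl _, fun n _ => by simp⟩

theorem PG.sum {ι : Type*} (s : Finset ι) (a : ι → ℕ → ℂ) (h : ∀ i ∈ s, PG (a i)) :
    PG (fun n => ∑ i ∈ s, a i n) := by
  classical
  induction s using Finset.induction_on with
  | empty => simpa using PG.zero
  | insert i s hi ih =>
    simp_rw [Finset.sum_insert hi]
    exact (h i (Finset.mem_insert_self _ _)).add
      (ih fun j hj => h j (Finset.mem_insert_of_mem hj))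

theorem PG.mono {a b : ℕ → ℂ} (ha : PG a) (h : ∀ n, 1 ≤ n → ‖b n‖ ≤ ‖a n‖) : PG b := by
  obtain ⟨C, s, hC, hs, h1⟩ := ha.ex
  exact ⟨C, s, hC, hs, fun n hn => (h n hn).trans (h1 n hn)⟩

theorem PG.smul {a : ℕ → ℂ} (ha : PG a) (c : ℂ) : PG (fun n => c * a n) := by
  obtain ⟨C, s, hC, hs, h1⟩ := ha.ex
  refine ⟨‖c‖ * C, s, by positivity, hs, fun n hn => ?_⟩
  rw [norm_mul, mul_assoc]
  exact mul_le_mul_of_nonneg_left (h1 n hn) (norm_nonneg _)

/-- dilated coefficients -/
noncomputable def dil (r : ℕ) (a : ℕ → ℂ) (n : ℕ) : ℂ := if r ∣ n then a (n / r) else 0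

theorem PG.dil {a : ℕ → ℂ} (ha : PG a) (r : ℕ) (hr : 1 ≤ r) : PG (dil r a) := by
  obtain ⟨C, s, hC, hs, h1⟩ := ha.ex
  refine ⟨C, s, hC, hs, fun n hn => ?_⟩
  unfold GLB.dil
  split_ifs with h
  · obtain ⟨m, rfl⟩ := h
    rw [Nat.mul_div_cancel_left _ (by omega)]
    have hm : 1 ≤ m := by
      rcases Nat.eq_zero_or_pos m with rfl | h
      · simp at hn
      · exact h
    refine (h1 m hm).trans (mul_le_mul_of_nonneg_left ?_ hC)
    apply Real.rpow_le_rpow (by positivity) _ hs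
    have : m ≤ r * m := Nat.le_mul_of_pos_left m (by omega)
    exact_mod_cast this
  · simp; positivity

theorem tsum_dil {a : ℕ → ℂ} (r : ℕ) (hr : 1 ≤ r) (z : ℂ) :
    ∑' m : ℕ, a m * cexp (-(m * (r * z))) = ∑' n : ℕ, dil r a n * cexp (-(n * z)) := by
  have hinj : Function.Injective (fun m : ℕ => r * m) := fun a b h => by
    exact Nat.eq_of_mul_eq_mul_left (by omega) h
  rw [← hinj.tsum_eq (f := fun n : ℕ => dil r a n * cexp (-(n * z)))]
  · refine tsum_congr fun m => ?_
    unfold dil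
    rw [if_pos (dvd_mul_right r m), Nat.mul_div_cancel_left _ (by omega)]
    congr 2
    push_cast
    ring
  · intro n hn
    rw [Function.mem_support] at hn
    by_contra h
    apply hn
    unfold dil
    rw [if_neg, zero_mul]
    rintro ⟨m, rfl⟩
    exact h ⟨m, rfl⟩

theorem pg_aa (hF : Frm k N ps lam) : PG (aa k lam) := by
  obtain ⟨th, C, h0, _, hC⟩ := hF.ram
  have hk : (1 : ℝ) ≤ k := by exact_mod_cast hF.k_pos
  refine ⟨|C|, ((k : ℝ) - 1) / 2 + th, abs_nonneg _, by linarith, fun n hn => ?_⟩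
  have hn' : (0 : ℝ) < n := by exact_mod_cast hn
  unfold aa
  rw [norm_mul, Complex.norm_real, Real.norm_of_nonneg (by positivity), Real.rpow_add hn']
  have h1 : ‖lam n‖ ≤ |C| * (n : ℝ) ^ th :=
    (hC n hn).trans (mul_le_mul_of_nonneg_right (le_abs_self C) (by positivity))
  have h2 : (0 : ℝ) ≤ (n : ℝ) ^ (((k : ℝ) - 1) / 2) := by positivity
  nlinarith [mul_le_mul_of_nonneg_right h1 h2]

theorem diff_Ph (hF : Frm k N ps lam) {z : ℂ} (hz : 0 < z.re) :
    DifferentiableAt ℂ (Ph k lam) z := (pg_aa hF).diff hz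

end Pool.Agent.Y412.GLB
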