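import Pool.Agent.Y671.GL.SpecR
import Pool.Agent.Y412.GL.Base

set_option autoImplicit false

/-!
# Task RYP of project GD2 (owner helper671): the ray integral, primal range
-/

namespace Pool.Agent.Y412.GLP

open Complex Finset MeasureTheory
open scoped ComplexConjugate
open Pool.Agent.Y671.GL Pool.Agent.Y412.GLB
open Pool.Agent.H24R2.DZ (ray)

variable {k N : ℕ} {ps lam : ℕ → ℂ}

/-- the coefficients of `GF` -/
noncomputable def pc (k : ℕ) (lam b : ℕ → ℂ) (n : ℕ) : ℂ :=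
  if n ≤ 1 then 0 else (((n : ℝ) ^ (((k : ℝ) - 1) / 2) : ℝ) : ℂ) * cn lam b n

/-- the part of `GF` without the correction -/
noncomputable def PP (k y : ℕ) (lam b : ℕ → ℂ) (z : ℂ) : ℂ :=
  ∑ h ∈ Finset.Icc 1 y, b h * (((h : ℝ) ^ (((k : ℝ) - 1) / 2) : ℝ) : ℂ) * Ph k lam (h * z)

/-- its coefficients -/
noncomputable def sc (k y : ℕ) (lam b : ℕ → ℂ) (n : ℕ) : ℂ :=
  ∑ h ∈ Finset.Icc 1 y, (b h * (((h : ℝ) ^ (((k : ℝ) - 1) / 2) : ℝ) : ℂ)) * dil h (aa k lam) n

theorem pg_sc (hF : Frm k N ps lam) (y : ℕ) (b : ℕ → ℂ) : PG (sc k y lam b) := by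
  unfold sc
  refine PG.sum _ (fun h n => (b h * (((h : ℝ) ^ (((k : ℝ) - 1) / 2) : ℝ) : ℂ)) * dil h (aa k lam) n)
    fun h hh => ?_
  rw [Finset.mem_Icc] at hh
  exact ((pg_aa hF).dil h hh.1).smul _

theorem sc_zero (hF : Frm k N ps lam) (y : ℕ) (b : ℕ → ℂ) : sc k y lam b 0 = 0 := by
  unfold sc
  refine Finset.sum_eq_zero fun h _ => ?_
  unfold dil aa
  simp [hF.zero]

theorem sc_eq (y : ℕ) (b : ℕ → ℂ) (hb : ∀ h, y < h → b h = 0) (n : ℕ) (hn : 1 ≤ n) :
    sc k y lam b n = (((n : ℝ) ^ (((k : ℝ) - 1) / 2) : ℝ) : ℂ) * cn lam b n := by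
  unfold sc cn
  have h1 : ∑ h ∈ n.divisors, b h * lam (n / h) =
      ∑ h ∈ Finset.Icc 1 y, if h ∣ n then b h * lam (n / h) else 0 := by
    rw [← Finset.sum_filter]
    have hsub : (Finset.Icc 1 y).filter (fun h => h ∣ n) ⊆ n.divisors := by
      intro h hh
      rw [Finset.mem_filter] at hh
      exact Nat.mem_divisors.2 ⟨hh.2, by omega⟩
    refine (Finset.sum_subset hsub fun h hh hh' => ?_).symm
    rw [Nat.mem_divisors] at hh
    have : y < h := by
      by_contra hc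
      apply hh'
      rw [Finset.mem_filter, Finset.mem_Icc]
      exact ⟨⟨Nat.pos_of_dvd_of_pos hh.1 (by omega), by omega⟩, hh.1⟩
    rw [hb h this, zero_mul]
  rw [h1, Finset.mul_sum]
  refine Finset.sum_congr rfl fun h hh => ?_
  rw [Finset.mem_Icc] at hh
  unfold dil
  split_ifs with hd
  · obtain ⟨m, rfl⟩ := hd
    rw [Nat.mul_div_cancel_left _ (by omega)]
    unfold aa
    have e1 : (((h * m : ℕ) : ℝ) ^ (((k : ℝ) - 1) / 2)) =
        (h : ℝ) ^ (((k : ℝ) - 1) / 2) * (m : ℝ) ^ (((k : ℝ) - 1) / 2) := by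
      rw [← Real.mul_rpow (by positivity) (by positivity)]
      push_cast
      rfl
    rw [e1]
    push_cast
    ring
  · ring

theorem PP_series (hF : Frm k N ps lam) (y : ℕ) (b : ℕ → ℂ) {z : ℂ} (hz : 0 < z.re) :
    PP k y lam b z = ∑' n : ℕ, sc k y lam b n * cexp (-(n * z)) := by
  unfold PP sc
  have h1 : ∀ n : ℕ, (∑ h ∈ Finset.Icc 1 y, (b h * (((h : ℝ) ^ (((k : ℝ) - 1) / 2) : ℝ) : ℂ)) *
      dil h (aa k lam) n) * cexp (-(n * z)) = ∑ h ∈ Finset.Icc 1 y,
      (b h * (((h : ℝ) ^ (((k : ℝ) - 1) / 2) : ℝ) : ℂ)) *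
      (dil h (aa k lam) n * cexp (-(n * z))) := by
    intro n
    rw [Finset.sum_mul]
    refine Finset.sum_congr rfl fun h _ => ?_
    ring
  simp_rw [h1]
  rw [Summable.tsum_finsetSum]
  · refine Finset.sum_congr rfl fun h hh => ?_
    rw [Finset.mem_Icc] at hh
    rw [tsum_mul_left, ← tsum_dil h hh.1]
    rfl
  · intro h hh
    rw [Finset.mem_Icc] at hh
    exact (((pg_aa hF).dil h hh.1).summable_c hz).mul_left _

theorem pg_pc (hF : Frm k N ps lam) (y : ℕ) (b : ℕ → ℂ) (hb : ∀ h, y < h → b h = 0) :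
    PG (pc k lam b) := by
  refine (pg_sc (b := b) hF y).mono fun n hn => ?_
  rw [sc_eq y b hb n hn]
  unfold pc
  split_ifs
  · rw [norm_zero]; positivity
  · exact le_refl _

theorem GF_series (hF : Frm k N ps lam) (y : ℕ) (b : ℕ → ℂ) (hb : ∀ h, y < h → b h = 0)
    {z : ℂ} (hz : 0 < z.re) :
    GF k y lam b z = ∑' n : ℕ, pc k lam b n * cexp (-(n * z)) := by
  have e : GF k y lam b z = PP k y lam b z - b 1 * cexp (-z) := rfl
  rw [e, PP_series hF y b hz]
  have h1 : b 1 * cexp (-z) = ∑' n : ℕ, (if n = 1 then b 1 * cexp (-z) else 0) := by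
    rw [tsum_ite_eq]
  rw [h1, ← Summable.tsum_sub ((pg_sc hF y b).summable_c hz)
    (summable_of_ne_finset_zero (s := {1}) (fun n hn => by
      rw [Finset.mem_singleton] at hn
      rw [if_neg hn]))]
  refine tsum_congr fun n => ?_
  unfold pc
  rcases Nat.lt_trichotomy n 1 with hn | hn | hn
  · have : n = 0 := by omega
    subst this
    rw [sc_zero hF]
    simp
  · subst hn
    rw [sc_eq y b hb 1 (le_refl _)]
    simp [cn, hF.one]
  · rw [sc_eq y b hb n (by omega), if_neg (by omega), if_neg (by omega), sub_zero]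

theorem GF_diff (hF : Frm k N ps lam) (y : ℕ) (b : ℕ → ℂ) {z : ℂ} (hz : 0 < z.re) :
    DifferentiableAt ℂ (GF k y lam b) z := by
  unfold GF
  apply DifferentiableAt.sub
  · refine DifferentiableAt.fun_sum fun h hh => ?_
    apply DifferentiableAt.const_mul
    rw [Finset.mem_Icc] at hh
    have h1 : 0 < ((h : ℂ) * z).re := by
      rw [← Complex.ofReal_natCast, Complex.re_ofReal_mul]
      have : (0 : ℝ) < h := by exact_mod_cast hh.1
      positivity
    exact (diff_Ph hF h1).comp z (by fun_prop)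
  · fun_prop

/-- the mean square on a horizontal line -/
theorem GF_parseval (hF : Frm k N ps lam) (y : ℕ) (b : ℕ → ℂ) (hb : ∀ h, y < h → b h = 0)
    {v : ℝ} (hv : 0 < v) :
    Summable (fun n : ℕ => ‖pc k lam b n‖ ^ 2 * Real.exp (-(2 * n * v))) ∧
    ∫ u in (0 : ℝ)..(2 * Real.pi), ‖GF k y lam b (v + u * I)‖ ^ 2 =
      2 * Real.pi * ∑' n : ℕ, ‖pc k lam b n‖ ^ 2 * Real.exp (-(2 * n * v)) := by
  have hpg := pg_pc hF y b hb
  have hn : ∀ n : ℕ, ‖pc k lam b n * cexp (-(n * v))‖ = ‖pc k lam b n‖ * Real.exp (-(n * v)) := by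
    intro n
    rw [norm_mul, norm_cexp_nat, Complex.ofReal_re]
  have hP := (parseval (fun n => pc k lam b n * cexp (-(n * v)))
    ((hpg.summable hv).congr fun n => (hn n).symm)
    (fun x => GF k y lam b (v + 2 * Real.pi * I * x)) (by
      intro x
      have hre : (v + 2 * Real.pi * I * x : ℂ).re = v := by simp
      rw [GF_series hF y b hb (by rw [hre]; exact hv)]
      refine tsum_congr fun n => ?_
      rw [mul_assoc (pc k lam b n), ← Complex.exp_add]
      congr 2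
      ring)).2
  have e : ∀ n : ℕ, ‖pc k lam b n * cexp (-(n * v))‖ ^ 2 =
      ‖pc k lam b n‖ ^ 2 * Real.exp (-(2 * n * v)) := by
    intro n
    rw [hn, mul_pow, ← Real.exp_nat_mul]
    congr 2
    push_cast
    ring
  simp_rw [e] at hP
  refine ⟨hP.summable, ?_⟩
  rw [int_two_pi, smul_eq_mul, hP.tsum_eq]
  congr 1
  refine intervalIntegral.integral_congr fun x _ => ?_
  show ‖GF k y lam b (v + ((2 * Real.pi * x : ℝ) : ℂ) * I)‖ ^ 2 =
    ‖GF k y lam b (v + 2 * Real.pi * I * x)‖ ^ 2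
  congr 3
  push_cast
  ring

theorem cont_Ph (hF : Frm k N ps lam) (h : ℕ) (hh : 1 ≤ h) {v : ℝ} (hv : 0 < v) :
    Continuous (fun u : ℝ => Ph k lam (h * (v + u * I))) := by
  rw [continuous_iff_continuousAt]
  intro u
  have h1 : 0 < ((h : ℂ) * (v + u * I)).re := by
    rw [← Complex.ofReal_natCast, Complex.re_ofReal_mul]
    have : (0 : ℝ) < h := by exact_mod_cast hh
    simp
    positivity
  exact (diff_Ph hF h1).continuousAt.comp (f := fun u : ℝ => (h : ℂ) * (v + u * I)) (by fun_prop)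

theorem cont_PP (hF : Frm k N ps lam) (y : ℕ) (b : ℕ → ℂ) {v : ℝ} (hv : 0 < v) :
    Continuous (fun u : ℝ => PP k y lam b (v + u * I)) := by
  unfold PP
  refine continuous_finsetSum _ fun h hh => ?_
  rw [Finset.mem_Icc] at hh
  exact (cont_Ph hF h hh.1 hv).const_mul _

theorem cont_GF (hF : Frm k N ps lam) (y : ℕ) (b : ℕ → ℂ) {v : ℝ} (hv : 0 < v) :
    Continuous (fun u : ℝ => GF k y lam b (v + u * I)) := by
  have := (cont_PP (b := b) hF y hv).sub
    (g := fun u : ℝ => b 1 * cexp (-((v : ℂ) + u * I))) (by fun_prop)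
  exact this

/-- the trivial bound -/
theorem PP_bd (hF : Frm k N ps lam) : ∃ C : ℝ, 0 < C ∧ ∀ (y : ℕ) (b : ℕ → ℂ) (v u : ℝ), 0 < v →
    ‖PP k y lam b (v + u * I)‖ ≤ C * v ^ (-((k : ℝ) / 2)) * ∑ h ∈ Finset.Icc 1 y, ‖b h‖ := by
  obtain ⟨C, hC⟩ := hF.bd
  refine ⟨|C| + 1, by positivity, fun y b v u hv => ?_⟩
  unfold PP
  rw [Finset.mul_sum]
  refine norm_sum_le_of_le _ fun h hh => ?_
  rw [Finset.mem_Icc] at hh
  have hh' : (1 : ℝ) ≤ h := by exact_mod_cast hh.1
  have hh0 : (0 : ℝ) < h := by linarith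
  have hre : ((h : ℂ) * (v + u * I)).re = h * v := by
    rw [← Complex.ofReal_natCast, Complex.re_ofReal_mul]
    simp
  have h1 := hC ((h : ℂ) * (v + u * I)) (by rw [hre]; positivity)
  rw [hre] at h1
  rw [norm_mul, norm_mul, Complex.norm_real, Real.norm_of_nonneg (by positivity)]
  have h2 : (h : ℝ) ^ (((k : ℝ) - 1) / 2) * (h * v) ^ (-((k : ℝ) / 2)) ≤ v ^ (-((k : ℝ) / 2)) := by
    rw [Real.mul_rpow hh0.le hv.le, ← mul_assoc, ← Real.rpow_add hh0]
    have : (h : ℝ) ^ (((k : ℝ) - 1) / 2 + -((k : ℝ) / 2)) ≤ 1 :=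
      Real.rpow_le_one_of_one_le_of_nonpos hh' (by linarith)
    have h3 : 0 < v ^ (-((k : ℝ) / 2)) := by positivity
    nlinarith
  calc ‖b h‖ * (h : ℝ) ^ (((k : ℝ) - 1) / 2) * ‖Ph k lam (h * (v + u * I))‖
      ≤ ‖b h‖ * (h : ℝ) ^ (((k : ℝ) - 1) / 2) * ((|C| + 1) * (h * v) ^ (-((k : ℝ) / 2))) := by
        apply mul_le_mul_of_nonneg_left _ (by positivity)
        refine h1.trans (mul_le_mul_of_nonneg_right ?_ (by positivity))
        linarith [le_abs_self C]
    _ = (|C| + 1) * ‖b h‖ * ((h : ℝ) ^ (((k : ℝ) - 1) / 2) * (h * v) ^ (-((k : ℝ) / 2))) := by ring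
    _ ≤ (|C| + 1) * ‖b h‖ * v ^ (-((k : ℝ) / 2)) := mul_le_mul_of_nonneg_left h2 (by positivity)
    _ = _ := by ring

theorem l1_sq (y : ℕ) (b : ℕ → ℂ) :
    (∑ h ∈ Finset.Icc 1 y, ‖b h‖) ^ 2 ≤ y * ∑ h ∈ Finset.Icc 1 y, ‖b h‖ ^ 2 := by
  have := sq_sum_le_card_mul_sum_sq (s := Finset.Icc 1 y) (f := fun h => ‖b h‖)
  simpa using this

/-- the integral of the pure product -/
theorem PP_coef (h0 : S_SC) (hF : Frm k N ps lam) : ∃ c C A : ℝ, 0 < c ∧ c ≤ 1 / 2 ∧ 0 < C ∧ 1 ≤ A ∧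
    ∀ (y : ℕ) (b : ℕ → ℂ) (v : ℝ) (r : ℤ), 1 ≤ y → 0 < v → v ≤ 1 → r ≠ 0 →
    ‖∫ u in (0 : ℝ)..(2 * Real.pi), PP k y lam b (v + u * I) * conj (PP k y lam b (v + u * I)) *
      cexp (I * r * u)‖ ≤ C * (y * ((|r| : ℤ) : ℝ)) ^ A * v ^ (c - k) *
        (∑ h ∈ Finset.Icc 1 y, ‖b h‖) ^ 2 := by
  obtain ⟨c, C, A, hc, hC, hA, hS⟩ := h0 k N ps lam hF
  have hk : (1 : ℝ) ≤ k := by exact_mod_cast hF.k_pos
  refine ⟨min c (1 / 2), 2 * Real.pi * C, (k - 1) + 2 * A, lt_min hc (by norm_num), min_le_right _ _,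
    by positivity, by linarith, ?_⟩
  intro y b v r hy hv hv1 hr
  have hy' : (1 : ℝ) ≤ y := by exact_mod_cast hy
  have hr' : (1 : ℝ) ≤ ((|r| : ℤ) : ℝ) := by exact_mod_cast Int.one_le_abs hr
  have hexp : ∀ u : ℝ, PP k y lam b (v + u * I) * conj (PP k y lam b (v + u * I)) *
      cexp (I * r * u) = ∑ h ∈ Finset.Icc 1 y, ∑ l ∈ Finset.Icc 1 y,
      (b h * (((h : ℝ) ^ (((k : ℝ) - 1) / 2) : ℝ) : ℂ) *
        (conj (b l) * (((l : ℝ) ^ (((k : ℝ) - 1) / 2) : ℝ) : ℂ))) *
        (Ph k lam (h * (v + u * I)) * conj (Ph k lam (l * (v + u * I))) * cexp (I * r * u)) := by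
    intro u
    unfold PP
    rw [map_sum, Finset.sum_mul_sum, Finset.sum_mul]
    refine Finset.sum_congr rfl fun h _ => ?_
    rw [Finset.sum_mul]
    refine Finset.sum_congr rfl fun l _ => ?_
    rw [map_mul, map_mul, Complex.conj_ofReal]
    ring
  have hcont : ∀ h ∈ Finset.Icc 1 y, ∀ l ∈ Finset.Icc 1 y, Continuous (fun u : ℝ =>
      Ph k lam (h * (v + u * I)) * conj (Ph k lam (l * (v + u * I))) * cexp (I * r * u)) := by
    intro h hh l hl
    rw [Finset.mem_Icc] at hh hl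
    exact ((cont_Ph hF h hh.1 hv).mul (Complex.continuous_conj.comp (cont_Ph hF l hl.1 hv))).mul
      (by fun_prop)
  simp_rw [hexp]
  rw [intervalIntegral.integral_finsetSum (fun h hh => by
    apply Continuous.intervalIntegrable
    exact continuous_finsetSum _ fun l hl => (hcont h hh l hl).const_mul _)]
  have hinner : ∀ h ∈ Finset.Icc 1 y, ∫ u in (0 : ℝ)..(2 * Real.pi), ∑ l ∈ Finset.Icc 1 y,
      (b h * (((h : ℝ) ^ (((k : ℝ) - 1) / 2) : ℝ) : ℂ) *
        (conj (b l) * (((l : ℝ) ^ (((k : ℝ) - 1) / 2) : ℝ) : ℂ))) *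
        (Ph k lam (h * (v + u * I)) * conj (Ph k lam (l * (v + u * I))) * cexp (I * r * u)) =
      ∑ l ∈ Finset.Icc 1 y, (b h * (((h : ℝ) ^ (((k : ℝ) - 1) / 2) : ℝ) : ℂ) *
        (conj (b l) * (((l : ℝ) ^ (((k : ℝ) - 1) / 2) : ℝ) : ℂ))) *
        ((2 * Real.pi : ℝ) • ∫ x in (0 : ℝ)..1, gg k lam h l r v x) := by
    intro h hh
    rw [intervalIntegral.integral_finsetSum (fun l hl =>
      ((hcont h hh l hl).const_mul _).intervalIntegrable _ _)]
    refine Finset.sum_congr rfl fun l hl => ?_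
    rw [intervalIntegral.integral_const_mul, int_two_pi]
    congr 2
    refine intervalIntegral.integral_congr fun x _ => ?_
    unfold gg
    have e1 : ((v : ℂ) + ((2 * Real.pi * x : ℝ) : ℂ) * I) = v + 2 * Real.pi * I * x := by
      push_cast; ring
    have e2 : (I * r * ((2 * Real.pi * x : ℝ) : ℂ)) = 2 * Real.pi * I * r * x := by
      push_cast; ring
    simp only [e1, e2]
  rw [Finset.sum_congr rfl hinner]
  -- the bound
  set B : ℝ := ((|r| : ℤ) : ℝ) ^ A * v ^ (c - k) with hB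
  have hterm : ∀ h ∈ Finset.Icc 1 y, ∀ l ∈ Finset.Icc 1 y,
      ‖(b h * (((h : ℝ) ^ (((k : ℝ) - 1) / 2) : ℝ) : ℂ) *
        (conj (b l) * (((l : ℝ) ^ (((k : ℝ) - 1) / 2) : ℝ) : ℂ))) *
        ((2 * Real.pi : ℝ) • ∫ x in (0 : ℝ)..1, gg k lam h l r v x)‖ ≤
      (2 * Real.pi * C * B * (y : ℝ) ^ ((k : ℝ) - 1 + 2 * A)) * (‖b h‖ * ‖b l‖) := by
    intro h hh l hl
    rw [Finset.mem_Icc] at hh hl
    have hh' : (1 : ℝ) ≤ h := by exact_mod_cast hh.1
    have hl' : (1 : ℝ) ≤ l := by exact_mod_cast hl.1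
    have hhy : (h : ℝ) ≤ y := by exact_mod_cast hh.2
    have hly : (l : ℝ) ≤ y := by exact_mod_cast hl.2
    have h1 := hS h l r v hh.1 hl.1 hr hv hv1
    rw [norm_mul, norm_mul, norm_mul, norm_mul, norm_smul, RCLike.norm_conj, Complex.norm_real,
      Complex.norm_real, Real.norm_of_nonneg (r := (h : ℝ) ^ (((k : ℝ) - 1) / 2)) (by positivity),
      Real.norm_of_nonneg (r := (l : ℝ) ^ (((k : ℝ) - 1) / 2)) (by positivity),
      Real.norm_of_nonneg (r := 2 * Real.pi) (by positivity)]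
    have e1 : (h * l * ((|r| : ℤ) : ℝ)) ^ A = (h : ℝ) ^ A * (l : ℝ) ^ A * ((|r| : ℤ) : ℝ) ^ A := by
      rw [Real.mul_rpow (by positivity) (by positivity), Real.mul_rpow (by positivity) (by positivity)]
    rw [e1] at h1
    have e2 : ∀ m : ℝ, 1 ≤ m → m ≤ y → m ^ (((k : ℝ) - 1) / 2) * m ^ A ≤
        (y : ℝ) ^ (((k : ℝ) - 1) / 2 + A) := by
      intro m hm hmy
      rw [← Real.rpow_add (by linarith)]
      exact Real.rpow_le_rpow (by linarith) hmy (by linarith)
    have e3 : (y : ℝ) ^ ((k : ℝ) - 1 + 2 * A) =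
        (y : ℝ) ^ (((k : ℝ) - 1) / 2 + A) * (y : ℝ) ^ (((k : ℝ) - 1) / 2 + A) := by
      rw [← Real.rpow_add (by linarith)]
      congr 1
      ring
    calc _ ≤ ‖b h‖ * (h : ℝ) ^ (((k : ℝ) - 1) / 2) * (‖b l‖ * (l : ℝ) ^ (((k : ℝ) - 1) / 2)) *
          (2 * Real.pi * (C * ((h : ℝ) ^ A * (l : ℝ) ^ A * ((|r| : ℤ) : ℝ) ^ A) * v ^ (c - k))) := by
          apply mul_le_mul_of_nonneg_left _ (by positivity)
          exact mul_le_mul_of_nonneg_left h1 (by positivity)
      _ = (2 * Real.pi * C * B) * (((h : ℝ) ^ (((k : ℝ) - 1) / 2) * (h : ℝ) ^ A) *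
          ((l : ℝ) ^ (((k : ℝ) - 1) / 2) * (l : ℝ) ^ A)) * (‖b h‖ * ‖b l‖) := by
          ring
      _ ≤ (2 * Real.pi * C * B) * ((y : ℝ) ^ (((k : ℝ) - 1) / 2 + A) *
          (y : ℝ) ^ (((k : ℝ) - 1) / 2 + A)) * (‖b h‖ * ‖b l‖) := by
          apply mul_le_mul_of_nonneg_right _ (by positivity)
          apply mul_le_mul_of_nonneg_left _ (by positivity)
          exact mul_le_mul (e2 h hh' hhy) (e2 l hl' hly) (by positivity) (by positivity)
      _ = _ := by rw [e3]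
  have hsum : ‖∑ h ∈ Finset.Icc 1 y, ∑ l ∈ Finset.Icc 1 y,
      (b h * (((h : ℝ) ^ (((k : ℝ) - 1) / 2) : ℝ) : ℂ) *
        (conj (b l) * (((l : ℝ) ^ (((k : ℝ) - 1) / 2) : ℝ) : ℂ))) *
        ((2 * Real.pi : ℝ) • ∫ x in (0 : ℝ)..1, gg k lam h l r v x)‖ ≤
      (2 * Real.pi * C * B * (y : ℝ) ^ ((k : ℝ) - 1 + 2 * A)) *
        (∑ h ∈ Finset.Icc 1 y, ‖b h‖) ^ 2 := by
    rw [sq, Finset.sum_mul_sum, Finset.mul_sum]
    refine norm_sum_le_of_le _ fun h hh => ?_
    rw [Finset.mul_sum]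
    exact norm_sum_le_of_le _ fun l hl => hterm h hh l hl
  refine hsum.trans ?_
  apply mul_le_mul_of_nonneg_right _ (by positivity)
  have e4 : v ^ (c - k) ≤ v ^ (min c (1 / 2) - k) :=
    Real.rpow_le_rpow_of_exponent_ge hv hv1 (by linarith [min_le_left c (1 / 2)])
  have e5 : ((|r| : ℤ) : ℝ) ^ A ≤ ((|r| : ℤ) : ℝ) ^ ((k : ℝ) - 1 + 2 * A) :=
    Real.rpow_le_rpow_of_exponent_le hr' (by linarith)
  rw [Real.mul_rpow (by positivity) (by positivity), hB]
  calc 2 * Real.pi * C * (((|r| : ℤ) : ℝ) ^ A * v ^ (c - k)) * (y : ℝ) ^ ((k : ℝ) - 1 + 2 * A)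
      ≤ 2 * Real.pi * C * (((|r| : ℤ) : ℝ) ^ ((k : ℝ) - 1 + 2 * A) * v ^ (min c (1 / 2) - k)) *
        (y : ℝ) ^ ((k : ℝ) - 1 + 2 * A) := by gcongr
    _ = _ := by ring

theorem int_exp_two_pi (r : ℤ) (hr : r ≠ 0) :
    ∫ u in (0 : ℝ)..(2 * Real.pi), cexp (I * r * u) = 0 := by
  rw [int_two_pi]
  have : ∀ x : ℝ, cexp (I * r * ((2 * Real.pi * x : ℝ) : ℂ)) = cexp (2 * Real.pi * I * r * x) := by
    intro x
    congr 1
    push_cast; ring
  simp_rw [this]
  rw [int_exp, if_neg hr, smul_zero]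

theorem GF_coef (h0 : S_SC) (hF : Frm k N ps lam) : ∃ c C A : ℝ, 0 < c ∧ c ≤ 1 / 2 ∧ 0 < C ∧ 1 ≤ A ∧
    ∀ (y : ℕ) (b : ℕ → ℂ) (v : ℝ) (r : ℤ), 1 ≤ y → 0 < v → v ≤ 1 → r ≠ 0 →
    ‖∫ u in (0 : ℝ)..(2 * Real.pi), ((‖GF k y lam b (v + u * I)‖ ^ 2 : ℝ) : ℂ) *
      cexp (I * r * u)‖ ≤ C * (y * ((|r| : ℤ) : ℝ)) ^ A * v ^ (c - k) *
        ∑ h ∈ Finset.Icc 1 y, ‖b h‖ ^ 2 := by
  obtain ⟨c, C, A, hc, hc2, hC, hA, hS⟩ := PP_coef h0 hF
  obtain ⟨C1, hC1, hP⟩ := PP_bd hF
  have hk : (1 : ℝ) ≤ k := by exact_mod_cast hF.k_pos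
  refine ⟨c, C + 4 * Real.pi * C1, A + 1, hc, hc2, by positivity, by linarith, ?_⟩
  intro y b v r hy hv hv1 hr
  have hy' : (1 : ℝ) ≤ y := by exact_mod_cast hy
  have hr' : (1 : ℝ) ≤ ((|r| : ℤ) : ℝ) := by exact_mod_cast Int.one_le_abs hr
  set S1 : ℝ := ∑ h ∈ Finset.Icc 1 y, ‖b h‖ with hS1
  set S2 : ℝ := ∑ h ∈ Finset.Icc 1 y, ‖b h‖ ^ 2 with hS2
  have hS10 : 0 ≤ S1 := Finset.sum_nonneg fun h _ => norm_nonneg _
  have hS20 : 0 ≤ S2 := Finset.sum_nonneg fun h _ => by positivity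
  have hb1 : ‖b 1‖ ≤ S1 := by
    rw [hS1]
    exact Finset.single_le_sum (f := fun h => ‖b h‖) (fun h _ => norm_nonneg _)
      (Finset.mem_Icc.2 ⟨le_refl _, hy⟩)
  have hexp : ∀ u : ℝ, ((‖GF k y lam b (v + u * I)‖ ^ 2 : ℝ) : ℂ) * cexp (I * r * u) =
      PP k y lam b (v + u * I) * conj (PP k y lam b (v + u * I)) * cexp (I * r * u) -
      (PP k y lam b (v + u * I) * conj (b 1 * cexp (-((v : ℂ) + u * I))) +
        b 1 * cexp (-((v : ℂ) + u * I)) * conj (PP k y lam b (v + u * I))) * cexp (I * r * u) +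
      (b 1 * conj (b 1) * (Real.exp (-(2 * v)) : ℂ)) * cexp (I * r * u) := by
    intro u
    have e1 : ((‖GF k y lam b (v + u * I)‖ ^ 2 : ℝ) : ℂ) =
        GF k y lam b (v + u * I) * conj (GF k y lam b (v + u * I)) := by
      rw [Complex.mul_conj']; push_cast; rfl
    have e2 : GF k y lam b (v + u * I) =
        PP k y lam b (v + u * I) - b 1 * cexp (-((v : ℂ) + u * I)) := rfl
    have e3 : cexp (-((v : ℂ) + u * I)) * conj (cexp (-((v : ℂ) + u * I))) =
        (Real.exp (-(2 * v)) : ℂ) := by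
      rw [Complex.mul_conj', Complex.norm_exp]
      have : (-((v : ℂ) + u * I)).re = -v := by simp
      rw [this, ← Complex.ofReal_pow, ← Real.exp_nat_mul]
      congr 2
      push_cast
      ring
    rw [e1, e2, map_sub, map_mul (starRingEnd ℂ) (b 1), ← e3]
    ring
  simp_rw [hexp]
  have hcP := cont_PP (b := b) hF y hv
  have hcPc : Continuous (fun u : ℝ => conj (PP k y lam b (v + u * I))) :=
    Complex.continuous_conj.comp hcP
  have hcE : Continuous (fun u : ℝ => b 1 * cexp (-((v : ℂ) + u * I))) := by fun_prop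
  have hcEc : Continuous (fun u : ℝ => conj (b 1 * cexp (-((v : ℂ) + u * I)))) :=
    Complex.continuous_conj.comp hcE
  have hce : Continuous (fun u : ℝ => cexp (I * r * u)) := by fun_prop
  have hi1 : IntervalIntegrable (fun u : ℝ => PP k y lam b (v + u * I) *
      conj (PP k y lam b (v + u * I)) * cexp (I * r * u)) volume 0 (2 * Real.pi) :=
    ((hcP.mul hcPc).mul hce).intervalIntegrable _ _
  have hi2 : IntervalIntegrable (fun u : ℝ =>
      (PP k y lam b (v + u * I) * conj (b 1 * cexp (-((v : ℂ) + u * I))) +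
        b 1 * cexp (-((v : ℂ) + u * I)) * conj (PP k y lam b (v + u * I))) * cexp (I * r * u))
      volume 0 (2 * Real.pi) :=
    (((hcP.mul hcEc).add (hcE.mul hcPc)).mul hce).intervalIntegrable _ _
  have hi3 : IntervalIntegrable (fun u : ℝ =>
      (b 1 * conj (b 1) * (Real.exp (-(2 * v)) : ℂ)) * cexp (I * r * u)) volume 0 (2 * Real.pi) :=
    (hce.const_mul _).intervalIntegrable _ _
  rw [intervalIntegral.integral_add (hi1.sub hi2) hi3, intervalIntegral.integral_sub hi1 hi2,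
    intervalIntegral.integral_const_mul, int_exp_two_pi r hr, mul_zero, add_zero]
  have hb2 : ‖∫ u in (0 : ℝ)..(2 * Real.pi),
      (PP k y lam b (v + u * I) * conj (b 1 * cexp (-((v : ℂ) + u * I))) +
        b 1 * cexp (-((v : ℂ) + u * I)) * conj (PP k y lam b (v + u * I))) * cexp (I * r * u)‖ ≤
      (2 * (C1 * v ^ (-((k : ℝ) / 2)) * S1 * S1)) * |2 * Real.pi - 0| := by
    apply intervalIntegral.norm_integral_le_of_norm_le_const
    intro u _
    have n1 : ‖cexp (I * r * u)‖ = 1 := by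
      rw [show (I * r * u : ℂ) = ((r * u : ℝ) : ℂ) * I by push_cast; ring]
      exact Complex.norm_exp_ofReal_mul_I _
    have n2 : ‖b 1 * cexp (-((v : ℂ) + u * I))‖ ≤ S1 := by
      rw [norm_mul, Complex.norm_exp]
      have : (-((v : ℂ) + u * I)).re = -v := by simp
      rw [this]
      have : Real.exp (-v) ≤ 1 := by rw [Real.exp_le_one_iff]; linarith
      nlinarith [norm_nonneg (b 1)]
    have n3 := hP y b v u hv
    rw [norm_mul, n1, mul_one]
    refine (norm_add_le _ _).trans ?_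
    rw [norm_mul, norm_mul, RCLike.norm_conj, RCLike.norm_conj]
    have n4 : ‖PP k y lam b (v + u * I)‖ * ‖b 1 * cexp (-((v : ℂ) + u * I))‖ ≤
        (C1 * v ^ (-((k : ℝ) / 2)) * S1) * S1 :=
      mul_le_mul n3 n2 (norm_nonneg _) (by positivity)
    linarith [mul_comm ‖PP k y lam b (v + u * I)‖ ‖b 1 * cexp (-((v : ℂ) + u * I))‖]
  refine (norm_sub_le _ _).trans ?_
  have h1 := hS y b v r hy hv hv1 hr
  have hl1 := l1_sq y b
  have e1 : v ^ (-((k : ℝ) / 2)) ≤ v ^ (c - k) :=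
    Real.rpow_le_rpow_of_exponent_ge hv hv1 (by linarith)
  have hbase : 1 ≤ (y : ℝ) * ((|r| : ℤ) : ℝ) := by nlinarith
  have e2 : (1 : ℝ) ≤ (y * ((|r| : ℤ) : ℝ)) ^ A := Real.one_le_rpow hbase (by linarith)
  have e3 : (y * ((|r| : ℤ) : ℝ)) ^ (A + 1) = (y * ((|r| : ℤ) : ℝ)) ^ A * (y * ((|r| : ℤ) : ℝ)) := by
    rw [Real.rpow_add (by linarith), Real.rpow_one]
  have e4 : (y : ℝ) ≤ y * ((|r| : ℤ) : ℝ) := by nlinarith
  have hS1S2 : S1 ^ 2 ≤ (y * ((|r| : ℤ) : ℝ)) * S2 :=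
    hl1.trans (mul_le_mul_of_nonneg_right e4 hS20)
  have hvp : 0 < v ^ (c - k) := by positivity
  calc _ ≤ C * (y * ((|r| : ℤ) : ℝ)) ^ A * v ^ (c - k) * S1 ^ 2 +
        (2 * (C1 * v ^ (-((k : ℝ) / 2)) * S1 * S1)) * |2 * Real.pi - 0| := add_le_add h1 hb2
    _ = C * (y * ((|r| : ℤ) : ℝ)) ^ A * v ^ (c - k) * S1 ^ 2 +
        4 * Real.pi * C1 * v ^ (-((k : ℝ) / 2)) * S1 ^ 2 := by
        rw [sub_zero, abs_of_pos Real.two_pi_pos]; ring
    _ ≤ C * (y * ((|r| : ℤ) : ℝ)) ^ A * v ^ (c - k) * S1 ^ 2 +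
        4 * Real.pi * C1 * ((y * ((|r| : ℤ) : ℝ)) ^ A * v ^ (c - k)) * S1 ^ 2 := by
        apply add_le_add_right
        apply mul_le_mul_of_nonneg_right _ (by positivity)
        apply mul_le_mul_of_nonneg_left _ (by positivity)
        nlinarith
    _ = (C + 4 * Real.pi * C1) * (y * ((|r| : ℤ) : ℝ)) ^ A * v ^ (c - k) * S1 ^ 2 := by ring
    _ ≤ (C + 4 * Real.pi * C1) * (y * ((|r| : ℤ) : ℝ)) ^ A * v ^ (c - k) *
        ((y * ((|r| : ℤ) : ℝ)) * S2) := mul_le_mul_of_nonneg_left hS1S2 (by positivity)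
    _ = _ := by rw [e3]; ring

/-- dyadic sums -/
theorem dy (K : ℕ) : ∃ C : ℝ, 0 < C ∧ ∀ (m w x0 : ℝ) (J : ℕ), 1 ≤ m → m ≤ K → 0 < w → 0 < x0 →
    ∑ j ∈ Finset.range J, (2 ^ j * x0) ^ m * Real.exp (-(w * (2 ^ j * x0))) ≤ C * w ^ (-m) := by
  set C0 : ℝ := 2 * ((Nat.factorial 0 : ℝ) + Nat.factorial 2 + Nat.factorial K + Nat.factorial (K + 2))
    with hC0
  have hC0p : 0 < C0 := by rw [hC0]; positivity
  refine ⟨C0 * 2, by positivity, fun m w x0 J hm hmK hw hx0 => ?_⟩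
  have hpow : ∀ (i : ℕ) (t : ℝ), 0 ≤ t → t ^ i ≤ (Nat.factorial i : ℝ) * Real.exp t := by
    intro i t ht
    have := Real.pow_div_factorial_le_exp t ht i
    rwa [div_le_iff₀ (by positivity), mul_comm] at this
  -- pointwise bound
  have hpt : ∀ t : ℝ, 0 < t → t ^ m * Real.exp (-t) ≤ C0 * (t / (1 + t) ^ 2) := by
    intro t ht
    have h1 : t ^ m = t ^ (m - 1) * t := by
      rw [Real.rpow_sub_one ht.ne']; field_simp
    have h2 : t ^ (m - 1) ≤ 1 + t ^ K := by
      rcases le_total t 1 with h | h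
      · have : t ^ (m - 1) ≤ 1 := Real.rpow_le_one ht.le h (by linarith)
        have : (0 : ℝ) ≤ t ^ K := by positivity
        linarith
      · have : t ^ (m - 1) ≤ t ^ (K : ℝ) := Real.rpow_le_rpow_of_exponent_le h (by linarith)
        rw [Real.rpow_natCast] at this
        linarith
    have h3 : (1 + t ^ K) * (1 + t) ^ 2 ≤ C0 * Real.exp t := by
      have a0 := hpow 0 t ht.le
      have a1 := hpow 2 t ht.le
      have a2 := hpow K t ht.le
      have a3 := hpow (K + 2) t ht.le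
      have e : (1 + t) ^ 2 ≤ 2 * (1 + t ^ 2) := by nlinarith [sq_nonneg (1 - t)]
      calc (1 + t ^ K) * (1 + t) ^ 2 ≤ (1 + t ^ K) * (2 * (1 + t ^ 2)) :=
            mul_le_mul_of_nonneg_left e (by positivity)
        _ = 2 * (t ^ 0 + t ^ 2 + t ^ K + t ^ (K + 2)) := by rw [pow_add]; ring
        _ ≤ 2 * ((Nat.factorial 0 : ℝ) * Real.exp t + Nat.factorial 2 * Real.exp t +
            Nat.factorial K * Real.exp t + Nat.factorial (K + 2) * Real.exp t) := by linarith
        _ = _ := by rw [hC0]; ring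
    rw [Real.exp_neg, ← div_eq_mul_inv, mul_div_assoc', div_le_div_iff₀ (Real.exp_pos t) (by positivity),
      h1]
    calc t ^ (m - 1) * t * (1 + t) ^ 2 ≤ (1 + t ^ K) * t * (1 + t) ^ 2 := by
          apply mul_le_mul_of_nonneg_right _ (by positivity)
          exact mul_le_mul_of_nonneg_right h2 ht.le
      _ = t * ((1 + t ^ K) * (1 + t) ^ 2) := by ring
      _ ≤ t * (C0 * Real.exp t) := mul_le_mul_of_nonneg_left h3 ht.le
      _ = _ := by ring
  have htel : ∀ t : ℝ, 0 < t → t / (1 + t) ^ 2 ≤ 2 * ((2 * t) / (1 + 2 * t) - t / (1 + t)) := by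
    intro t ht
    have : (2 * t) / (1 + 2 * t) - t / (1 + t) = t / ((1 + 2 * t) * (1 + t)) := by
      field_simp; ring
    rw [this, mul_div_assoc', div_le_div_iff₀ (by positivity) (by positivity)]
    nlinarith [mul_pos ht ht, mul_pos (mul_pos ht ht) ht]
  set φ : ℕ → ℝ := fun j => (w * (2 ^ j * x0)) / (1 + w * (2 ^ j * x0)) with hφ
  have hterm : ∀ j : ℕ, (2 ^ j * x0) ^ m * Real.exp (-(w * (2 ^ j * x0))) ≤
      C0 * 2 * w ^ (-m) * (φ (j + 1) - φ j) := by
    intro j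
    set t : ℝ := w * (2 ^ j * x0) with ht
    have ht0 : 0 < t := by positivity
    have e1 : (2 ^ j * x0) ^ m = w ^ (-m) * t ^ m := by
      rw [ht, Real.mul_rpow hw.le (by positivity), ← mul_assoc, ← Real.rpow_add hw]
      simp
    have e2 : φ (j + 1) = (2 * t) / (1 + 2 * t) := by
      rw [hφ, ht]
      simp only
      rw [pow_succ]
      congr 1 <;> ring
    rw [e1, e2]
    have e3 : φ j = t / (1 + t) := rfl
    rw [e3]
    calc w ^ (-m) * t ^ m * Real.exp (-t) = w ^ (-m) * (t ^ m * Real.exp (-t)) := by ring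
      _ ≤ w ^ (-m) * (C0 * (t / (1 + t) ^ 2)) :=
          mul_le_mul_of_nonneg_left (hpt t ht0) (by positivity)
      _ ≤ w ^ (-m) * (C0 * (2 * ((2 * t) / (1 + 2 * t) - t / (1 + t)))) := by
          apply mul_le_mul_of_nonneg_left _ (by positivity)
          exact mul_le_mul_of_nonneg_left (htel t ht0) hC0p.le
      _ = _ := by ring
  calc _ ≤ ∑ j ∈ Finset.range J, C0 * 2 * w ^ (-m) * (φ (j + 1) - φ j) :=
        Finset.sum_le_sum fun j _ => hterm j
    _ = C0 * 2 * w ^ (-m) * (φ J - φ 0) := by rw [← Finset.mul_sum, Finset.sum_range_sub]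
    _ ≤ C0 * 2 * w ^ (-m) * 1 := by
        apply mul_le_mul_of_nonneg_left _ (by positivity)
        have h1 : φ J ≤ 1 := by
          rw [hφ]
          simp only
          rw [div_le_one (by positivity)]
          linarith
        have h2 : 0 ≤ φ 0 := by
          rw [hφ]
          simp only
          positivity
        linarith
    _ = _ := by ring

/-- one dyadic block -/
theorem block (h0 : S_SC) (h2 : S_RTA) (h3 : S_FJ1) (hF : Frm k N ps lam) :
    ∃ c C A : ℝ, 0 < c ∧ c ≤ 1 / 2 ∧ 0 < C ∧ 1 ≤ A ∧ ∀ (T X : ℝ) (y : ℕ) (b : ℕ → ℂ), 10 ≤ T →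
    0 < X → 1 ≤ y → (∀ h, y < h → b h = 0) →
    ∫ x in X..(2 * X), ‖GF k y lam b (ray (1 / T) x)‖ ^ 2 ≤
      C * X * ((∑' n : ℕ, ‖pc k lam b n‖ ^ 2 * Real.exp (-(n * X / (2 * T)))) +
        if X < 1 then (y / X) ^ A * T ^ ((k : ℝ) - c) * ∑ h ∈ Finset.Icc 1 y, ‖b h‖ ^ 2 else 0) := by
  obtain ⟨C2, hC2, hR⟩ := h2
  obtain ⟨C3, hC3, hJ⟩ := h3
  obtain ⟨c, C4, A, hc, hc2, hC4, hA, hG⟩ := GF_coef h0 hF
  have hk : (1 : ℝ) ≤ k := by exact_mod_cast hF.k_pos
  refine ⟨c, 4 * C2 * C3 * (2 * Real.pi + C4 * (2 * 2 ^ A * 4 ^ (k : ℝ))), A + 1 + k, hc, hc2,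
    by positivity, by linarith, ?_⟩
  intro T X y b hT hX hy hb
  have hy' : (1 : ℝ) ≤ y := by exact_mod_cast hy
  have hT0 : 0 < T := by linarith
  set δ : ℝ := 1 / T with hδ
  have hδ0 : 0 < δ := by positivity
  have hδ1 : δ ≤ 1 / 10 := by
    rw [hδ]
    exact one_div_le_one_div_of_le (by norm_num) hT
  set S2 : ℝ := ∑ h ∈ Finset.Icc 1 y, ‖b h‖ ^ 2 with hS2
  have hS20 : 0 ≤ S2 := Finset.sum_nonneg fun h _ => by positivity
  set M : ℝ := ∑' n : ℕ, ‖pc k lam b n‖ ^ 2 * Real.exp (-(n * X / (2 * T))) with hM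
  have hM0 : 0 ≤ M := tsum_nonneg fun n => by positivity
  set Er : ℝ := if X < 1 then (y / X) ^ (A + 1 + k) * T ^ ((k : ℝ) - c) * S2 else 0 with hEr
  have hEr0 : 0 ≤ Er := by rw [hEr]; split_ifs <;> positivity
  have hray := hR (GF k y lam b) δ X hδ0 hδ1 hX (fun z hz => GF_diff hF y b hz)
  refine hray.trans ?_
  -- the mean square over a period
  have hper : ∀ v : ℝ, δ * X / 4 ≤ v → ∫ u in (0 : ℝ)..(2 * Real.pi), ‖GF k y lam b (v + u * I)‖ ^ 2 ≤
      2 * Real.pi * M := by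
    intro v hv
    have hv0 : 0 < v := lt_of_lt_of_le (by positivity) hv
    obtain ⟨hs, he⟩ := GF_parseval hF y b hb hv0
    rw [he]
    apply mul_le_mul_of_nonneg_left _ (by positivity)
    have hs2 := (GF_parseval hF y b hb (v := δ * X / 4) (by positivity)).1
    have e1 : ∀ n : ℕ, ‖pc k lam b n‖ ^ 2 * Real.exp (-(2 * n * (δ * X / 4))) =
        ‖pc k lam b n‖ ^ 2 * Real.exp (-(n * X / (2 * T))) := by
      intro n
      congr 3
      rw [hδ]
      field_simp
      ring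
    simp_rw [e1] at hs2
    refine hs.tsum_le_tsum (fun n => ?_) hs2
    rw [← e1]
    apply mul_le_mul_of_nonneg_left _ (by positivity)
    apply Real.exp_le_exp.2
    have : (0 : ℝ) ≤ n := Nat.cast_nonneg n
    nlinarith
  -- the inner integral
  have hinner : ∀ v : ℝ, δ * X / 4 ≤ v → v ≤ 4 * δ * X →
      ∫ u in (X / 4)..(4 * X), ‖GF k y lam b (v + u * I)‖ ^ 2 ≤
      C3 * (2 * Real.pi + C4 * (2 * 2 ^ A * 4 ^ (k : ℝ))) * X * (M + Er) := by
    intro v hv hv2
    have hv0 : 0 < v := lt_of_lt_of_le (by positivity) hv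
    have hperi : Function.Periodic (fun u : ℝ => ‖GF k y lam b (v + u * I)‖ ^ 2) (2 * Real.pi) := by
      intro u
      have hre1 : (v + ((u + 2 * Real.pi : ℝ) : ℂ) * I).re = v := by simp
      have hre2 : (v + (u : ℂ) * I).re = v := by simp
      show ‖GF k y lam b (v + ((u + 2 * Real.pi : ℝ) : ℂ) * I)‖ ^ 2 =
        ‖GF k y lam b (v + (u : ℂ) * I)‖ ^ 2
      rw [GF_series hF y b hb (by rw [hre1]; exact hv0), GF_series hF y b hb (by rw [hre2]; exact hv0)]
      congr 2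
      refine tsum_congr fun n => ?_
      congr 1
      rw [show (-(n * (v + ((u + 2 * Real.pi : ℝ) : ℂ) * I)) : ℂ) =
        -(n * (v + (u : ℂ) * I)) + ((-(n : ℤ) : ℤ) : ℂ) * (2 * Real.pi * I) by push_cast; ring,
        Complex.exp_add, Complex.exp_int_mul_two_pi_mul_I, mul_one]
    have hcont : Continuous (fun u : ℝ => ‖GF k y lam b (v + u * I)‖ ^ 2) :=
      (cont_GF hF y b hv0).norm.pow 2
    obtain ⟨hJ1, hJ2⟩ := hJ (fun u : ℝ => ‖GF k y lam b (v + u * I)‖ ^ 2) hcont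
      (fun u => by positivity) hperi
    have hp := hper v hv
    by_cases hX1 : X < 1
    · have hEr' : Er = (y / X) ^ (A + 1 + k) * T ^ ((k : ℝ) - c) * S2 := by rw [hEr, if_pos hX1]
      set R : ℕ := ⌈1 / X⌉₊ with hRdef
      have hX1' : 1 ≤ 1 / X := by rw [le_div_iff₀ hX]; linarith
      have hR1 : 1 / X ≤ R := Nat.le_ceil _
      have hR2 : (R : ℝ) ≤ 2 * (1 / X) := by
        have : (R : ℝ) < 1 / X + 1 := Nat.ceil_lt_add_one (by positivity)
        linarith
      have hRge : 1 ≤ R := by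
        have : (1 : ℝ) ≤ R := hX1'.trans hR1
        exact_mod_cast this
      have hXR : 1 ≤ X * R := by
        have := mul_le_mul_of_nonneg_left hR1 hX.le
        rwa [mul_one_div_cancel hX.ne'] at this
      set m : ℝ := C4 * (y * (R : ℝ)) ^ A * (δ * X / 4) ^ (c - k) * S2 with hm
      have hm0 : 0 ≤ m := by positivity
      have hv1 : v ≤ 1 := by nlinarith
      have hb2 := hJ2 X m R hX hm0 hRge hXR (by
        intro r hr hrR
        refine (hG y b v r hy hv0 hv1 hr).trans ?_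
        rw [hm]
        apply mul_le_mul_of_nonneg_right _ hS20
        have hrr : ((|r| : ℤ) : ℝ) ≤ (R : ℝ) := by exact_mod_cast hrR.le
        have hr0 : (0 : ℝ) ≤ ((|r| : ℤ) : ℝ) := by exact_mod_cast abs_nonneg r
        apply mul_le_mul
        · apply mul_le_mul_of_nonneg_left _ hC4.le
          exact Real.rpow_le_rpow (by positivity) (by gcongr) (by linarith)
        · exact Real.rpow_le_rpow_of_nonpos (by positivity) hv (by linarith)
        · positivity
        · positivity)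
      refine hb2.trans ?_
      -- R * m
      have hRm : (R : ℝ) * m ≤ C4 * (2 * 2 ^ A * 4 ^ (k : ℝ)) * Er := by
        rw [hm, hEr']
        have f1 : (y * (R : ℝ)) ^ A ≤ 2 ^ A * (y / X) ^ A := by
          rw [← Real.mul_rpow (by norm_num) (by positivity)]
          apply Real.rpow_le_rpow (by positivity) _ (by linarith)
          calc (y : ℝ) * R ≤ y * (2 * (1 / X)) := mul_le_mul_of_nonneg_left hR2 (by positivity)
            _ = _ := by ring
        have hyX : 1 ≤ (y : ℝ) / X := by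
          rw [le_div_iff₀ hX]; linarith
        have f2 : (R : ℝ) ≤ 2 * (y / X) := by
          calc (R : ℝ) ≤ 2 * (1 / X) := hR2
            _ ≤ 2 * (y / X) := by gcongr
        have f3 : (δ * X / 4) ^ (c - k) ≤ 4 ^ (k : ℝ) * T ^ ((k : ℝ) - c) * (y / X) ^ (k : ℝ) := by
          have g1 : δ * X / 4 = (4 * T * (1 / X))⁻¹ := by
            rw [hδ]; field_simp
          rw [g1, Real.inv_rpow (by positivity), ← Real.rpow_neg (by positivity), neg_sub,
            Real.mul_rpow (by positivity) (by positivity), Real.mul_rpow (by norm_num) hT0.le]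
          have g2 : (4 : ℝ) ^ ((k : ℝ) - c) ≤ 4 ^ (k : ℝ) :=
            Real.rpow_le_rpow_of_exponent_le (by norm_num) (by linarith)
          have g3 : (1 / X) ^ ((k : ℝ) - c) ≤ (y / X) ^ (k : ℝ) := by
            calc (1 / X) ^ ((k : ℝ) - c) ≤ (y / X) ^ ((k : ℝ) - c) :=
                  Real.rpow_le_rpow (by positivity) (by gcongr) (by linarith)
              _ ≤ (y / X) ^ (k : ℝ) := Real.rpow_le_rpow_of_exponent_le hyX (by linarith)
          gcongr
        have f4 : (y / X : ℝ) ^ (A + 1 + (k : ℝ)) = (y / X) ^ A * (y / X) * (y / X) ^ (k : ℝ) := by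
          rw [Real.rpow_add (by positivity), Real.rpow_add (by positivity), Real.rpow_one]
        rw [f4]
        calc (R : ℝ) * (C4 * (y * (R : ℝ)) ^ A * (δ * X / 4) ^ (c - k) * S2)
            ≤ (2 * (y / X)) * (C4 * (2 ^ A * (y / X) ^ A) *
              (4 ^ (k : ℝ) * T ^ ((k : ℝ) - c) * (y / X) ^ (k : ℝ)) * S2) := by gcongr
          _ = _ := by ring
      calc C3 * X * ((∫ u in (0 : ℝ)..(2 * Real.pi), ‖GF k y lam b (v + u * I)‖ ^ 2) + R * m)
          ≤ C3 * X * (2 * Real.pi * M + C4 * (2 * 2 ^ A * 4 ^ (k : ℝ)) * Er) := by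
            apply mul_le_mul_of_nonneg_left _ (by positivity)
            exact add_le_add hp hRm
        _ ≤ C3 * X * ((2 * Real.pi + C4 * (2 * 2 ^ A * 4 ^ (k : ℝ))) * (M + Er)) := by
            apply mul_le_mul_of_nonneg_left _ (by positivity)
            have p1 : 0 ≤ 2 * Real.pi * Er := by positivity
            have p2 : 0 ≤ C4 * (2 * 2 ^ A * 4 ^ (k : ℝ)) * M := by positivity
            linarith
        _ = _ := by ring
    · have hX1' : 1 ≤ X := not_lt.1 hX1
      refine (hJ1 X hX1').trans ?_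
      calc C3 * X * ∫ u in (0 : ℝ)..(2 * Real.pi), ‖GF k y lam b (v + u * I)‖ ^ 2
          ≤ C3 * X * (2 * Real.pi * M) := mul_le_mul_of_nonneg_left hp (by positivity)
        _ ≤ C3 * X * ((2 * Real.pi + C4 * (2 * 2 ^ A * 4 ^ (k : ℝ))) * (M + Er)) := by
            apply mul_le_mul_of_nonneg_left _ (by positivity)
            have p1 : 0 ≤ 2 * Real.pi * Er := by positivity
            have p2 : 0 ≤ C4 * (2 * 2 ^ A * 4 ^ (k : ℝ)) * M := by positivity
            have p3 : 0 ≤ C4 * (2 * 2 ^ A * 4 ^ (k : ℝ)) * Er := by positivity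
            linarith
        _ = _ := by ring
  -- the outer integral
  set Bd : ℝ := C3 * (2 * Real.pi + C4 * (2 * 2 ^ A * 4 ^ (k : ℝ))) * X * (M + Er) with hBd
  have hBd0 : 0 ≤ Bd := by positivity
  have hle : δ * X / 4 ≤ 4 * δ * X := by
    have : 0 < δ * X := by positivity
    linarith
  have houter : ‖∫ v in (δ * X / 4)..(4 * δ * X), ∫ u in (X / 4)..(4 * X),
      ‖GF k y lam b (v + u * I)‖ ^ 2‖ ≤ Bd * |4 * δ * X - δ * X / 4| := by
    apply intervalIntegral.norm_integral_le_of_norm_le_const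
    intro v hv
    rw [Set.uIoc_of_le hle] at hv
    rw [Real.norm_of_nonneg]
    · exact hinner v hv.1.le hv.2
    · apply intervalIntegral.integral_nonneg (by linarith)
      intro u _
      positivity
  have h5 := (Real.le_norm_self _).trans houter
  have h6 : |4 * δ * X - δ * X / 4| ≤ 4 * (δ * X) := by
    rw [abs_of_nonneg (by linarith)]
    have : 0 < δ * X := by positivity
    linarith
  calc C2 / (δ * X) * ∫ v in (δ * X / 4)..(4 * δ * X), ∫ u in (X / 4)..(4 * X),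
      ‖GF k y lam b (v + u * I)‖ ^ 2 ≤ C2 / (δ * X) * (Bd * (4 * (δ * X))) := by
        apply mul_le_mul_of_nonneg_left _ (by positivity)
        exact h5.trans (mul_le_mul_of_nonneg_left h6 hBd0)
    _ = 4 * C2 * Bd := by field_simp
    _ = _ := by rw [hBd]; ring

theorem ray_re (δ x : ℝ) : (ray δ x).re = x * Real.sin δ := by
  unfold ray
  rw [Complex.re_ofReal_mul, show (I * ((Real.pi / 2 - δ : ℝ) : ℂ)) = ((Real.pi / 2 - δ : ℝ) : ℂ) * I
    by ring, Complex.exp_ofReal_mul_I_re, Real.cos_pi_div_two_sub]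

theorem pc_sq (b : ℕ → ℂ) (n : ℕ) : ‖pc k lam b n‖ ^ 2 =
    if n ≤ 1 then 0 else (n : ℝ) ^ ((k : ℝ) - 1) * ‖cn lam b n‖ ^ 2 := by
  unfold pc
  split_ifs with h
  · simp
  · have hn : (0 : ℝ) < n := by exact_mod_cast (by omega : 0 < n)
    rw [norm_mul, mul_pow, Complex.norm_real, Real.norm_of_nonneg (by positivity),
      ← Real.rpow_natCast ((n : ℝ) ^ (((k : ℝ) - 1) / 2)) 2, ← Real.rpow_mul hn.le]
    congr 2
    push_cast
    ring

theorem ryp (h0 : S_SC) (h2 : S_RTA) (h3 : S_FJ1) : S_RYP := by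
  intro k N ps lam hF
  obtain ⟨c, C1, A, hc, hc2, hC1, hA, hblock⟩ := block h0 h2 h3 hF
  obtain ⟨C2, hC2, hdy⟩ := dy (k + 2)
  have hk : (1 : ℝ) ≤ k := by exact_mod_cast hF.k_pos
  set C3 : ℝ := C1 * 2 ^ ((k : ℝ) + 2) with hC3
  have hC3p : 0 < C3 := by positivity
  set CC : ℝ := C3 * C2 * 4 ^ ((k : ℝ) + 2) + 2 * C3 + 4 with hCC
  have hCCp : 0 < CC := by positivity
  refine ⟨c, CC, A + 1, 10, hc, hCCp, by linarith, le_refl _, ?_⟩
  intro T σ x0 y b hT hy hσ1 hσ2 hx0 hx01 hb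
  have hT0 : 0 < T := by linarith
  have hT1 : 1 ≤ T := by linarith
  have hy' : (1 : ℝ) ≤ y := by exact_mod_cast hy
  set m : ℝ := 2 * σ + k - 1 with hm
  have hmk : (k : ℝ) ≤ m := by rw [hm]; linarith
  have hm1 : 1 ≤ m := by linarith
  have hm2 : m ≤ k + 2 := by rw [hm]; linarith
  have hm1' : 2 * σ + k - 2 = m - 1 := by rw [hm]; ring
  set S2 : ℝ := ∑ h ∈ Finset.Icc 1 y, ‖b h‖ ^ 2 with hS2
  have hS20 : 0 ≤ S2 := Finset.sum_nonneg fun h _ => by positivity
  set f : ℝ → ℝ := fun x => ‖GF k y lam b (ray (1 / T) x)‖ ^ 2 * x ^ (2 * σ + k - 2) with hf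
  have hδs : 0 < Real.sin (1 / T) := by
    apply Real.sin_pos_of_pos_of_lt_pi (by positivity)
    have : 1 / T ≤ 1 / 10 := one_div_le_one_div_of_le (by norm_num) hT
    linarith [Real.pi_gt_three]
  have hrc : Continuous (ray (1 / T)) := by unfold ray; fun_prop
  have hg : ContinuousOn (fun x : ℝ => ‖GF k y lam b (ray (1 / T) x)‖ ^ 2) (Set.Ioi 0) := by
    intro x hx
    have hx' : (0 : ℝ) < x := hx
    have hre : 0 < (ray (1 / T) x).re := by rw [ray_re]; positivity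
    exact (((GF_diff hF y b hre).continuousAt.comp hrc.continuousAt).norm.pow 2).continuousWithinAt
  have hfc : ContinuousOn f (Set.Ioi 0) := by
    refine hg.mul ?_
    intro x hx
    have hx' : (0 : ℝ) < x := hx
    exact (Real.continuousAt_rpow_const x _ (Or.inl hx'.ne')).continuousWithinAt
  have hfnn : ∀ x : ℝ, 0 < x → 0 ≤ f x := fun x hx => by rw [hf]; positivity
  -- dyadic points
  set X : ℕ → ℝ := fun j => 2 ^ j * x0 with hX
  have hX0 : ∀ j, 0 < X j := fun j => by rw [hX]; positivity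
  have hXs : ∀ j, X (j + 1) = 2 * X j := fun j => by rw [hX]; simp only; rw [pow_succ]; ring
  have hXge : ∀ j, x0 ≤ X j := by
    intro j
    rw [hX]
    have : (1 : ℝ) ≤ 2 ^ j := one_le_pow₀ (by norm_num)
    nlinarith
  have hsub : ∀ a b : ℝ, 0 < a → a ≤ b → Set.uIcc a b ⊆ Set.Ioi 0 := by
    intro a b ha hab x hx
    rw [Set.uIcc_of_le hab] at hx
    exact lt_of_lt_of_le ha hx.1
  have hXle : ∀ j, X j ≤ X (j + 1) := fun j => by rw [hXs]; linarith [hX0 j]
  have hint : ∀ j, IntervalIntegrable f volume (X j) (X (j + 1)) := fun j =>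
    (hfc.mono (hsub _ _ (hX0 j) (hXle j))).intervalIntegrable
  -- one block
  set M : ℕ → ℝ := fun j => ∑' n : ℕ, ‖pc k lam b n‖ ^ 2 * Real.exp (-(n * X j / (2 * T))) with hM
  set Er : ℕ → ℝ := fun j => if X j < 1 then (y / X j) ^ A * T ^ ((k : ℝ) - c) * S2 else 0 with hEr
  have hM0 : ∀ j, 0 ≤ M j := fun j => tsum_nonneg fun n => by positivity
  have hEr0 : ∀ j, 0 ≤ Er j := by
    intro j
    rw [hEr]
    simp only
    have := hX0 j
    split_ifs <;> positivity
  have hone : ∀ j, ∫ x in (X j)..(X (j + 1)), f x ≤ C3 * (X j ^ m * (M j + Er j)) := by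
    intro j
    have h1 := hblock T (X j) y b hT (hX0 j) hy hb
    rw [← hXs] at h1
    have h2 : ∫ x in (X j)..(X (j + 1)), f x ≤
        ∫ x in (X j)..(X (j + 1)), ‖GF k y lam b (ray (1 / T) x)‖ ^ 2 * (X (j + 1)) ^ (m - 1) := by
      apply intervalIntegral.integral_mono_on (hXle j) (hint j)
      · exact ((hg.mono (hsub _ _ (hX0 j) (hXle j))).intervalIntegrable).mul_const _
      · intro x hx
        rw [hf]
        simp only
        rw [hm1']
        apply mul_le_mul_of_nonneg_left _ (by positivity)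
        exact Real.rpow_le_rpow ((hX0 j).le.trans hx.1) hx.2 (by linarith)
    rw [intervalIntegral.integral_mul_const] at h2
    refine h2.trans ?_
    have hXp : 0 < X (j + 1) ^ (m - 1) := Real.rpow_pos_of_pos (hX0 _) _
    refine (mul_le_mul_of_nonneg_right h1 hXp.le).trans ?_
    rw [hXs, Real.mul_rpow (by norm_num) (hX0 j).le]
    have e1 : (2 : ℝ) ^ (m - 1) ≤ 2 ^ ((k : ℝ) + 2) :=
      Real.rpow_le_rpow_of_exponent_le (by norm_num) (by linarith)
    have e2 : X j ^ m = X j ^ (m - 1) * X j := by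
      have h := Real.rpow_sub_one (hX0 j).ne' m
      rw [h, div_mul_cancel₀ _ (hX0 j).ne']
    have e3 : 0 ≤ M j + Er j := add_nonneg (hM0 j) (hEr0 j)
    have e4 : 0 < X j ^ (m - 1) := Real.rpow_pos_of_pos (hX0 _) _
    rw [e2, hC3]
    calc C1 * X j * (M j + Er j) * (2 ^ (m - 1) * X j ^ (m - 1))
        ≤ C1 * X j * (M j + Er j) * (2 ^ ((k : ℝ) + 2) * X j ^ (m - 1)) := by
          apply mul_le_mul_of_nonneg_left _ (mul_nonneg (mul_nonneg hC1.le (hX0 j).le) e3)
          exact mul_le_mul_of_nonneg_right e1 e4.le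
      _ = _ := by ring
  -- the main sum
  set W : ℝ := ∑' n : ℕ, if n ≤ 1 then 0 else ‖cn lam b n‖ ^ 2 * (n : ℝ) ^ (-(2 * σ)) *
        Real.exp (-(n * x0 / (CC * T))) with hW
  have hsumQ : ∀ v : ℝ, 0 < v → Summable (fun n : ℕ => ‖pc k lam b n‖ ^ 2 * Real.exp (-(n * v))) := by
    intro v hv
    refine (GF_parseval hF y b hb (v := v / 2) (by positivity)).1.congr fun n => ?_
    congr 3
    ring
  have hWs : Summable (fun n : ℕ => if n ≤ 1 then 0 else ‖cn lam b n‖ ^ 2 * (n : ℝ) ^ (-(2 * σ)) *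
        Real.exp (-(n * x0 / (CC * T)))) := by
    refine Summable.of_nonneg_of_le (fun n => by split_ifs <;> positivity) (fun n => ?_)
      (hsumQ (x0 / (CC * T)) (by positivity))
    rw [pc_sq]
    split_ifs with h
    · simp
    · have hn : (1 : ℝ) ≤ n := by exact_mod_cast (by omega : 1 ≤ n)
      have e1 : (n : ℝ) ^ (-(2 * σ)) ≤ (n : ℝ) ^ ((k : ℝ) - 1) :=
        Real.rpow_le_rpow_of_exponent_le hn (by linarith)
      have e2 : Real.exp (-(n * x0 / (CC * T))) = Real.exp (-(n * (x0 / (CC * T)))) := by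
        congr 2; ring
      rw [e2, mul_comm ((n : ℝ) ^ ((k : ℝ) - 1))]
      gcongr
  have hW0 : 0 ≤ W := tsum_nonneg fun n => by split_ifs <;> positivity
  have hmain : ∀ J : ℕ, ∑ j ∈ Finset.range J, X j ^ m * M j ≤ C2 * 4 ^ ((k : ℝ) + 2) * T ^ m * W := by
    intro J
    rw [hM]
    simp only
    have e1 : ∀ j, X j ^ m * ∑' n : ℕ, ‖pc k lam b n‖ ^ 2 * Real.exp (-(n * X j / (2 * T))) =
        ∑' n : ℕ, X j ^ m * (‖pc k lam b n‖ ^ 2 * Real.exp (-(n * X j / (2 * T)))) := fun j =>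
      tsum_mul_left.symm
    simp_rw [e1]
    have hs1 : ∀ j, Summable (fun n : ℕ =>
        X j ^ m * (‖pc k lam b n‖ ^ 2 * Real.exp (-(n * X j / (2 * T))))) := by
      intro j
      refine Summable.mul_left _ ?_
      refine (hsumQ (X j / (2 * T)) (by have := hX0 j; positivity)).congr fun n => ?_
      congr 3
      ring
    rw [← Summable.tsum_finsetSum (fun j _ => hs1 j), hW, ← tsum_mul_left]
    refine Summable.tsum_le_tsum (fun n => ?_) (summable_sum fun j _ => hs1 j) (hWs.mul_left _)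
    rw [pc_sq]
    split_ifs with h
    · simp
    · have hn0 : (0 : ℝ) < n := by exact_mod_cast (by omega : 0 < n)
      have e2 : ∀ j, X j ^ m * ((n : ℝ) ^ ((k : ℝ) - 1) * ‖cn lam b n‖ ^ 2 *
          Real.exp (-(n * X j / (2 * T)))) ≤ (n : ℝ) ^ ((k : ℝ) - 1) * ‖cn lam b n‖ ^ 2 *
          Real.exp (-(n * x0 / (4 * T))) * ((2 ^ j * x0) ^ m *
            Real.exp (-((n / (4 * T)) * (2 ^ j * x0)))) := by
        intro j
        have e3 : Real.exp (-(n * X j / (2 * T))) ≤ Real.exp (-(n * x0 / (4 * T))) *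
            Real.exp (-((n / (4 * T)) * (2 ^ j * x0))) := by
          rw [← Real.exp_add]
          apply Real.exp_le_exp.2
          have e4 : n * x0 / (4 * T) ≤ n * X j / (4 * T) := by
            have := hXge j
            gcongr
          have e5 : n * X j / (2 * T) = n * X j / (4 * T) + n * X j / (4 * T) := by
            field_simp; ring
          have e6 : (n / (4 * T)) * (2 ^ j * x0) = n * X j / (4 * T) := by
            rw [hX]; ring
          rw [e6, e5]
          linarith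
        calc X j ^ m * ((n : ℝ) ^ ((k : ℝ) - 1) * ‖cn lam b n‖ ^ 2 *
          Real.exp (-(n * X j / (2 * T)))) ≤ X j ^ m * ((n : ℝ) ^ ((k : ℝ) - 1) * ‖cn lam b n‖ ^ 2 *
            (Real.exp (-(n * x0 / (4 * T))) * Real.exp (-((n / (4 * T)) * (2 ^ j * x0))))) := by
              apply mul_le_mul_of_nonneg_left _ (Real.rpow_nonneg (hX0 j).le _)
              exact mul_le_mul_of_nonneg_left e3 (by positivity)
          _ = _ := by rw [hX]; ring
      refine (Finset.sum_le_sum fun j _ => e2 j).trans ?_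
      rw [← Finset.mul_sum]
      have hd := hdy m (n / (4 * T)) x0 J hm1 (by push_cast; exact hm2) (by positivity) hx0
      refine (mul_le_mul_of_nonneg_left hd (by positivity)).trans ?_
      have e7 : ((n : ℝ) / (4 * T)) ^ (-m) = (n : ℝ) ^ (-m) * (4 ^ m * T ^ m) := by
        rw [Real.div_rpow hn0.le (by positivity), Real.rpow_neg (x := 4 * T) (by positivity),
          div_inv_eq_mul, Real.mul_rpow (by norm_num) hT0.le]
      have e8 : (n : ℝ) ^ ((k : ℝ) - 1) * (n : ℝ) ^ (-m) = (n : ℝ) ^ (-(2 * σ)) := by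
        rw [← Real.rpow_add hn0]
        congr 1
        rw [hm]; ring
      have e9 : (4 : ℝ) ^ m ≤ 4 ^ ((k : ℝ) + 2) :=
        Real.rpow_le_rpow_of_exponent_le (by norm_num) hm2
      have e10 : Real.exp (-(n * x0 / (4 * T))) ≤ Real.exp (-(n * x0 / (CC * T))) := by
        apply Real.exp_le_exp.2
        have : n * x0 / (CC * T) ≤ n * x0 / (4 * T) := by
          have : 4 ≤ CC := by
            rw [hCC]
            have : 0 < C3 * C2 * 4 ^ ((k : ℝ) + 2) := by positivity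
            linarith
          gcongr
        linarith
      rw [e7]
      calc (n : ℝ) ^ ((k : ℝ) - 1) * ‖cn lam b n‖ ^ 2 * Real.exp (-(n * x0 / (4 * T))) *
            (C2 * ((n : ℝ) ^ (-m) * (4 ^ m * T ^ m)))
          = C2 * 4 ^ m * T ^ m * (‖cn lam b n‖ ^ 2 * ((n : ℝ) ^ ((k : ℝ) - 1) * (n : ℝ) ^ (-m)) *
            Real.exp (-(n * x0 / (4 * T)))) := by ring
        _ = C2 * 4 ^ m * T ^ m * (‖cn lam b n‖ ^ 2 * (n : ℝ) ^ (-(2 * σ)) *
            Real.exp (-(n * x0 / (4 * T)))) := by rw [e8]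
        _ ≤ C2 * 4 ^ ((k : ℝ) + 2) * T ^ m * (‖cn lam b n‖ ^ 2 * (n : ℝ) ^ (-(2 * σ)) *
            Real.exp (-(n * x0 / (CC * T)))) := by gcongr
  -- the error terms
  have herr : ∀ J : ℕ, ∑ j ∈ Finset.range J, X j ^ m * Er j ≤
      2 * (T ^ m * (T ^ (-c) * (y / x0) ^ (A + 1) * S2)) := by
    intro J
    set E0 : ℝ := (y / x0) ^ A * T ^ ((k : ℝ) - c) * S2 with hE0
    have hE00 : 0 ≤ E0 := by positivity
    set J0 : ℕ := ⌈1 / x0⌉₊ with hJ0
    have hx0' : 1 ≤ 1 / x0 := by rw [le_div_iff₀ hx0]; linarith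
    have hJ0le : (J0 : ℝ) ≤ 2 * (1 / x0) := by
      have : (J0 : ℝ) < 1 / x0 + 1 := Nat.ceil_lt_add_one (by positivity)
      linarith
    have hterm : ∀ j, X j ^ m * Er j ≤ if j < J0 then E0 else 0 := by
      intro j
      rw [hEr]
      simp only
      by_cases hXj : X j < 1
      · have hj : j < J0 := by
          have h1 : (j : ℝ) < 2 ^ j := by exact_mod_cast Nat.lt_two_pow_self
          have h2 : (2 : ℝ) ^ j < 1 / x0 := by
            rw [lt_div_iff₀ hx0]
            exact hXj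
          have h3 : (j : ℝ) < (J0 : ℝ) := h1.trans (h2.trans_le (Nat.le_ceil _))
          exact_mod_cast h3
        rw [if_pos hXj, if_pos hj]
        have h4 : X j ^ m ≤ 1 := Real.rpow_le_one (hX0 j).le hXj.le (by linarith)
        have h5 : (y / X j) ^ A ≤ (y / x0) ^ A := by
          have := hXge j
          apply Real.rpow_le_rpow (by have := hX0 j; positivity) _ (by linarith)
          gcongr
        have h6 : (y / X j) ^ A * T ^ ((k : ℝ) - c) * S2 ≤ E0 := by
          rw [hE0]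
          gcongr
        have h7 : 0 ≤ (y / X j) ^ A * T ^ ((k : ℝ) - c) * S2 := by
          have := hX0 j; positivity
        calc _ ≤ 1 * ((y / X j) ^ A * T ^ ((k : ℝ) - c) * S2) := mul_le_mul_of_nonneg_right h4 h7
          _ ≤ E0 := by rw [one_mul]; exact h6
      · rw [if_neg hXj, mul_zero]
        split_ifs
        · exact hE00
        · exact le_refl _
    calc _ ≤ ∑ j ∈ Finset.range J, if j < J0 then E0 else 0 := Finset.sum_le_sum fun j _ => hterm j
      _ = ((Finset.range J).filter (fun j => j < J0)).card * E0 := by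
          rw [← Finset.sum_filter, Finset.sum_const, nsmul_eq_mul]
      _ ≤ (J0 : ℝ) * E0 := by
          apply mul_le_mul_of_nonneg_right _ hE00
          have : ((Finset.range J).filter (fun j => j < J0)).card ≤ (Finset.range J0).card := by
            apply Finset.card_le_card
            intro j hj
            rw [Finset.mem_filter] at hj
            exact Finset.mem_range.2 hj.2
          rw [Finset.card_range] at this
          exact_mod_cast this
      _ ≤ (2 * (y / x0)) * E0 := by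
          apply mul_le_mul_of_nonneg_right _ hE00
          calc (J0 : ℝ) ≤ 2 * (1 / x0) := hJ0le
            _ ≤ 2 * (y / x0) := by gcongr
      _ = 2 * (T ^ ((k : ℝ) - c) * ((y / x0) ^ A * (y / x0)) * S2) := by rw [hE0]; ring
      _ ≤ 2 * ((T ^ m * T ^ (-c)) * (y / x0) ^ (A + 1) * S2) := by
          have g1 : T ^ ((k : ℝ) - c) ≤ T ^ m * T ^ (-c) := by
            rw [← Real.rpow_add hT0]
            exact Real.rpow_le_rpow_of_exponent_le hT1 (by linarith)
          have g2 : (y / x0 : ℝ) ^ (A + 1) = (y / x0) ^ A * (y / x0) := by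
            rw [Real.rpow_add (by positivity), Real.rpow_one]
          rw [g2]
          gcongr
      _ = _ := by ring
  -- the total over finitely many blocks
  set BIG : ℝ := CC * T ^ m * (W + T ^ (-c) * (y / x0) ^ (A + 1) * S2) with hBIG
  have htot : ∀ J : ℕ, ∫ x in x0..(X J), f x ≤ BIG := by
    intro J
    have h1 : ∑ j ∈ Finset.range J, ∫ x in (X j)..(X (j + 1)), f x = ∫ x in (X 0)..(X J), f x :=
      intervalIntegral.sum_integral_adjacent_intervals (fun j _ => hint j)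
    have hX00 : X 0 = x0 := by rw [hX]; simp
    rw [← hX00, ← h1]
    calc _ ≤ ∑ j ∈ Finset.range J, C3 * (X j ^ m * (M j + Er j)) :=
          Finset.sum_le_sum fun j _ => hone j
      _ = C3 * ((∑ j ∈ Finset.range J, X j ^ m * M j) + ∑ j ∈ Finset.range J, X j ^ m * Er j) := by
          rw [← Finset.sum_add_distrib, Finset.mul_sum]
          refine Finset.sum_congr rfl fun j _ => ?_
          ring
      _ ≤ C3 * (C2 * 4 ^ ((k : ℝ) + 2) * T ^ m * W +
          2 * (T ^ m * (T ^ (-c) * (y / x0) ^ (A + 1) * S2))) := by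
          apply mul_le_mul_of_nonneg_left _ hC3p.le
          exact add_le_add (hmain J) (herr J)
      _ = (C3 * C2 * 4 ^ ((k : ℝ) + 2)) * (T ^ m * W) +
          (2 * C3) * (T ^ m * (T ^ (-c) * (y / x0) ^ (A + 1) * S2)) := by ring
      _ ≤ CC * (T ^ m * W) + CC * (T ^ m * (T ^ (-c) * (y / x0) ^ (A + 1) * S2)) := by
          apply add_le_add
          · apply mul_le_mul_of_nonneg_right _ (by positivity)
            rw [hCC]; linarith
          · apply mul_le_mul_of_nonneg_right _ (by positivity)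
            rw [hCC]
            have : 0 < C3 * C2 * 4 ^ ((k : ℝ) + 2) := by positivity
            linarith
      _ = BIG := by rw [hBIG]; ring
  -- passage to the limit
  have htend : Filter.Tendsto X Filter.atTop Filter.atTop := by
    rw [hX]
    exact (tendsto_pow_atTop_atTop_of_one_lt (by norm_num : (1 : ℝ) < 2)).atTop_mul_const hx0
  have hsubI : ∀ j, Set.Icc x0 (X j) ⊆ Set.Ioi 0 := fun j x hx => lt_of_lt_of_le hx0 hx.1
  have hfi : ∀ j, IntegrableOn f (Set.Ioc x0 (X j)) := fun j =>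
    ((hfc.mono (hsubI j)).integrableOn_Icc).mono_set Set.Ioc_subset_Icc_self
  have hnorm : ∀ j, ∫ x in x0..(X j), ‖f x‖ = ∫ x in x0..(X j), f x := by
    intro j
    refine intervalIntegral.integral_congr fun x hx => ?_
    rw [Set.uIcc_of_le (hXge j)] at hx
    exact Real.norm_of_nonneg (hfnn x (lt_of_lt_of_le hx0 hx.1))
  have hI : IntegrableOn f (Set.Ioi x0) :=
    integrableOn_Ioi_of_intervalIntegral_norm_bounded BIG x0 hfi htend
      (Filter.Eventually.of_forall fun j => by rw [hnorm]; exact htot j)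
  refine ⟨hI, ?_⟩
  have hlim := intervalIntegral_tendsto_integral_Ioi x0 hI htend
  exact le_of_tendsto' hlim htot

end Pool.Agent.Y412.GLP
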