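import Pool.Agent.Y671.GL.Spec4

set_option autoImplicit false

/-!
# GD2, task HSZ: size of `F z = X (z / (2 κ))`
-/

namespace Pool.Agent.Y412.GL.HSZ

open Complex Filter Topology MeasureTheory Set
open scoped ComplexConjugate
open Pool.Agent.H24R2.JP (Om)
open Pool.Agent.Y671.GL

/-- growth from a bound for the logarithmic derivative along a segment -/
lemma seg_le {H : ℂ → ℂ} {a u : ℂ} {lam K : ℝ}
    (hd : ∀ s : ℝ, 0 ≤ s → s ≤ 1 → DifferentiableAt ℂ H (a + s * u) ∧ H (a + s * u) ≠ 0 ∧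
      ‖logDeriv H (a + s * u) - (lam : ℂ)‖ ≤ K) :
    ‖H (a + u)‖ ≤ Real.exp (lam * u.re + K * ‖u‖) * ‖H a‖ := by
  set f : ℝ → ℂ := fun s => H (a + s * u) * cexp (-(lam * s * u)) with hf
  set f' : ℝ → ℂ := fun s => (u * (logDeriv H (a + s * u) - (lam : ℂ))) * f s with hf'
  have hder : ∀ s : ℝ, 0 ≤ s → s ≤ 1 → HasDerivAt f (f' s) s := by
    intro s h0 h1
    obtain ⟨hd1, hd2, -⟩ := hd s h0 h1
    have e1 : HasDerivAt (fun s : ℝ => a + (s : ℂ) * u) u s := by
      have := ((hasDerivAt_id (s : ℂ)).comp_ofReal.mul_const u).const_add a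
      simpa using this
    have e2 : HasDerivAt (fun s : ℝ => H (a + (s : ℂ) * u)) (deriv H (a + s * u) * u) s := by
      have := HasDerivAt.comp (h₂ := H) s (hd1.hasDerivAt) e1
      simpa [Function.comp_def] using this
    have e3 : HasDerivAt (fun s : ℝ => -((lam : ℂ) * (s : ℂ) * u)) (-((lam : ℂ) * u)) s := by
      have := (((hasDerivAt_id (s : ℂ)).comp_ofReal.const_mul (lam : ℂ)).mul_const u).fun_neg
      simpa using this
    have e4 := e2.mul e3.cexp
    have e5 : f' s = deriv H (a + s * u) * u * cexp (-((lam : ℂ) * (s : ℂ) * u)) +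
        H (a + s * u) * (cexp (-((lam : ℂ) * (s : ℂ) * u)) * -((lam : ℂ) * u)) := by
      have e6 : logDeriv H (a + s * u) * H (a + s * u) = deriv H (a + s * u) := by
        rw [logDeriv_apply, div_mul_cancel₀ _ hd2]
      simp only [hf', hf]
      linear_combination (u * cexp (-((lam : ℂ) * (s : ℂ) * u))) * e6
    rw [e5]
    exact e4
  have hcont : ContinuousOn f (Icc 0 1) := fun s hs =>
    (hder s hs.1 hs.2).continuousAt.continuousWithinAt
  have hb := norm_le_gronwallBound_of_norm_deriv_right_le (f := f) (f' := f') (δ := ‖f 0‖)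
    (K := ‖u‖ * K) (ε := 0) (a := 0) (b := 1) hcont
    (fun x hx => (hder x hx.1 hx.2.le).hasDerivWithinAt) le_rfl
    (by
      intro x hx
      rw [add_zero]
      simp only [hf']
      rw [norm_mul, norm_mul]
      have := (hd x hx.1 hx.2.le).2.2
      gcongr) 1 ⟨zero_le_one, le_rfl⟩
  rw [gronwallBound_ε0, sub_zero, mul_one] at hb
  have h0 : ‖f 0‖ = ‖H a‖ := by simp [hf]
  have h1 : ‖f 1‖ = ‖H (a + u)‖ * Real.exp (-(lam * u.re)) := by
    simp only [hf]
    rw [norm_mul, Complex.norm_exp]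
    simp
  rw [h0, h1] at hb
  have h2 : ‖H (a + u)‖ = ‖H (a + u)‖ * Real.exp (-(lam * u.re)) * Real.exp (lam * u.re) := by
    rw [mul_assoc, ← Real.exp_add]; simp
  rw [h2]
  calc ‖H (a + u)‖ * Real.exp (-(lam * u.re)) * Real.exp (lam * u.re)
      ≤ (‖H a‖ * Real.exp (‖u‖ * K)) * Real.exp (lam * u.re) := by gcongr
    _ = Real.exp (lam * u.re + K * ‖u‖) * ‖H a‖ := by
      rw [Real.exp_add, mul_comm K]; ring

lemma gamH {κ : ℝ} {H X Z : ℂ → ℂ} (h : CG κ H X Z) : ∃ K T0 : ℝ, 1 ≤ K ∧ 2 ≤ T0 ∧ ∀ t : ℝ, T0 ≤ t →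
    Real.exp (-(K * t)) ≤ ‖H (I * t)‖ ∧ ∀ u : ℂ, ‖u‖ ≤ t / 8 →
      ‖H (I * t + u)‖ ≤ Real.exp (κ * Real.log t * u.re + K * ‖u‖) * ‖H (I * t)‖ ∧
      Real.exp (κ * Real.log t * u.re - K * ‖u‖) * ‖H (I * t)‖ ≤ ‖H (I * t + u)‖ ∧
      DifferentiableAt ℂ H (I * t + u) ∧ H (I * t + u) ≠ 0 ∧
      ‖logDeriv H (I * t + u) - ((κ * Real.log t : ℝ) : ℂ)‖ ≤ K := by
  obtain ⟨K, T0, hK, hT0, hh⟩ := h.gam2
  refine ⟨K, T0, hK, hT0, fun t ht => ⟨(hh t ht).1, fun u hu => ?_⟩⟩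
  have hseg : ∀ s : ℝ, 0 ≤ s → s ≤ 1 → ‖(s : ℂ) * u‖ ≤ t / 8 := by
    intro s h0 h1
    rw [norm_mul, Complex.norm_real, Real.norm_of_nonneg h0]
    have := norm_nonneg u
    nlinarith
  have a1 := seg_le (H := H) (a := I * t) (u := u) (lam := κ * Real.log t) (K := K)
    (fun s h0 h1 => (hh t ht).2 _ (hseg s h0 h1))
  have a2 := seg_le (H := H) (a := I * t + u) (u := -u) (lam := κ * Real.log t) (K := K)
    (fun s h0 h1 => by
      have := (hh t ht).2 _ (hseg (1 - s) (by linarith) (by linarith))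
      have e : I * (t : ℂ) + u + (s : ℂ) * -u = I * t + ((1 - s : ℝ) : ℂ) * u := by push_cast; ring
      rw [e]; exact this)
  obtain ⟨b1, b2, b3⟩ := (hh t ht).2 u hu
  refine ⟨a1, ?_, b1, b2, b3⟩
  rw [add_neg_cancel_right] at a2
  calc Real.exp (κ * Real.log t * u.re - K * ‖u‖) * ‖H (I * t)‖
      ≤ Real.exp (κ * Real.log t * u.re - K * ‖u‖) *
        (Real.exp (κ * Real.log t * (-u).re + K * ‖-u‖) * ‖H (I * t + u)‖) := by gcongr
    _ = ‖H (I * t + u)‖ := by
      rw [← mul_assoc, ← Real.exp_add, norm_neg, neg_re]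
      rw [show κ * Real.log t * u.re - K * ‖u‖ + (κ * Real.log t * -u.re + K * ‖u‖) = 0 by ring]
      simp

/-- polynomial bound for `Z` in a right half strip -/
lemma Zle {κ : ℝ} {H X Z : ℂ → ℂ} (h : CG κ H X Z) (ρ : ℝ) (hρ : 0 ≤ ρ) : ∃ K T0 : ℝ, 0 < K ∧ 2 ≤ T0 ∧
    ∀ (t : ℝ) (u : ℂ), T0 ≤ t → 0 ≤ u.re → |u.im| ≤ ρ →
      ‖Z (1 / 2 + (I * t + u))‖ ≤ Real.exp (K * Real.log t) := by
  obtain ⟨K, T0, hK, hT0, hg⟩ := h.cf.gro (ρ + 1) (by linarith)
  obtain ⟨c, K3, hc, hK3, hr⟩ := h.cf.rgt (1 / 2) (by norm_num)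
  refine ⟨K + 2 * K3, T0, by positivity, hT0, fun t u ht hu0 hu1 => ?_⟩
  have ht0 : 0 < t := by linarith
  have hlog : 1 / 2 ≤ Real.log t := by
    have h2 : Real.log 2 ≤ Real.log t := Real.log_le_log (by norm_num) (by linarith)
    have := Real.log_two_gt_d9
    linarith
  rcases le_total u.re 1 with h1 | h1
  · have hn : ‖u‖ ≤ ρ + 1 := by
      have := Complex.norm_le_abs_re_add_abs_im u
      rw [abs_of_nonneg hu0] at this
      linarith
    refine (hg t u ht hn).trans ?_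
    rw [Real.rpow_def_of_pos ht0, Real.exp_le_exp]
    nlinarith
  · have h2 := (hr (1 / 2 + (I * t + u)) (by simp; linarith)).2.1
    refine h2.trans ?_
    have h3 : K3 ≤ Real.exp K3 := by linarith [Real.add_one_le_exp K3]
    refine h3.trans (Real.exp_le_exp.2 ?_)
    nlinarith

section main

variable {κ : ℝ} {H X Z : ℂ → ℂ} {F : ℂ → ℂ} {h : ℝ → ℝ}

lemma Fval (hF : F = (fun z => X (z / (2 * κ)))) (t : ℝ) (u : ℂ) :
    F (I * t + u) = X (I * ((t / (2 * κ) : ℝ) : ℂ) + u / ((2 * κ : ℝ) : ℂ)) := by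
  rw [hF]
  have e : (I * (t : ℂ) + u) / (2 * κ) = I * ((t / (2 * κ) : ℝ) : ℂ) + u / ((2 * κ : ℝ) : ℂ) := by
    push_cast
    ring
  simp only [e]

lemma hval (hh : h = (fun t : ℝ => if 0 < ‖H (I * t / (2 * κ))‖ then
    ‖H (I * t / (2 * κ))‖ else 1)) (t : ℝ) (h0 : 0 < ‖H (I * ((t / (2 * κ) : ℝ) : ℂ))‖) :
    h t = ‖H (I * ((t / (2 * κ) : ℝ) : ℂ))‖ := by
  have e : I * (t : ℂ) / (2 * κ) = I * ((t / (2 * κ) : ℝ) : ℂ) := by push_cast; ring
  rw [hh]
  simp only [e]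
  rw [if_pos h0]

lemma nrm_div (hκ : 1 / 2 ≤ κ) (u : ℂ) : ‖u / ((2 * κ : ℝ) : ℂ)‖ = ‖u‖ / (2 * κ) := by
  rw [norm_div, Complex.norm_real, Real.norm_of_nonneg (by linarith)]

lemma div_le (hκ : 1 / 2 ≤ κ) {x : ℝ} (hx : 0 ≤ x) : x / (2 * κ) ≤ x :=
  div_le_self hx (by linarith)

lemma symF (hX : ∀ z : ℂ, X (-(conj z)) = conj (X z)) (hF : F = (fun z => X (z / (2 * κ)))) (t : ℝ) (u : ℂ) :
    ‖F (I * t + u)‖ = ‖F (I * t + -(conj u))‖ := by
  have e : (I * (t : ℂ) + -(conj u)) / (2 * κ) = -(conj ((I * (t : ℂ) + u) / (2 * κ))) := by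
    simp only [map_div₀, map_add, map_mul, conj_I, conj_ofReal, map_ofNat]
    ring
  rw [hF]
  simp only [e]
  rw [hX, Complex.norm_conj]

/-- the basic estimates -/
lemma core (hκ : 1 / 2 ≤ κ) (hC : CG κ H X Z) (hF : F = (fun z => X (z / (2 * κ))))
    (hh : h = (fun t : ℝ => if 0 < ‖H (I * t / (2 * κ))‖ then ‖H (I * t / (2 * κ))‖ else 1)) :
    ∃ K T0 : ℝ, 1 ≤ K ∧ 1 ≤ T0 ∧ ∀ t : ℝ, T0 ≤ t → Real.exp (-(K * t)) ≤ h t ∧
      ∀ u w : ℂ, ‖u‖ ≤ t / 8 → w = I * ((t / (2 * κ) : ℝ) : ℂ) + u / ((2 * κ : ℝ) : ℂ) →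
        ‖H w‖ ≤ Real.exp (Om t * u.re + K * ‖u‖) * h t ∧
        Real.exp (Om t * u.re - K * ‖u‖) * h t ≤ ‖H w‖ ∧
        DifferentiableAt ℂ H w ∧ H w ≠ 0 ∧
        ‖logDeriv H w - ((κ * Real.log (t / (2 * κ)) : ℝ) : ℂ)‖ ≤ K ∧
        F (I * t + u) = H w * Z (1 / 2 + w) ∧ 0 < w.im := by
  obtain ⟨K, T1, hK, hT1, hg⟩ := gamH hC
  have hk0 : (0 : ℝ) < 2 * κ := by linarith
  have hlk : 0 ≤ Real.log (2 * κ) := Real.log_nonneg (by linarith)
  refine ⟨K + Real.log (2 * κ), 2 * κ * T1, by linarith, by nlinarith, fun t ht => ?_⟩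
  have ht1 : T1 ≤ t / (2 * κ) := by rw [le_div_iff₀ hk0]; linarith
  have ht0 : 0 < t := by nlinarith
  obtain ⟨g1, g2⟩ := hg _ ht1
  have hH0 : H (I * ((t / (2 * κ) : ℝ) : ℂ)) ≠ 0 := by
    have := (g2 0 (by simp; positivity)).2.2.2.1
    simpa using this
  have hv := hval hh t (norm_pos_iff.2 hH0)
  have hdl : t / (2 * κ) ≤ t := div_le hκ ht0.le
  refine ⟨?_, ?_⟩
  · rw [hv]
    refine le_trans (Real.exp_le_exp.2 ?_) g1
    have : K * (t / (2 * κ)) ≤ K * t := by gcongr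
    nlinarith
  · intro u w hu hw
    have hn := nrm_div hκ u
    have hre : (u / ((2 * κ : ℝ) : ℂ)).re = u.re / (2 * κ) := Complex.div_ofReal_re _ _
    have him : (u / ((2 * κ : ℝ) : ℂ)).im = u.im / (2 * κ) := Complex.div_ofReal_im _ _
    have hu' : ‖u / ((2 * κ : ℝ) : ℂ)‖ ≤ t / (2 * κ) / 8 := by
      rw [hn, div_div, mul_comm (2 * κ) 8, ← div_div t]
      exact div_le_div_of_nonneg_right hu hk0.le
    obtain ⟨b1, b2, b3, b4, b5⟩ := g2 _ hu'
    rw [← hw] at b1 b2 b3 b4 b5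
    have hlog : Real.log (t / (2 * κ)) = Real.log t - Real.log (2 * κ) :=
      Real.log_div ht0.ne' hk0.ne'
    have hnu : 0 ≤ ‖u‖ := norm_nonneg u
    have hur := Complex.abs_re_le_norm u
    have e1 : κ * Real.log (t / (2 * κ)) * (u / ((2 * κ : ℝ) : ℂ)).re =
        Om t * u.re - Real.log (2 * κ) / 2 * u.re := by
      rw [hre, hlog, Om]; field_simp
    have hKn : K * ‖u / ((2 * κ : ℝ) : ℂ)‖ ≤ K * ‖u‖ := by
      rw [hn]; exact mul_le_mul_of_nonneg_left (div_le hκ hnu) (by linarith)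
    have hlu : |Real.log (2 * κ) / 2 * u.re| ≤ Real.log (2 * κ) * ‖u‖ := by
      rw [abs_mul, abs_of_nonneg (by positivity)]
      have : Real.log (2 * κ) / 2 * |u.re| ≤ Real.log (2 * κ) * |u.re| := by
        have := abs_nonneg u.re
        nlinarith
      refine this.trans ?_
      gcongr
    obtain ⟨l1, l2⟩ := abs_le.1 hlu
    have hwim : 0 < w.im := by
      have h1 : w.im = t / (2 * κ) + u.im / (2 * κ) := by
        rw [hw, add_im, him, I_mul_im, ofReal_re]
      have h2 := Complex.abs_im_le_norm u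
      have h3 := neg_abs_le u.im
      rw [h1, ← add_div]
      exact div_pos (by linarith) hk0
    have hKl : (K + Real.log (2 * κ)) * ‖u‖ = K * ‖u‖ + Real.log (2 * κ) * ‖u‖ := by ring
    refine ⟨?_, ?_, b3, b4, b5.trans (by linarith), ?_, hwim⟩
    · rw [hv]
      refine b1.trans (mul_le_mul_of_nonneg_right (Real.exp_le_exp.2 ?_) (norm_nonneg _))
      rw [e1, hKl]
      linarith
    · rw [hv]
      refine le_trans (mul_le_mul_of_nonneg_right (Real.exp_le_exp.2 ?_) (norm_nonneg _)) b2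
      rw [e1, hKl]
      linarith
    · rw [Fval hF, ← hw, hC.cf.eq w hwim]

/-- upper bounds with a polynomial factor -/
lemma upR (hκ : 1 / 2 ≤ κ) (hC : CG κ H X Z) (hF : F = (fun z => X (z / (2 * κ))))
    (hh : h = (fun t : ℝ => if 0 < ‖H (I * t / (2 * κ))‖ then ‖H (I * t / (2 * κ))‖ else 1)) (ρ : ℝ) (hρ : 0 ≤ ρ) :
    ∃ K T0 : ℝ, 1 ≤ K ∧ 1 ≤ T0 ∧ ∀ (t : ℝ) (u : ℂ), T0 ≤ t → |u.im| ≤ ρ → ‖u‖ ≤ t / 8 →
      ‖F (I * t + u)‖ ≤ Real.exp (K * Real.log t) * h t * Real.exp ((Om t + K) * |u.re|) := by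
  obtain ⟨K1, T1, hK1, hT1, hc⟩ := core hκ hC hF hh
  obtain ⟨K2, T2, hK2, hT2, hz⟩ := Zle hC ρ hρ
  have hk0 : (0 : ℝ) < 2 * κ := by linarith
  refine ⟨K1 + K2 + 2 * K1 * ρ, max (max T1 2) (2 * κ * T2), ?_, ?_, ?_⟩
  · have : 0 ≤ K1 * ρ := by positivity
    linarith
  · exact le_max_of_le_left (le_max_of_le_left hT1)
  · intro t
    -- first for `0 ≤ u.re`
    have key : ∀ u : ℂ, max (max T1 2) (2 * κ * T2) ≤ t → |u.im| ≤ ρ → ‖u‖ ≤ t / 8 → 0 ≤ u.re →
        ‖F (I * t + u)‖ ≤ Real.exp ((K1 + K2 + 2 * K1 * ρ) * Real.log t) * h t *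
          Real.exp ((Om t + (K1 + K2 + 2 * K1 * ρ)) * |u.re|) := by
      intro u ht hui hun hur
      have ht1 : T1 ≤ t := (le_max_left _ _).trans ((le_max_left _ _).trans ht)
      have ht2 : 2 ≤ t := (le_max_right _ _).trans ((le_max_left _ _).trans ht)
      have ht3 : T2 ≤ t / (2 * κ) := by
        rw [le_div_iff₀ hk0]; linarith [(le_max_right _ _).trans ht]
      have ht0 : 0 < t := by linarith
      have hlog : 1 / 2 ≤ Real.log t := by
        have h2 : Real.log 2 ≤ Real.log t := Real.log_le_log (by norm_num) ht2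
        have := Real.log_two_gt_d9
        linarith
      obtain ⟨c1, c2⟩ := hc t ht1
      obtain ⟨d1, -, -, -, -, d2, -⟩ := c2 u _ hun rfl
      have hh0 : 0 < h t := (Real.exp_pos _).trans_le c1
      have hre : (u / ((2 * κ : ℝ) : ℂ)).re = u.re / (2 * κ) := Complex.div_ofReal_re _ _
      have him : (u / ((2 * κ : ℝ) : ℂ)).im = u.im / (2 * κ) := Complex.div_ofReal_im _ _
      have hz1 := hz (t / (2 * κ)) (u / ((2 * κ : ℝ) : ℂ)) ht3 (by rw [hre]; positivity)
        (by rw [him, abs_div, abs_of_pos hk0]; exact (div_le hκ (abs_nonneg _)).trans hui)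
      have hlt : Real.log (t / (2 * κ)) ≤ Real.log t :=
        Real.log_le_log (by linarith) (div_le hκ ht0.le)
      have hz2 : ‖Z (1 / 2 + (I * ((t / (2 * κ) : ℝ) : ℂ) + u / ((2 * κ : ℝ) : ℂ)))‖ ≤
          Real.exp (K2 * Real.log t) := hz1.trans (Real.exp_le_exp.2 (by gcongr))
      rw [d2, norm_mul]
      have hnu : ‖u‖ ≤ u.re + ρ := by
        have := Complex.norm_le_abs_re_add_abs_im u
        rw [abs_of_nonneg hur] at this
        linarith
      calc ‖H (I * ((t / (2 * κ) : ℝ) : ℂ) + u / ((2 * κ : ℝ) : ℂ))‖ *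
            ‖Z (1 / 2 + (I * ((t / (2 * κ) : ℝ) : ℂ) + u / ((2 * κ : ℝ) : ℂ)))‖
          ≤ (Real.exp (Om t * u.re + K1 * ‖u‖) * h t) * Real.exp (K2 * Real.log t) := by gcongr
        _ ≤ (Real.exp (Om t * u.re + K1 * (u.re + ρ)) * h t) * Real.exp (K2 * Real.log t) := by gcongr
        _ = Real.exp (K1 * ρ + K2 * Real.log t) * h t * Real.exp ((Om t + K1) * u.re) := by
          rw [show Om t * u.re + K1 * (u.re + ρ) = K1 * ρ + (Om t + K1) * u.re by ring, Real.exp_add,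
            Real.exp_add]
          ring
        _ ≤ _ := by
          rw [abs_of_nonneg hur]
          have e0 : 0 ≤ K1 * ρ := by positivity
          gcongr
          · nlinarith
          · nlinarith
    intro u ht hui hun
    rcases le_total 0 u.re with h0 | h0
    · exact key u ht hui hun h0
    · have := key (-(conj u)) ht (by simpa using hui) (by simpa using hun) (by simpa using h0)
      rw [symF hC.cf.symm hF]
      refine this.trans_eq ?_
      congr 3
      simp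

lemma ldF (hC : CG κ H X Z) (hF : F = (fun z => X (z / (2 * κ)))) {t : ℝ} {u w : ℂ}
    (hw : w = I * ((t / (2 * κ) : ℝ) : ℂ) + u / ((2 * κ : ℝ) : ℂ)) (him : 0 < w.im)
    (hd : DifferentiableAt ℂ H w) (hH : H w ≠ 0) (hZ : Z (1 / 2 + w) ≠ 0) :
    logDeriv F (I * t + u) = ((1 / (2 * κ) : ℝ) : ℂ) * (logDeriv H w + logDeriv Z (1 / 2 + w)) := by
  have hz : (I * (t : ℂ) + u) / (2 * κ) = w := by
    rw [hw]; push_cast; ring
  have hXe : X =ᶠ[𝓝 w] fun v => H v * Z (1 / 2 + v) := by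
    have ho : IsOpen {v : ℂ | 0 < v.im} := isOpen_lt continuous_const Complex.continuous_im
    filter_upwards [ho.mem_nhds him] with v hv using hC.cf.eq v hv
  have hX1 : deriv X w = deriv H w * Z (1 / 2 + w) + H w * deriv Z (1 / 2 + w) := by
    rw [hXe.deriv_eq]
    have e1 : HasDerivAt (fun v : ℂ => Z (1 / 2 + v)) (deriv Z (1 / 2 + w)) w := by
      have := (hC.cf.diffZ (1 / 2 + w)).hasDerivAt.comp_const_add (1 / 2) w
      simpa using this
    exact (hd.hasDerivAt.mul e1).deriv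
  have hX2 : X w = H w * Z (1 / 2 + w) := hC.cf.eq w him
  have hF1 : HasDerivAt F (deriv X w * (1 / (2 * κ))) (I * t + u) := by
    rw [hF]
    have e1 : HasDerivAt (fun z : ℂ => z / (2 * (κ : ℂ))) (1 / (2 * κ)) (I * t + u) :=
      (hasDerivAt_id (I * (t : ℂ) + u)).div_const _
    have e2 : HasDerivAt X (deriv X w) ((I * (t : ℂ) + u) / (2 * κ)) := by
      rw [hz]; exact (hC.cf.diff w).hasDerivAt
    exact HasDerivAt.comp (h₂ := X) (I * (t : ℂ) + u) e2 e1
  have hF2 : F (I * t + u) = X w := by rw [hF]; simp only [hz]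
  rw [logDeriv_apply, logDeriv_apply, logDeriv_apply, hF1.deriv, hF2, hX1, hX2]
  generalize deriv Z (1 / 2 + w) = b
  generalize Z (1 / 2 + w) = a at hZ ⊢
  generalize deriv H w = d
  generalize H w = e at hH ⊢
  push_cast
  field_simp

lemma ldB (hκ : 1 / 2 ≤ κ) (hC : CG κ H X Z) (hF : F = (fun z => X (z / (2 * κ))))
    (hh : h = (fun t : ℝ => if 0 < ‖H (I * t / (2 * κ))‖ then ‖H (I * t / (2 * κ))‖ else 1)) (R : ℝ) :
    ∃ K T0 : ℝ, 1 ≤ K ∧ 1 ≤ T0 ∧ ∀ (t : ℝ) (u : ℂ), T0 ≤ t → ‖u‖ ≤ R → 10 * κ ≤ u.re →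
      F (I * t + u) ≠ 0 ∧ ‖logDeriv F (I * t + u) - (Om t : ℂ)‖ ≤ K ∧
      Real.exp (-(K * Real.log t)) * h t ≤ ‖F (I * t + u)‖ := by
  obtain ⟨K1, T1, hK1, hT1, hc⟩ := core hκ hC hF hh
  obtain ⟨c, K3, hc0, hK3, hr⟩ := hC.cf.rgt (1 / 2) (by norm_num)
  have hk0 : (0 : ℝ) < 2 * κ := by linarith
  have hlk : 0 ≤ Real.log (2 * κ) := Real.log_nonneg (by linarith)
  refine ⟨K1 + K3 + Real.log (2 * κ) + 2 * K1 * |R| + 2 * |Real.log c|, max (max T1 2) (8 * |R|),
    ?_, ?_, fun t u ht hun hure => ?_⟩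
  · have : 0 ≤ K1 * |R| := by positivity
    have := abs_nonneg (Real.log c)
    linarith
  · exact le_max_of_le_left (le_max_of_le_left hT1)
  have ht1 : T1 ≤ t := (le_max_left _ _).trans ((le_max_left _ _).trans ht)
  have ht2 : 2 ≤ t := (le_max_right _ _).trans ((le_max_left _ _).trans ht)
  have ht3 : 8 * |R| ≤ t := (le_max_right _ _).trans ht
  have ht0 : 0 < t := by linarith
  have hlog : 1 / 2 ≤ Real.log t := by
    have h2 : Real.log 2 ≤ Real.log t := Real.log_le_log (by norm_num) ht2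
    have := Real.log_two_gt_d9
    linarith
  have hRR := le_abs_self R
  obtain ⟨c1, c2⟩ := hc t ht1
  have hu8 : ‖u‖ ≤ t / 8 := by linarith
  obtain ⟨-, d1, d2, d3, d4, d5, d6⟩ := c2 u _ hu8 rfl
  set w : ℂ := I * ((t / (2 * κ) : ℝ) : ℂ) + u / ((2 * κ : ℝ) : ℂ) with hw
  have hh0 : 0 < h t := (Real.exp_pos _).trans_le c1
  have hre : w.re = u.re / (2 * κ) := by
    rw [hw, add_re, I_mul_re, ofReal_im, neg_zero, zero_add]; exact Complex.div_ofReal_re _ _
  have hwre : 5 ≤ w.re := by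
    rw [hre, le_div_iff₀ hk0]; linarith
  obtain ⟨r1, r2, r3⟩ := hr (1 / 2 + w) (by simp; linarith)
  have hZ0 : Z (1 / 2 + w) ≠ 0 := norm_pos_iff.1 (hc0.trans_le r1)
  have hld := ldF hC hF hw d6 d2 d3 hZ0
  refine ⟨by rw [d5]; exact mul_ne_zero d3 hZ0, ?_, ?_⟩
  · rw [hld]
    have hlogd : Real.log (t / (2 * κ)) = Real.log t - Real.log (2 * κ) :=
      Real.log_div ht0.ne' hk0.ne'
    have hkc : (κ : ℂ) ≠ 0 := by
      have : κ ≠ 0 := by linarith
      exact_mod_cast this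
    have e : ((1 / (2 * κ) : ℝ) : ℂ) * (logDeriv H w + logDeriv Z (1 / 2 + w)) - (Om t : ℂ) =
        ((1 / (2 * κ) : ℝ) : ℂ) * ((logDeriv H w - ((κ * Real.log (t / (2 * κ)) : ℝ) : ℂ)) +
          logDeriv Z (1 / 2 + w)) - ((Real.log (2 * κ) / 2 : ℝ) : ℂ) := by
      rw [hlogd, Om]
      push_cast
      field_simp
      ring
    rw [e]
    refine (norm_sub_le _ _).trans ?_
    rw [norm_mul, Complex.norm_real, Complex.norm_real, Real.norm_of_nonneg (by positivity),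
      Real.norm_of_nonneg (by positivity)]
    have h1 : ‖(logDeriv H w - ((κ * Real.log (t / (2 * κ)) : ℝ) : ℂ)) + logDeriv Z (1 / 2 + w)‖ ≤ K1 + K3 :=
      (norm_add_le _ _).trans (add_le_add d4 r3)
    have h2 : 1 / (2 * κ) ≤ 1 := by rw [div_le_one hk0]; linarith
    have h3 : 0 ≤ K1 * |R| := by positivity
    have h4 := abs_nonneg (Real.log c)
    have h5 : 1 / (2 * κ) * ‖(logDeriv H w - ((κ * Real.log (t / (2 * κ)) : ℝ) : ℂ)) +
        logDeriv Z (1 / 2 + w)‖ ≤ 1 * (K1 + K3) := by gcongr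
    linarith
  · rw [d5, norm_mul]
    have hOm : 0 ≤ Om t := by rw [Om]; linarith
    have hur0 : 0 ≤ u.re := by linarith
    calc Real.exp (-((K1 + K3 + Real.log (2 * κ) + 2 * K1 * |R| + 2 * |Real.log c|) * Real.log t)) * h t
        ≤ Real.exp ((Om t * u.re - K1 * ‖u‖) + Real.log c) * h t := by
          gcongr
          have e1 : 0 ≤ Om t * u.re := mul_nonneg hOm hur0
          have e2 : K1 * ‖u‖ ≤ K1 * |R| := by gcongr; linarith
          have e3 : 0 ≤ K1 * |R| := by positivity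
          have e4 := neg_abs_le (Real.log c)
          have e5 := abs_nonneg (Real.log c)
          have e6 : 0 ≤ (K1 + K3 + Real.log (2 * κ)) * Real.log t := by positivity
          have e7 : K1 * |R| ≤ 2 * K1 * |R| * Real.log t := by nlinarith
          have e8 : |Real.log c| ≤ 2 * |Real.log c| * Real.log t := by nlinarith
          nlinarith
      _ = (Real.exp (Om t * u.re - K1 * ‖u‖) * h t) * c := by
          rw [Real.exp_add, Real.exp_log hc0]; ring
      _ ≤ ‖H w‖ * ‖Z (1 / 2 + w)‖ := by gcongr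

end main

/-- **Task HSZ** -/
theorem hsz : S_HSZ := by
  intro κ H X Z hκ hC F h hF hh
  obtain ⟨K1, T1, hK1, hT1, hc⟩ := core hκ hC hF hh
  obtain ⟨c, K3, hc0, hK3, hr⟩ := hC.cf.rgt (1 / 2) (by norm_num)
  have hk0 : (0 : ℝ) < 2 * κ := by linarith
  have hhpos : ∀ t : ℝ, 0 < h t := by
    intro t
    rw [hh]
    simp only
    split_ifs with h1
    · exact h1
    · exact one_pos
  refine ⟨hhpos, ?_, ?_, ?_, ?_, ?_, ?_⟩
  · -- line
    refine ⟨K1, T1, hK1, hT1, fun t v ht hv => ?_⟩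
    obtain ⟨-, c2⟩ := hc t ht
    obtain ⟨d1, -, -, d3, -, -, -⟩ := c2 (I * v) _ (by simpa using hv) rfl
    have e : I * ((t / (2 * κ) : ℝ) : ℂ) + I * v / ((2 * κ : ℝ) : ℂ) = I * (((t + v) / (2 * κ) : ℝ) : ℂ) := by
      push_cast; ring
    rw [e] at d1 d3
    rw [hval hh (t + v) (norm_pos_iff.2 d3)]
    refine d1.trans_eq ?_
    simp only [I_mul_re, ofReal_im, neg_zero, mul_zero, zero_add, norm_mul, norm_I, one_mul,
      Complex.norm_real, Real.norm_eq_abs]
    ring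
  · -- up
    obtain ⟨K2, T2, hK2, hT2, hu⟩ := upR hκ hC hF hh 21 (by norm_num)
    obtain ⟨K4, hK4, hs⟩ := hC.slow
    refine ⟨K2 + 16 * K1 + 300 * K4, max (max T1 T2) 400, ?_, ?_, ?_⟩
    · linarith
    · exact le_max_of_le_left (le_max_of_le_left hT1)
    intro t u ht hui
    have ht1 : T1 ≤ t := (le_max_left _ _).trans ((le_max_left _ _).trans ht)
    have ht2 : T2 ≤ t := (le_max_right _ _).trans ((le_max_left _ _).trans ht)
    have ht3 : 400 ≤ t := (le_max_right _ _).trans ht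
    have hlog : 0 ≤ Real.log t := Real.log_nonneg (by linarith)
    have hnu := Complex.norm_le_abs_re_add_abs_im u
    refine ⟨fun h1 => ?_, fun h1 => ?_⟩
    · refine (hu t u ht2 hui (by linarith)).trans ?_
      have := hhpos t
      gcongr <;> linarith
    · set x := |u.re| with hx
      have hx1 : 1 ≤ x := by linarith
      have hx0 : 0 < x := by linarith
      have hF1 : ‖F (I * t + u)‖ ≤ Real.exp (K4 * (39 * x) ^ (3 / 2 : ℝ)) := by
        rw [Fval hF]
        refine (hs _).trans (Real.exp_le_exp.2 ?_)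
        gcongr
        have e1 : ‖I * ((t / (2 * κ) : ℝ) : ℂ) + u / ((2 * κ : ℝ) : ℂ)‖ ≤ t + ‖u‖ := by
          refine (norm_add_le _ _).trans (add_le_add ?_ ?_)
          · rw [norm_mul, norm_I, one_mul, Complex.norm_real, Real.norm_of_nonneg (by positivity)]
            exact div_le hκ (by linarith)
          · rw [nrm_div hκ]
            exact div_le hκ (norm_nonneg _)
        linarith
      have hp1 : x ^ (3 / 2 : ℝ) ≤ x ^ (7 / 4 : ℝ) := Real.rpow_le_rpow_of_exponent_le hx1 (by norm_num)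
      have hp2 : x ≤ x ^ (7 / 4 : ℝ) := by
        calc x = x ^ (1 : ℝ) := (Real.rpow_one x).symm
          _ ≤ _ := Real.rpow_le_rpow_of_exponent_le hx1 (by norm_num)
      have h39 : (39 * x) ^ (3 / 2 : ℝ) ≤ 300 * x ^ (3 / 2 : ℝ) := by
        rw [Real.mul_rpow (by norm_num) hx0.le]
        gcongr
        calc (39 : ℝ) ^ (3 / 2 : ℝ) ≤ (39 : ℝ) ^ (3 / 2 : ℝ) := le_rfl
          _ = ((39 : ℝ) ^ (3 : ℝ)) ^ (1 / 2 : ℝ) := by rw [← Real.rpow_mul (by norm_num)]; norm_num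
          _ = Real.sqrt (39 ^ 3) := by rw [← Real.sqrt_eq_rpow]; norm_num
          _ ≤ 300 := by rw [Real.sqrt_le_left (by norm_num)]; norm_num
      obtain ⟨c1, -⟩ := hc t ht1
      have hp0 : 0 ≤ x ^ (7 / 4 : ℝ) := by positivity
      calc ‖F (I * t + u)‖ ≤ Real.exp (K4 * (39 * x) ^ (3 / 2 : ℝ)) := hF1
        _ ≤ Real.exp (-(K1 * t)) * Real.exp ((K2 + 16 * K1 + 300 * K4) * x ^ (7 / 4 : ℝ)) := by
          rw [← Real.exp_add, Real.exp_le_exp]
          have e1 : K4 * (39 * x) ^ (3 / 2 : ℝ) ≤ K4 * (300 * x ^ (7 / 4 : ℝ)) := by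
            gcongr
            exact h39.trans (by gcongr)
          have e2 : K1 * t ≤ K1 * (16 * x ^ (7 / 4 : ℝ)) := by
            gcongr
            linarith
          have e3 : 0 ≤ K2 * x ^ (7 / 4 : ℝ) := by positivity
          linarith
        _ ≤ h t * Real.exp ((K2 + 16 * K1 + 300 * K4) * x ^ (7 / 4 : ℝ)) := by gcongr
  · -- right
    refine ⟨2 * κ, K1 + K3, T1, by linarith, by linarith, hT1, fun t u ht hure hun => ?_⟩
    obtain ⟨c1, c2⟩ := hc t ht
    obtain ⟨d1, -, -, -, -, d5, -⟩ := c2 u _ hun rfl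
    set w : ℂ := I * ((t / (2 * κ) : ℝ) : ℂ) + u / ((2 * κ : ℝ) : ℂ) with hw
    have hre : w.re = u.re / (2 * κ) := by
      rw [hw, add_re, I_mul_re, ofReal_im, neg_zero, zero_add]; exact Complex.div_ofReal_re _ _
    have hwre : 1 ≤ w.re := by
      rw [hre, le_div_iff₀ hk0]; linarith
    obtain ⟨-, r2, -⟩ := hr (1 / 2 + w) (by simp; linarith)
    have hh0 := hhpos t
    rw [d5, norm_mul]
    have hK3e : K3 ≤ Real.exp K3 := by linarith [Real.add_one_le_exp K3]
    calc ‖H w‖ * ‖Z (1 / 2 + w)‖ ≤ (Real.exp (Om t * u.re + K1 * ‖u‖) * h t) * Real.exp K3 := by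
          gcongr
          exact r2.trans hK3e
      _ = h t * Real.exp (Om t * u.re + K1 * ‖u‖ + K3) := by rw [Real.exp_add _ K3]; ring
      _ ≤ h t * Real.exp (Om t * u.re + (K1 + K3) * (‖u‖ + 1)) := by
          have := norm_nonneg u
          refine mul_le_mul_of_nonneg_left (Real.exp_le_exp.2 ?_) hh0.le
          nlinarith
  · -- lowr
    refine ⟨2 * κ, K1 + |Real.log c|, by linarith, by linarith [abs_nonneg (Real.log c)],
      fun x hx => ⟨max T1 (8 * x), le_max_of_le_left hT1, fun t ht => ?_⟩⟩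
    have ht1 : T1 ≤ t := (le_max_left _ _).trans ht
    have ht2 : 8 * x ≤ t := (le_max_right _ _).trans ht
    have hx0 : 0 < x := by linarith
    obtain ⟨c1, c2⟩ := hc t ht1
    have hnx : ‖(x : ℂ)‖ = x := by rw [Complex.norm_real, Real.norm_of_nonneg hx0.le]
    obtain ⟨-, d1, -, -, -, d5, -⟩ := c2 (x : ℂ) _ (by rw [hnx]; linarith) rfl
    set w : ℂ := I * ((t / (2 * κ) : ℝ) : ℂ) + (x : ℂ) / ((2 * κ : ℝ) : ℂ) with hw
    have hre : w.re = x / (2 * κ) := by
      rw [hw, add_re, I_mul_re, ofReal_im, neg_zero, zero_add, Complex.div_ofReal_re, ofReal_re]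
    have hwre : 1 ≤ w.re := by
      rw [hre, le_div_iff₀ hk0]; linarith
    obtain ⟨r1, -, -⟩ := hr (1 / 2 + w) (by simp; linarith)
    have hh0 := hhpos t
    rw [d5, norm_mul]
    rw [hnx, ofReal_re] at d1
    calc h t * Real.exp ((Om t - (K1 + |Real.log c|)) * x - (K1 + |Real.log c|))
        ≤ h t * Real.exp ((Om t * x - K1 * x) + Real.log c) := by
          gcongr
          have e1 := neg_abs_le (Real.log c)
          have e2 : 0 ≤ |Real.log c| * x := by positivity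
          nlinarith
      _ = (Real.exp (Om t * x - K1 * x) * h t) * c := by
          rw [Real.exp_add, Real.exp_log hc0]; ring
      _ ≤ ‖H w‖ * ‖Z (1 / 2 + w)‖ := by gcongr
  · -- ld
    intro R
    obtain ⟨K, T0, hK, hT0, hb⟩ := ldB hκ hC hF hh R
    exact ⟨K, T0, hT0, fun t u ht hun hure => ⟨(hb t u ht hun hure).1, (hb t u ht hun hure).2.1⟩⟩
  · -- size
    intro R
    obtain ⟨K, T0, hK, hT0, hb⟩ := ldB hκ hC hF hh R
    obtain ⟨K2, T2, hK2, hT2, hu⟩ := upR hκ hC hF hh |R| (abs_nonneg R)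
    refine ⟨K + (K2 + |R| + 2 * K2 * |R|), max (max T0 T2) (max 2 (8 * |R|)), ?_, ?_⟩
    · exact le_max_of_le_left (le_max_of_le_left hT0)
    intro t u ht hun
    have ht1 : T0 ≤ t := (le_max_left _ _).trans ((le_max_left _ _).trans ht)
    have ht2 : T2 ≤ t := (le_max_right _ _).trans ((le_max_left _ _).trans ht)
    have ht3 : 2 ≤ t := (le_max_left _ _).trans ((le_max_right _ _).trans ht)
    have ht4 : 8 * |R| ≤ t := (le_max_right _ _).trans ((le_max_right _ _).trans ht)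
    have hlog : 1 / 2 ≤ Real.log t := by
      have h2 : Real.log 2 ≤ Real.log t := Real.log_le_log (by norm_num) ht3
      have := Real.log_two_gt_d9
      linarith
    have hRR := le_abs_self R
    have hR0 := abs_nonneg R
    have hh0 := hhpos t
    have hui := Complex.abs_im_le_norm u
    have hur := Complex.abs_re_le_norm u
    refine ⟨?_, fun hure => ?_⟩
    · refine (hu t u ht2 (by linarith) (by linarith)).trans ?_
      have hOm : 0 ≤ Om t := by rw [Om]; linarith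
      calc Real.exp (K2 * Real.log t) * h t * Real.exp ((Om t + K2) * |u.re|)
          ≤ Real.exp (K2 * Real.log t) * h t * Real.exp ((Om t + K2) * |R|) := by
            have e1 : |u.re| ≤ |R| := by linarith
            exact mul_le_mul_of_nonneg_left (Real.exp_le_exp.2
              (mul_le_mul_of_nonneg_left e1 (by linarith))) (by positivity)
        _ = Real.exp (K2 * Real.log t + (Om t + K2) * |R|) * h t := by rw [Real.exp_add]; ring
        _ ≤ _ := by
            gcongr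
            rw [Om]
            have e1 : 0 ≤ K2 * |R| := by positivity
            have e2 : K2 * |R| ≤ 2 * K2 * |R| * Real.log t := by nlinarith
            have e3 : 0 ≤ |R| * Real.log t := by positivity
            have e4 : 0 ≤ K * Real.log t := by positivity
            nlinarith
    · obtain ⟨b1, b2, b3⟩ := hb t u ht1 hun hure
      have e0 : 0 ≤ K2 + |R| + 2 * K2 * |R| := by positivity
      refine ⟨b1, ?_, ?_⟩
      · refine le_trans ?_ b3
        gcongr
        linarith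
      · refine b2.trans (by linarith)

end Pool.Agent.Y412.GL.HSZ
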